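import Pool.Agent.LG39.Basic

/-!
# Actions on chains
-/

namespace LG39

/-- A right action of an `ℓ`-group on a chain by order automorphisms, the lattice operations
being computed pointwise. -/
structure Act (M Δ : Type) [LGrp M] [LinearOrder Δ] where
  act : Δ → M → Δ
  act_one : ∀ x, act x 1 = x
  act_mul : ∀ x g h, act x (g * h) = act (act x g) h
  act_lt : ∀ x y g, x < y → act x g < act y g
  act_sup : ∀ x g h, act x (g ⊔ h) = max (act x g) (act x h)
  act_inf : ∀ x g h, act x (g ⊓ h) = min (act x g) (act x h)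

namespace Act
variable {M Δ : Type} [LGrp M] [LinearOrder Δ] (A : Act M Δ)

/-- Transitivity. -/
def Trans : Prop := ∀ x y, ∃ g, A.act x g = y

/-- There is no proper nontrivial convex congruence. -/
def Prim : Prop :=
  ∀ r : Δ → Δ → Prop, Equivalence r → (∀ x y g, r x y → r (A.act x g) (A.act y g)) →
    (∀ x y z, x ≤ y → y ≤ z → r x z → r x y) → (∃ x y, x ≠ y ∧ r x y) → ∀ x y, r x y

/-- Some stabilizer moves a larger point. -/
def Nonreg : Prop := ∃ x y g, x < y ∧ A.act x g = x ∧ A.act y g ≠ y

/-- All pairs of the sequence `γ` are in the same orbit. -/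
def Homog (γ : ℕ → Δ) : Prop :=
  ∀ i j i' j', i < j → i' < j' → ∃ g, A.act (γ i) g = γ i' ∧ A.act (γ j) g = γ j'

/-- Every finite increasing partial map of the sequence `γ` is induced by an element. -/
def Multi (γ : ℕ → Δ) : Prop :=
  ∀ (S : Finset ℕ) (f : ℕ → ℕ), (∀ i ∈ S, ∀ j ∈ S, i < j → f i < f j) →
    ∃ g, ∀ i ∈ S, A.act (γ i) g = γ (f i)

end Act

end LG39
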