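import Pool.Agent.LG39.Defs

/-!
# Basic facts
-/

namespace LG39

instance {G : Type} [LGrp G] : MulLeftMono G :=
  ⟨fun c _ _ h => LGrp.mul_le_mul_l _ _ h c⟩

instance {G : Type} [LGrp G] : MulRightMono G :=
  ⟨fun c _ _ h => LGrp.mul_le_mul_r _ _ h c⟩

section homs
variable {G H K : Type} [LGrp G] [LGrp H] [LGrp K]

theorem IsLHom.map_one {f : G → H} (hf : IsLHom f) : f 1 = 1 := by
  have h := hf.map_mul 1 1
  simpa using h

theorem IsLHom.map_inv {f : G → H} (hf : IsLHom f) (a : G) : f a⁻¹ = (f a)⁻¹ := by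
  have h := hf.map_mul a⁻¹ a
  rw [inv_mul_cancel, hf.map_one] at h
  exact eq_inv_of_mul_eq_one_left h.symm

theorem IsLHom.map_pow {f : G → H} (hf : IsLHom f) (a : G) (n : ℕ) : f (a ^ n) = f a ^ n := by
  induction n with
  | zero => simp [hf.map_one]
  | succ n ih => rw [pow_succ, pow_succ, hf.map_mul, ih]

theorem IsLHom.mono {f : G → H} (hf : IsLHom f) {a b : G} (h : a ≤ b) : f a ≤ f b := by
  have h1 := hf.map_sup a b
  rw [sup_eq_right.2 h] at h1
  rw [h1]
  exact le_sup_left

theorem IsLHom.comp {g : H → K} {f : G → H} (hg : IsLHom g) (hf : IsLHom f) :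
    IsLHom (fun a => g (f a)) where
  map_mul a b := by rw [hf.map_mul, hg.map_mul]
  map_inf a b := by rw [hf.map_inf, hg.map_inf]
  map_sup a b := by rw [hf.map_sup, hg.map_sup]

theorem IsLHom.id : IsLHom (fun a : G => a) where
  map_mul _ _ := rfl
  map_inf _ _ := rfl
  map_sup _ _ := rfl

theorem IsLHom.eval {X : Type} {f : G → H} (hf : IsLHom f) (v : X → G) (t : Tm X) :
    f (t.eval v) = t.eval (fun x => f (v x)) := by
  induction t with
  | var x => rfl
  | one => exact hf.map_one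
  | mul s t hs ht => simp only [Tm.eval, hf.map_mul, hs, ht]
  | inv s hs => simp only [Tm.eval, hf.map_inv, hs]
  | inf s t hs ht => simp only [Tm.eval, hf.map_inf, hs, ht]
  | sup s t hs ht => simp only [Tm.eval, hf.map_sup, hs, ht]

/-- An injective `ℓ`-homomorphism into a model comes from a model. -/
theorem Models.of_inj {E : Set (Tm ℕ × Tm ℕ)} {f : G → H} (hf : IsLHom f)
    (hi : Function.Injective f) (hH : Models E H) : Models E G := by
  intro p hp v
  apply hi
  rw [hf.eval, hf.eval]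
  exact hH p hp _

end homs

/-! ### substitution of variables -/

/-- Renaming the variables. -/
def Tm.map {X Y : Type} (r : X → Y) : Tm X → Tm Y
  | .var x => .var (r x)
  | .one => .one
  | .mul s t => .mul (s.map r) (t.map r)
  | .inv s => .inv (s.map r)
  | .inf s t => .inf (s.map r) (t.map r)
  | .sup s t => .sup (s.map r) (t.map r)

theorem Tm.eval_map {X Y G : Type} [LGrp G] (r : X → Y) (v : Y → G) (t : Tm X) :
    (t.map r).eval v = t.eval (fun x => v (r x)) := by
  induction t with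
  | var x => rfl
  | one => rfl
  | mul s t hs ht => simp only [Tm.map, Tm.eval, hs, ht]
  | inv s hs => simp only [Tm.map, Tm.eval, hs]
  | inf s t hs ht => simp only [Tm.map, Tm.eval, hs, ht]
  | sup s t hs ht => simp only [Tm.map, Tm.eval, hs, ht]

/-! ### the `ℓ`-subgroup generated by a family -/

/-- The `ℓ`-subgroup generated by the family `v`. -/
def SubGen {X K : Type} [LGrp K] (v : X → K) : Type := {g : K // ∃ t : Tm X, t.eval v = g}

instance SubGen.instLGrp {X K : Type} [LGrp K] (v : X → K) : LGrp (SubGen v) where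
  mul a b := ⟨a.1 * b.1, by
    obtain ⟨s, hs⟩ := a.2; obtain ⟨t, ht⟩ := b.2
    exact ⟨.mul s t, by simp [Tm.eval, hs, ht]⟩⟩
  one := ⟨1, .one, rfl⟩
  inv a := ⟨a.1⁻¹, by
    obtain ⟨s, hs⟩ := a.2
    exact ⟨.inv s, by simp [Tm.eval, hs]⟩⟩
  mul_assoc a b c := Subtype.ext (mul_assoc _ _ _)
  one_mul a := Subtype.ext (one_mul _)
  mul_one a := Subtype.ext (mul_one _)
  inv_mul_cancel a := Subtype.ext (inv_mul_cancel _)
  le a b := a.1 ≤ b.1
  le_refl a := le_refl a.1
  le_trans a b c h1 h2 := le_trans (b := b.1) h1 h2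
  le_antisymm a b h1 h2 := Subtype.ext (le_antisymm h1 h2)
  inf a b := ⟨a.1 ⊓ b.1, by
    obtain ⟨s, hs⟩ := a.2; obtain ⟨t, ht⟩ := b.2
    exact ⟨.inf s t, by simp [Tm.eval, hs, ht]⟩⟩
  sup a b := ⟨a.1 ⊔ b.1, by
    obtain ⟨s, hs⟩ := a.2; obtain ⟨t, ht⟩ := b.2
    exact ⟨.sup s t, by simp [Tm.eval, hs, ht]⟩⟩
  le_sup_left a b := le_sup_left (a := a.1)
  le_sup_right a b := le_sup_right (a := a.1)
  sup_le a b c h1 h2 := sup_le (a := a.1) h1 h2
  inf_le_left a b := inf_le_left (a := a.1)
  inf_le_right a b := inf_le_right (a := a.1)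
  le_inf a b c h1 h2 := by
    show a.1 ≤ b.1 ⊓ c.1
    exact _root_.le_inf h1 h2
  mul_le_mul_l a b h c := LGrp.mul_le_mul_l a.1 b.1 h c.1
  mul_le_mul_r a b h c := LGrp.mul_le_mul_r a.1 b.1 h c.1

namespace SubGen
variable {X K : Type} [LGrp K] (v : X → K)

/-- The generators. -/
def gen (x : X) : SubGen v := ⟨v x, .var x, rfl⟩

theorem incl_hom : IsLHom (fun a : SubGen v => a.1) where
  map_mul _ _ := rfl
  map_inf _ _ := rfl
  map_sup _ _ := rfl

theorem incl_inj : Function.Injective (fun a : SubGen v => a.1) := Subtype.val_injective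

theorem eval_gen (t : Tm X) : (t.eval (gen v)).1 = t.eval v :=
  (incl_hom v).eval (gen v) t

theorem gens (v : ℕ → K) : Gens (gen v) := by
  intro g
  obtain ⟨t, ht⟩ := g.2
  exact ⟨t, Subtype.ext (by rw [eval_gen, ht])⟩

theorem models {E : Set (Tm ℕ × Tm ℕ)} (h : Models E K) : Models E (SubGen v) :=
  h.of_inj (incl_hom v) (incl_inj v)

/-- Extending a map of the generators. -/
theorem lift {L : Type} [LGrp L] (w : X → L)
    (h : ∀ s t : Tm X, s.eval v = t.eval v → s.eval w = t.eval w) :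
    ∃ f : SubGen v → L, IsLHom f ∧ ∀ x, f (gen v x) = w x := by
  choose c hc using fun a : SubGen v => a.2
  have key : ∀ (a : SubGen v) (t : Tm X), t.eval v = a.1 → (c a).eval w = t.eval w :=
    fun a t ht => h _ _ ((hc a).trans ht.symm)
  refine ⟨fun a => (c a).eval w, ⟨fun a b => ?_, fun a b => ?_, fun a b => ?_⟩, fun x => ?_⟩
  · exact key _ (.mul (c a) (c b)) (by simp only [Tm.eval, hc]; rfl)
  · exact key _ (.inf (c a) (c b)) (by simp only [Tm.eval, hc]; rfl)
  · exact key _ (.sup (c a) (c b)) (by simp only [Tm.eval, hc]; rfl)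
  · exact key _ (.var x) rfl

end SubGen

/-! ### powers -/

instance piLGrp {ι K : Type} [LGrp K] : LGrp (ι → K) where
  mul_le_mul_l _ _ h c := fun i => LGrp.mul_le_mul_l _ _ (h i) (c i)
  mul_le_mul_r _ _ h c := fun i => LGrp.mul_le_mul_r _ _ (h i) (c i)

theorem proj_hom {ι K : Type} [LGrp K] (i : ι) : IsLHom (fun a : ι → K => a i) where
  map_mul _ _ := rfl
  map_inf _ _ := rfl
  map_sup _ _ := rfl

theorem models_pi {ι K : Type} [LGrp K] {E : Set (Tm ℕ × Tm ℕ)} (h : Models E K) :
    Models E (ι → K) := by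
  intro p hp v
  funext i
  have key := fun t : Tm ℕ => (proj_hom (K := K) i).eval v t
  exact (key p.1).trans ((h p hp _).trans (key p.2).symm)

/-! ### linearly ordered abelian groups -/

instance linLGrp {A : Type} [AddCommGroup A] [LinearOrder A] [IsOrderedAddMonoid A] :
    LGrp (Multiplicative A) where
  mul_le_mul_l _ _ h c := mul_le_mul_right h c
  mul_le_mul_r _ _ h c := mul_le_mul_left h c

/-- The `ℓ`-group of the integers. -/
abbrev Zm : Type := Multiplicative ℤ

/-- The lexicographic product of two copies of the integers. -/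
abbrev Lex2 : Type := Multiplicative (ℤ ×ₗ ℤ)

end LG39
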