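import Pool.Agent.LG39.Int

/-!
# Evaluation of coded terms at integer points is computable

Use `Primrec.nat_strong_rec` (or `Computable.nat_strong_rec`) with values in `ℕ × ℕ` (the pair
`(a, b)` standing for `a - b`), `code = 5 q + r`: remainder `1` variable, `2` inverse, `3` product,
`4` infimum, `0` supremum (`5 q' + 5`), `code = 0` the unit.
-/

namespace LG39

namespace Comp

/-- The valuation. -/
def vN (p : ℕ × ℕ × ℕ × ℕ) (q : ℕ) : ℕ :=
  if q = 0 then p.1 else if q = 1 then p.2.1 else if q = 2 then p.2.2.1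
  else if q = 3 then p.2.2.2 else 0

theorem vN_eq (p : ℕ × ℕ × ℕ × ℕ) (q : ℕ) : (vN p q : ℤ) = v4 p q := by
  rcases q with _ | _ | _ | _ | q <;> simp [vN, v4]

/-- One step of the evaluation; `l` is the list of the previous values. -/
def step (p : ℕ × ℕ × ℕ × ℕ) (l : List (ℕ × ℕ)) : ℕ × ℕ :=
  if l.length = 0 then (0, 0)
  else if (l.length - 1) % 5 = 0 then (vN p ((l.length - 1) / 5), 0)
  else if (l.length - 1) % 5 = 1 then
    ((l.getD ((l.length - 1) / 5) (0, 0)).2, (l.getD ((l.length - 1) / 5) (0, 0)).1)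
  else if (l.length - 1) % 5 = 2 then
    ((l.getD ((l.length - 1) / 5).unpair.1 (0, 0)).1 +
      (l.getD ((l.length - 1) / 5).unpair.2 (0, 0)).1,
     (l.getD ((l.length - 1) / 5).unpair.1 (0, 0)).2 +
      (l.getD ((l.length - 1) / 5).unpair.2 (0, 0)).2)
  else if (l.length - 1) % 5 = 3 then
    (min ((l.getD ((l.length - 1) / 5).unpair.1 (0, 0)).1 +
      (l.getD ((l.length - 1) / 5).unpair.2 (0, 0)).2)
      ((l.getD ((l.length - 1) / 5).unpair.2 (0, 0)).1 +
      (l.getD ((l.length - 1) / 5).unpair.1 (0, 0)).2),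
     (l.getD ((l.length - 1) / 5).unpair.1 (0, 0)).2 +
      (l.getD ((l.length - 1) / 5).unpair.2 (0, 0)).2)
  else
    (max ((l.getD ((l.length - 1) / 5).unpair.1 (0, 0)).1 +
      (l.getD ((l.length - 1) / 5).unpair.2 (0, 0)).2)
      ((l.getD ((l.length - 1) / 5).unpair.2 (0, 0)).1 +
      (l.getD ((l.length - 1) / 5).unpair.1 (0, 0)).2),
     (l.getD ((l.length - 1) / 5).unpair.1 (0, 0)).2 +
      (l.getD ((l.length - 1) / 5).unpair.2 (0, 0)).2)

/-- The list of the first `n` values. -/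
def L (p : ℕ × ℕ × ℕ × ℕ) : ℕ → List (ℕ × ℕ)
  | 0 => []
  | n + 1 => L p n ++ [step p (L p n)]

/-- The value. -/
def F (p : ℕ × ℕ × ℕ × ℕ) (n : ℕ) : ℕ × ℕ := step p (L p n)

theorem L_eq (p : ℕ × ℕ × ℕ × ℕ) (n : ℕ) : L p n = (List.range n).map (F p) := by
  induction n with
  | zero => rfl
  | succ n ih =>
    rw [List.range_succ, List.map_append, ← ih]
    rfl

theorem L_length (p : ℕ × ℕ × ℕ × ℕ) (n : ℕ) : (L p n).length = n := by
  rw [L_eq]; simp

theorem L_getD (p : ℕ × ℕ × ℕ × ℕ) (n q : ℕ) (h : q < n) : (L p n).getD q (0, 0) = F p q := by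
  rw [L_eq]; simp [List.getD, h]

theorem vN_primrec : Primrec₂ vN := by
  unfold vN
  have c : ∀ k : ℕ, PrimrecPred (fun x : (ℕ × ℕ × ℕ × ℕ) × ℕ => x.2 = k) := fun k =>
    Primrec.eq.comp Primrec.snd (Primrec.const k)
  refine Primrec.ite (c 0) (Primrec.fst.comp Primrec.fst) ?_
  refine Primrec.ite (c 1) (Primrec.fst.comp (Primrec.snd.comp Primrec.fst)) ?_
  refine Primrec.ite (c 2) (Primrec.fst.comp (Primrec.snd.comp (Primrec.snd.comp Primrec.fst))) ?_
  refine Primrec.ite (c 3) (Primrec.snd.comp (Primrec.snd.comp (Primrec.snd.comp Primrec.fst))) ?_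
  exact Primrec.const 0

theorem step_primrec : Primrec₂ step := by
  unfold step
  have hlen : Primrec (fun x : (ℕ × ℕ × ℕ × ℕ) × List (ℕ × ℕ) => x.2.length) :=
    Primrec.list_length.comp Primrec.snd
  have hn : Primrec (fun x : (ℕ × ℕ × ℕ × ℕ) × List (ℕ × ℕ) => x.2.length - 1) :=
    Primrec.nat_sub.comp hlen (Primrec.const 1)
  have hq : Primrec (fun x : (ℕ × ℕ × ℕ × ℕ) × List (ℕ × ℕ) => (x.2.length - 1) / 5) :=
    Primrec.nat_div.comp hn (Primrec.const 5)
  have hr : ∀ k, PrimrecPred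
      (fun x : (ℕ × ℕ × ℕ × ℕ) × List (ℕ × ℕ) => (x.2.length - 1) % 5 = k) := fun k =>
    Primrec.eq.comp (Primrec.nat_mod.comp hn (Primrec.const 5)) (Primrec.const k)
  have hx : Primrec (fun x : (ℕ × ℕ × ℕ × ℕ) × List (ℕ × ℕ) =>
      x.2.getD ((x.2.length - 1) / 5) (0, 0)) :=
    (Primrec.list_getD (0, 0)).comp Primrec.snd hq
  have hu : Primrec (fun x : (ℕ × ℕ × ℕ × ℕ) × List (ℕ × ℕ) =>
      ((x.2.length - 1) / 5).unpair) := Primrec.unpair.comp hq
  have ha : Primrec (fun x : (ℕ × ℕ × ℕ × ℕ) × List (ℕ × ℕ) =>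
      x.2.getD ((x.2.length - 1) / 5).unpair.1 (0, 0)) :=
    (Primrec.list_getD (0, 0)).comp Primrec.snd (Primrec.fst.comp hu)
  have hb : Primrec (fun x : (ℕ × ℕ × ℕ × ℕ) × List (ℕ × ℕ) =>
      x.2.getD ((x.2.length - 1) / 5).unpair.2 (0, 0)) :=
    (Primrec.list_getD (0, 0)).comp Primrec.snd (Primrec.snd.comp hu)
  have hs := Primrec.nat_add.comp (Primrec.snd.comp ha) (Primrec.snd.comp hb)
  have h1 := Primrec.nat_add.comp (Primrec.fst.comp ha) (Primrec.snd.comp hb)
  have h2 := Primrec.nat_add.comp (Primrec.fst.comp hb) (Primrec.snd.comp ha)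
  refine Primrec.ite (Primrec.eq.comp hlen (Primrec.const 0)) (Primrec.const (0, 0)) ?_
  refine Primrec.ite (hr 0)
    (Primrec.pair (vN_primrec.comp Primrec.fst hq) (Primrec.const 0)) ?_
  refine Primrec.ite (hr 1) (Primrec.pair (Primrec.snd.comp hx) (Primrec.fst.comp hx)) ?_
  refine Primrec.ite (hr 2)
    (Primrec.pair (Primrec.nat_add.comp (Primrec.fst.comp ha) (Primrec.fst.comp hb)) hs) ?_
  refine Primrec.ite (hr 3) (Primrec.pair (Primrec.nat_min.comp h1 h2) hs) ?_
  exact Primrec.pair (Primrec.nat_max.comp h1 h2) hs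

theorem F_primrec : Primrec₂ F := by
  refine Primrec.nat_strong_rec F (g := fun p l => some (step p l))
    (Primrec.option_some.comp step_primrec) ?_
  intro p n
  rw [← L_eq]
  rfl

theorem F_step (p : ℕ × ℕ × ℕ × ℕ) (n : ℕ) : F p (n + 1) =
    if n % 5 = 0 then (vN p (n / 5), 0)
    else if n % 5 = 1 then ((F p (n / 5)).2, (F p (n / 5)).1)
    else if n % 5 = 2 then
      ((F p (n / 5).unpair.1).1 + (F p (n / 5).unpair.2).1,
       (F p (n / 5).unpair.1).2 + (F p (n / 5).unpair.2).2)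
    else if n % 5 = 3 then
      (min ((F p (n / 5).unpair.1).1 + (F p (n / 5).unpair.2).2)
        ((F p (n / 5).unpair.2).1 + (F p (n / 5).unpair.1).2),
       (F p (n / 5).unpair.1).2 + (F p (n / 5).unpair.2).2)
    else
      (max ((F p (n / 5).unpair.1).1 + (F p (n / 5).unpair.2).2)
        ((F p (n / 5).unpair.2).1 + (F p (n / 5).unpair.1).2),
       (F p (n / 5).unpair.1).2 + (F p (n / 5).unpair.2).2) := by
  have l1 := Nat.unpair_left_le (n / 5)
  have l2 := Nat.unpair_right_le (n / 5)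
  have e1 := L_getD p (n + 1) (n / 5) (by omega)
  have e2 := L_getD p (n + 1) (n / 5).unpair.1 (by omega)
  have e3 := L_getD p (n + 1) (n / 5).unpair.2 (by omega)
  show step p (L p (n + 1)) = _
  unfold step
  rw [L_length, if_neg (Nat.succ_ne_zero n), Nat.add_sub_cancel, e1, e2, e3]

theorem F_code (p : ℕ × ℕ × ℕ × ℕ) (t : Tm ℕ) :
    ((F p t.code).1 : ℤ) - (F p t.code).2 = t.evalZ (v4 p) := by
  induction t with
  | var n =>
    rw [show (Tm.var n).code = (5 * n) + 1 from rfl, F_step, if_pos (by omega),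
      show 5 * n / 5 = n by omega, Tm.evalZ]
    simp [vN_eq]
  | one => simp [F, step, L, Tm.code, Tm.evalZ]
  | inv s hs =>
    rw [show (Tm.inv s).code = (5 * s.code + 1) + 1 from rfl, F_step, if_neg (by omega),
      if_pos (by omega), show (5 * s.code + 1) / 5 = s.code by omega, Tm.evalZ, ← hs]
    simp
  | mul s t hs ht =>
    rw [show (Tm.mul s t).code = (5 * Nat.pair s.code t.code + 2) + 1 from rfl, F_step,
      if_neg (by omega), if_neg (by omega), if_pos (by omega),
      show (5 * Nat.pair s.code t.code + 2) / 5 = Nat.pair s.code t.code by omega,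
      Nat.unpair_pair, Tm.evalZ, ← hs, ← ht]
    push_cast
    ring
  | inf s t hs ht =>
    rw [show (Tm.inf s t).code = (5 * Nat.pair s.code t.code + 3) + 1 from rfl, F_step,
      if_neg (by omega), if_neg (by omega), if_neg (by omega), if_pos (by omega),
      show (5 * Nat.pair s.code t.code + 3) / 5 = Nat.pair s.code t.code by omega,
      Nat.unpair_pair, Tm.evalZ, ← hs, ← ht]
    push_cast
    omega
  | sup s t hs ht =>
    rw [show (Tm.sup s t).code = (5 * Nat.pair s.code t.code + 4) + 1 from rfl, F_step,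
      if_neg (by omega), if_neg (by omega), if_neg (by omega), if_neg (by omega),
      show (5 * Nat.pair s.code t.code + 4) / 5 = Nat.pair s.code t.code by omega,
      Nat.unpair_pair, Tm.evalZ, ← hs, ← ht]
    push_cast
    omega

end Comp

theorem eval_computable : ∃ z : (ℕ × ℕ × ℕ × ℕ) → ℕ → Bool, Primrec₂ z ∧
    ∀ (p : ℕ × ℕ × ℕ × ℕ) (t : Tm ℕ), z p t.code = true ↔ t.evalZ (v4 p) = 0 := by
  refine ⟨fun p n => (Comp.F p n).1 == (Comp.F p n).2, ?_, ?_⟩
  · exact Primrec.beq.comp (Primrec.fst.comp Comp.F_primrec) (Primrec.snd.comp Comp.F_primrec)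
  · intro p t
    have h := Comp.F_code p t
    rw [beq_iff_eq, ← h, sub_eq_zero]
    exact_mod_cast Iff.rfl

end LG39
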