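import Pool.Agent.LG39.Basic

/-!
# Convex `ℓ`-subgroups
-/

namespace LG39

/-- The absolute value. -/
def ab {T : Type} [LGrp T] (a : T) : T := a ⊔ a⁻¹

/-- Convex `ℓ`-subgroups (equivalently, solid subgroups). -/
structure Cvx (T : Type) [LGrp T] where
  carrier : Set T
  one_mem : 1 ∈ carrier
  mul_mem : ∀ a b, a ∈ carrier → b ∈ carrier → a * b ∈ carrier
  inv_mem : ∀ a, a ∈ carrier → a⁻¹ ∈ carrier
  solid : ∀ a b, a ∈ carrier → ab b ≤ ab a → b ∈ carrier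

variable {T : Type} [LGrp T]

theorem one_le_ab (a : T) : 1 ≤ ab a := one_le_mabs a

theorem ab_of_one_le {a : T} (h : 1 ≤ a) : ab a = a := mabs_of_one_le h

theorem ab_inv (a : T) : ab a⁻¹ = ab a := mabs_inv a

theorem le_ab (a : T) : a ≤ ab a := le_sup_left

theorem inv_le_ab (a : T) : a⁻¹ ≤ ab a := le_sup_right

theorem ab_le {a b : T} (h1 : a ≤ b) (h2 : a⁻¹ ≤ b) : ab a ≤ b := sup_le h1 h2

theorem ab_mul_le (a b : T) : ab (a * b) ≤ ab a * ab b * ab a := by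
  apply ab_le
  · exact (mul_le_mul' (le_ab a) (le_ab b)).trans (le_mul_of_one_le_right' (one_le_ab a))
  · rw [mul_inv_rev, mul_assoc]
    exact (mul_le_mul' (inv_le_ab b) (inv_le_ab a)).trans (le_mul_of_one_le_left' (one_le_ab a))

/-- `ab (a ⊔ b) ≤ ab a * ab b`. -/
theorem ab_sup_le (a b : T) : ab (a ⊔ b) ≤ ab a * ab b := by
  have h1 : ab a ≤ ab a * ab b := le_mul_of_one_le_right' (one_le_ab b)
  have h2 : ab b ≤ ab a * ab b := le_mul_of_one_le_left' (one_le_ab a)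
  apply ab_le
  · exact sup_le ((le_ab a).trans h1) ((le_ab b).trans h2)
  · have h3 : (a ⊔ b)⁻¹ ≤ a⁻¹ := inv_le_inv_iff.2 le_sup_left
    exact h3.trans ((inv_le_ab a).trans h1)

theorem ab_inf_le (a b : T) : ab (a ⊓ b) ≤ ab a * ab b := by
  have h1 : ab a ≤ ab a * ab b := le_mul_of_one_le_right' (one_le_ab b)
  have h2 : ab b ≤ ab a * ab b := le_mul_of_one_le_left' (one_le_ab a)
  apply ab_le
  · exact inf_le_left.trans ((le_ab a).trans h1)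
  · rw [inv_inf]
    exact sup_le ((inv_le_ab a).trans h1) ((inv_le_ab b).trans h2)

theorem mul_inf_inv_mul (s t : T) : s * (s ⊓ t)⁻¹ * t = s ⊔ t := by
  rw [inv_inf, mul_sup, sup_mul, mul_inv_cancel, one_mul, mul_assoc, inv_mul_cancel, mul_one,
    sup_comm]

/-- Disjoint elements commute: `s * t = s ⊔ t` if `s ⊓ t = 1` . -/
theorem disj_comm {s t : T} (h : s ⊓ t = 1) : s * t = t * s := by
  have h1 := mul_inf_inv_mul s t
  have h2 := mul_inf_inv_mul t s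
  rw [h, inv_one, mul_one] at h1
  rw [inf_comm, h, inv_one, mul_one, sup_comm] at h2
  rw [h1, h2]

theorem pos_neg_disj (a : T) : (a ⊔ 1) ⊓ (a⁻¹ ⊔ 1) = 1 := by
  have h1 : a ⊔ 1 = a * (a⁻¹ ⊔ 1) := by
    rw [mul_sup, mul_inv_cancel, mul_one, sup_comm]
  have h2 : (a ⊔ 1) ⊓ (a⁻¹ ⊔ 1) = (a ⊓ 1) * (a⁻¹ ⊔ 1) := by
    rw [inf_mul, one_mul, ← h1]
  have h3 : a⁻¹ ⊔ 1 = (a ⊓ 1)⁻¹ := by
    rw [inv_inf, inv_one]
  rw [h2, h3, mul_inv_cancel]

theorem inf_mul_le {z u v : T} (hz : 1 ≤ z) (hu : 1 ≤ u) (hv : 1 ≤ v) :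
    z ⊓ u * v ≤ (z ⊓ u) * (z ⊓ v) := by
  rw [inf_mul, mul_inf, mul_inf]
  refine le_inf (le_inf ?_ ?_) (le_inf ?_ ?_)
  · exact inf_le_left.trans (le_mul_of_one_le_right' hz)
  · exact inf_le_left.trans (le_mul_of_one_le_right' hv)
  · exact inf_le_left.trans (le_mul_of_one_le_left' hu)
  · exact inf_le_right

/-- `z ⊓ y ^ K ≤ (z ⊓ y) ^ K` for `z, y ≥ 1` (and `K ≥ 1`); from
`x ⊓ y z ≤ (x ⊓ y) (x ⊓ z)`. -/
theorem inf_pow_le {z y : T} (hz : 1 ≤ z) (hy : 1 ≤ y) (K : ℕ) :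
    z ⊓ y ^ (K + 1) ≤ (z ⊓ y) ^ (K + 1) := by
  induction K with
  | zero => simp
  | succ K ih =>
    rw [pow_succ y, pow_succ (z ⊓ y)]
    exact (inf_mul_le hz (one_le_pow_of_one_le' hy _) hy).trans (mul_le_mul' ih le_rfl)

namespace Cvx

variable (Q : Cvx T)

/-- Convexity for positive elements. -/
theorem conv {a b : T} (hb : b ∈ Q.carrier) (h1 : 1 ≤ a) (h2 : a ≤ b) : a ∈ Q.carrier := by
  refine Q.solid b a hb ?_
  rw [ab_of_one_le h1, ab_of_one_le (h1.trans h2)]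
  exact h2

theorem ab_mem {a : T} : ab a ∈ Q.carrier ↔ a ∈ Q.carrier := by
  constructor
  · intro h
    refine Q.solid (ab a) a h ?_
    rw [ab_of_one_le (one_le_ab a)]
  · intro h
    refine Q.solid a (ab a) h ?_
    rw [ab_of_one_le (one_le_ab a)]

theorem sup_mem {a b : T} (ha : a ∈ Q.carrier) (hb : b ∈ Q.carrier) : a ⊔ b ∈ Q.carrier := by
  refine Q.solid (ab a * ab b) _ (Q.mul_mem _ _ (Q.ab_mem.2 ha) (Q.ab_mem.2 hb)) ?_
  rw [ab_of_one_le (one_le_mul (one_le_ab a) (one_le_ab b))]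
  exact ab_sup_le a b

theorem inf_mem {a b : T} (ha : a ∈ Q.carrier) (hb : b ∈ Q.carrier) : a ⊓ b ∈ Q.carrier := by
  refine Q.solid (ab a * ab b) _ (Q.mul_mem _ _ (Q.ab_mem.2 ha) (Q.ab_mem.2 hb)) ?_
  rw [ab_of_one_le (one_le_mul (one_le_ab a) (one_le_ab b))]
  exact ab_inf_le a b

theorem pow_mem {a : T} (ha : a ∈ Q.carrier) (n : ℕ) : a ^ n ∈ Q.carrier := by
  induction n with
  | zero => rw [pow_zero]; exact Q.one_mem
  | succ n ih => rw [pow_succ]; exact Q.mul_mem _ _ ih ha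

/-- The trivial convex `ℓ`-subgroup. -/
def bot (T : Type) [LGrp T] : Cvx T where
  carrier := {1}
  one_mem := rfl
  mul_mem := by
    intro a b ha hb
    rw [Set.mem_singleton_iff] at *
    rw [ha, hb, mul_one]
  inv_mem := by
    intro a ha
    rw [Set.mem_singleton_iff] at *
    rw [ha, inv_one]
  solid := by
    intro a b ha h
    rw [Set.mem_singleton_iff] at *
    rw [ha, ab_of_one_le le_rfl] at h
    apply le_antisymm
    · exact (le_ab b).trans h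
    · have h1 : b⁻¹ ≤ 1 := (inv_le_ab b).trans h
      exact inv_le_one'.1 h1

/-- The convex `ℓ`-subgroup generated by `Q` and `c`. -/
def adj (c : T) (hc : 1 ≤ c) : Cvx T where
  carrier := {z | ∃ r ∈ Q.carrier, 1 ≤ r ∧ ∃ K : ℕ, ab z ≤ (r * c) ^ K}
  one_mem := by
    refine ⟨1, Q.one_mem, le_rfl, 0, ?_⟩
    rw [pow_zero, ab_of_one_le le_rfl]
  mul_mem := by
    rintro a b ⟨r, hr, hr1, K, hK⟩ ⟨s, hs, hs1, L, hL⟩
    refine ⟨r * s, Q.mul_mem _ _ hr hs, one_le_mul hr1 hs1, K + L + K, ?_⟩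
    have h1 : r * c ≤ r * s * c := mul_le_mul' (le_mul_of_one_le_right' hs1) le_rfl
    have h2 : s * c ≤ r * s * c := mul_le_mul' (le_mul_of_one_le_left' hr1) le_rfl
    have h3 : ab a ≤ (r * s * c) ^ K := hK.trans (pow_le_pow_left' h1 K)
    have h4 : ab b ≤ (r * s * c) ^ L := hL.trans (pow_le_pow_left' h2 L)
    rw [pow_add, pow_add]
    exact (ab_mul_le a b).trans (mul_le_mul' (mul_le_mul' h3 h4) h3)
  inv_mem := by
    rintro a ⟨r, hr, hr1, K, hK⟩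
    exact ⟨r, hr, hr1, K, by rw [ab_inv]; exact hK⟩
  solid := by
    rintro a b ⟨r, hr, hr1, K, hK⟩ h
    exact ⟨r, hr, hr1, K, h.trans hK⟩

theorem le_adj (c : T) (hc : 1 ≤ c) : Q.carrier ⊆ (Q.adj c hc).carrier := by
  intro z hz
  refine ⟨ab z, Q.ab_mem.2 hz, one_le_ab z, 1, ?_⟩
  rw [pow_one]
  exact le_mul_of_one_le_right' hc

theorem mem_adj (c : T) (hc : 1 ≤ c) : c ∈ (Q.adj c hc).carrier := by
  refine ⟨1, Q.one_mem, le_rfl, 1, ?_⟩
  rw [pow_one, one_mul, ab_of_one_le hc]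

/-- Zorn. -/
theorem exists_max (u : T) (hu : u ∉ Q.carrier) : ∃ R : Cvx T, Q.carrier ⊆ R.carrier ∧
    u ∉ R.carrier ∧ ∀ S : Cvx T, R.carrier ⊆ S.carrier → u ∉ S.carrier →
      S.carrier ⊆ R.carrier := by
  have hchain : ∀ C ⊆ {s : Set T | ∃ R : Cvx T, R.carrier = s ∧ Q.carrier ⊆ s ∧ u ∉ s},
      IsChain (· ⊆ ·) C → C.Nonempty →
      ∃ ub ∈ {s : Set T | ∃ R : Cvx T, R.carrier = s ∧ Q.carrier ⊆ s ∧ u ∉ s},
        ∀ s ∈ C, s ⊆ ub := by
    intro C hC hch hne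
    obtain ⟨s0, hs0⟩ := hne
    refine ⟨⋃₀ C, ⟨⟨⋃₀ C, ?_, ?_, ?_, ?_⟩, rfl, ?_, ?_⟩, fun s hs => Set.subset_sUnion_of_mem hs⟩
    · obtain ⟨R, hR, -, -⟩ := hC hs0
      exact ⟨s0, hs0, by rw [← hR]; exact R.one_mem⟩
    · rintro a b ⟨s, hs, has⟩ ⟨t, ht, hbt⟩
      rcases hch.total hs ht with h | h
      · obtain ⟨R, hR, -, -⟩ := hC ht
        refine ⟨t, ht, ?_⟩
        have h1 := h has
        rw [← hR] at h1 hbt ⊢
        exact R.mul_mem _ _ h1 hbt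
      · obtain ⟨R, hR, -, -⟩ := hC hs
        refine ⟨s, hs, ?_⟩
        have h1 := h hbt
        rw [← hR] at h1 has ⊢
        exact R.mul_mem _ _ has h1
    · rintro a ⟨s, hs, has⟩
      obtain ⟨R, hR, -, -⟩ := hC hs
      refine ⟨s, hs, ?_⟩
      rw [← hR] at has ⊢
      exact R.inv_mem _ has
    · rintro a b ⟨s, hs, has⟩ h
      obtain ⟨R, hR, -, -⟩ := hC hs
      refine ⟨s, hs, ?_⟩
      rw [← hR] at has ⊢
      exact R.solid _ _ has h
    · obtain ⟨R, -, hQ, -⟩ := hC hs0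
      exact hQ.trans (Set.subset_sUnion_of_mem hs0)
    · rintro ⟨s, hs, hus⟩
      obtain ⟨R, -, -, hu'⟩ := hC hs
      exact hu' hus
  obtain ⟨m, hQm, hm⟩ := zorn_subset_nonempty _ hchain Q.carrier ⟨Q, rfl, subset_rfl, hu⟩
  obtain ⟨⟨R, hR, hQ, huR⟩, hmax⟩ := hm
  refine ⟨R, by rw [hR]; exact hQ, by rw [hR]; exact huR, fun S hS huS => ?_⟩
  rw [hR] at hS ⊢
  exact hmax ⟨S, rfl, hQ.trans hS, huS⟩ hS

/-- Values are prime. -/
theorem prime_of_max (u : T) (hu : u ∉ Q.carrier)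
    (hmax : ∀ S : Cvx T, Q.carrier ⊆ S.carrier → u ∉ S.carrier → S.carrier ⊆ Q.carrier)
    (s t : T) (h : s ⊓ t = 1) : s ∈ Q.carrier ∨ t ∈ Q.carrier := by
  by_contra hcon
  push Not at hcon
  obtain ⟨hs, ht⟩ := hcon
  have hs1 : 1 ≤ s := by rw [← h]; exact inf_le_left
  have ht1 : 1 ≤ t := by rw [← h]; exact inf_le_right
  have key : ∀ c (hc : 1 ≤ c), c ∉ Q.carrier → u ∈ (Q.adj c hc).carrier := by
    intro c hc hcQ
    by_contra hcon
    exact hcQ (hmax _ (Q.le_adj c hc) hcon (Q.mem_adj c hc))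
  obtain ⟨r, hr, hr1, K, hK⟩ := key s hs1 hs
  obtain ⟨q, hq, hq1, L, hL⟩ := key t ht1 ht
  set w := r * q with hw
  have hwQ : w ∈ Q.carrier := Q.mul_mem _ _ hr hq
  have hw1 : 1 ≤ w := one_le_mul hr1 hq1
  set N := K + L with hN
  have hws1 : 1 ≤ w * s := one_le_mul hw1 hs1
  have hwt1 : 1 ≤ w * t := one_le_mul hw1 ht1
  have h1 : ab u ≤ (w * s) ^ (N + 1) := by
    refine hK.trans ((pow_le_pow_left' (mul_le_mul' (le_mul_of_one_le_right' hq1) le_rfl) K).trans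
      (pow_le_pow_right' hws1 (by omega)))
  have h2 : ab u ≤ (w * t) ^ (N + 1) := by
    refine hL.trans ((pow_le_pow_left' (mul_le_mul' (le_mul_of_one_le_left' hr1) le_rfl) L).trans
      (pow_le_pow_right' hwt1 (by omega)))
  have h3 : (w * s) ^ (N + 1) ⊓ (w * t) ^ (N + 1) ≤ (w ^ (N + 1)) ^ (N + 1) := by
    refine (inf_pow_le (one_le_pow_of_one_le' hws1 _) hwt1 N).trans (pow_le_pow_left' ?_ _)
    rw [inf_comm]
    refine (inf_pow_le hwt1 hws1 N).trans (pow_le_pow_left' ?_ _)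
    rw [← mul_inf, inf_comm, h, mul_one]
  have h4 : ab u ∈ Q.carrier :=
    Q.conv (Q.pow_mem (Q.pow_mem hwQ _) _) (one_le_ab u) ((le_inf h1 h2).trans h3)
  exact hu (Q.ab_mem.1 h4)

end Cvx

end LG39
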