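import Mathlib

/-!
# Lattice-ordered groups, varieties, free products, word problems

All `ℓ`-groups have their carrier in `Type`.
-/

namespace LG39

/-- Terms of the language of `ℓ`-groups over a set `X` of generators. -/
inductive Tm (X : Type) : Type
  | var (x : X) : Tm X
  | one : Tm X
  | mul (s t : Tm X) : Tm X
  | inv (s : Tm X) : Tm X
  | inf (s t : Tm X) : Tm X
  | sup (s t : Tm X) : Tm X

/-- Lattice-ordered groups: a group with a lattice order invariant under left and right
multiplication. -/
class LGrp (G : Type) extends Group G, Lattice G where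
  mul_le_mul_l : ∀ a b : G, a ≤ b → ∀ c, c * a ≤ c * b
  mul_le_mul_r : ∀ a b : G, a ≤ b → ∀ c, a * c ≤ b * c

/-- The value of a term. -/
def Tm.eval {X G : Type} [LGrp G] (v : X → G) : Tm X → G
  | .var x => v x
  | .one => 1
  | .mul s t => s.eval v * t.eval v
  | .inv s => (s.eval v)⁻¹
  | .inf s t => s.eval v ⊓ t.eval v
  | .sup s t => s.eval v ⊔ t.eval v

/-- `ℓ`-homomorphisms. -/
structure IsLHom {G H : Type} [LGrp G] [LGrp H] (f : G → H) : Prop where
  map_mul : ∀ a b, f (a * b) = f a * f b
  map_inf : ∀ a b, f (a ⊓ b) = f a ⊓ f b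
  map_sup : ∀ a b, f (a ⊔ b) = f a ⊔ f b

/-- `G` satisfies the identities in `E`, i.e. `G` belongs to the variety defined by `E`. -/
def Models (E : Set (Tm ℕ × Tm ℕ)) (G : Type) [LGrp G] : Prop :=
  ∀ p ∈ E, ∀ v : ℕ → G, p.1.eval v = p.2.eval v

/-- `P`, with the maps `i : G → P` and `j : H → P`, is the free product (the coproduct) of `G`
and `H` in the variety defined by `E`. -/
structure IsFreeProd (E : Set (Tm ℕ × Tm ℕ)) {G H P : Type} [LGrp G] [LGrp H] [LGrp P]
    (i : G → P) (j : H → P) : Prop where
  mem : Models E P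
  hom_l : IsLHom i
  hom_r : IsLHom j
  univ : ∀ (K : Type) [LGrp K], Models E K → ∀ (f : G → K) (g : H → K), IsLHom f → IsLHom g →
    ∃! h : P → K, IsLHom h ∧ (∀ a, h (i a) = f a) ∧ (∀ b, h (j b) = g b)

/-- A Gödel numbering of the terms over countably many generators (it is a bijection onto `ℕ`). -/
def Tm.code : Tm ℕ → ℕ
  | .one => 0
  | .var n => 5 * n + 1
  | .inv s => 5 * s.code + 2
  | .mul s t => 5 * Nat.pair s.code t.code + 3
  | .inf s t => 5 * Nat.pair s.code t.code + 4
  | .sup s t => 5 * Nat.pair s.code t.code + 5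

/-- The family `x` generates `G` as an `ℓ`-group. -/
def Gens {G : Type} [LGrp G] (x : ℕ → G) : Prop :=
  ∀ g : G, ∃ t : Tm ℕ, t.eval x = g

/-- The word problem of `G` is soluble for the generating sequence `x`: an algorithm decides, for
every term `t`, whether the value of `t` is `1`. -/
def Soluble {G : Type} [LGrp G] (x : ℕ → G) : Prop :=
  ∃ f : ℕ → Bool, Computable f ∧ ∀ t : Tm ℕ, f t.code = true ↔ t.eval x = 1

/-- The sequence `x 0, y 0, x 1, y 1, …`. -/
def merge {P : Type} (x y : ℕ → P) (n : ℕ) : P :=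
  if n % 2 = 0 then x (n / 2) else y (n / 2)

/-- In the variety defined by `E` the free product preserves solubility of the word problem. -/
def Preserves (E : Set (Tm ℕ × Tm ℕ)) : Prop :=
  ∀ (G H P : Type) [LGrp G] [LGrp H] [LGrp P] (i : G → P) (j : H → P) (x : ℕ → G) (y : ℕ → H),
    Models E G → Models E H → IsFreeProd E i j → Gens x → Gens y →
    Soluble x → Soluble y → Soluble (merge (i ∘ x) (j ∘ y))

/-- The same for finitely generated `ℓ`-groups (finite generating sets are given by sequences
which are `1` from some point on). -/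
def PreservesFG (E : Set (Tm ℕ × Tm ℕ)) : Prop :=
  ∀ (G H P : Type) [LGrp G] [LGrp H] [LGrp P] (i : G → P) (j : H → P) (x : ℕ → G) (y : ℕ → H),
    Models E G → Models E H → IsFreeProd E i j → Gens x → Gens y →
    (∃ r, ∀ k, r ≤ k → x k = 1) → (∃ r, ∀ k, r ≤ k → y k = 1) →
    Soluble x → Soluble y → Soluble (merge (i ∘ x) (j ∘ y))

/-- Every `ℓ`-group satisfying the identities in `E` has only one element. -/
def TrivialVar (E : Set (Tm ℕ × Tm ℕ)) : Prop :=
  ∀ (G : Type) [LGrp G], Models E G → Subsingleton G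

end LG39
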