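import Pool.Agent.LG39.Basic

/-!
# Free products exist

`P` is the quotient of `Tm (G ⊕ H)` by `s ~ t` iff `s` and `t` have the same value for all
`K : Type` with `Models E K` and all pairs of `ℓ`-homomorphisms `G → K`, `H → K`.
-/

namespace LG39

namespace FreeP

variable (E : Set (Tm ℕ × Tm ℕ)) (G H : Type) [LGrp G] [LGrp H]

/-- Terms with the same value in all models. -/
def rel (s t : Tm (G ⊕ H)) : Prop :=
  ∀ (K : Type) [LGrp K], Models E K → ∀ (f : G → K) (g : H → K), IsLHom f → IsLHom g →
    s.eval (Sum.elim f g) = t.eval (Sum.elim f g)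

/-- The setoid on terms. -/
def std : Setoid (Tm (G ⊕ H)) where
  r := rel E G H
  iseqv := ⟨fun _ _ _ _ _ _ _ _ => rfl,
    fun h K _ hK f g hf hg => (h K hK f g hf hg).symm,
    fun h1 h2 K _ hK f g hf hg => (h1 K hK f g hf hg).trans (h2 K hK f g hf hg)⟩

/-- The free product. -/
def FP : Type := Quotient (std E G H)

variable {E G H}

/-- The class of a term. -/
def cls (t : Tm (G ⊕ H)) : FP E G H := Quotient.mk _ t

theorem sound {s t : Tm (G ⊕ H)} (h : rel E G H s t) : (cls s : FP E G H) = cls t :=
  Quotient.sound (s := std E G H) h

theorem exact {s t : Tm (G ⊕ H)} (h : (cls s : FP E G H) = cls t) : rel E G H s t :=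
  Quotient.exact (s := std E G H) h

instance : Mul (FP E G H) :=
  ⟨Quotient.map₂ Tm.mul fun _ _ h1 _ _ h2 K _ hK f g hf hg => by
    simp only [Tm.eval, h1 K hK f g hf hg, h2 K hK f g hf hg]⟩

instance : One (FP E G H) := ⟨cls .one⟩

instance : Inv (FP E G H) :=
  ⟨Quotient.map Tm.inv fun _ _ h1 K _ hK f g hf hg => by
    simp only [Tm.eval, h1 K hK f g hf hg]⟩

instance : Min (FP E G H) :=
  ⟨Quotient.map₂ Tm.inf fun _ _ h1 _ _ h2 K _ hK f g hf hg => by
    simp only [Tm.eval, h1 K hK f g hf hg, h2 K hK f g hf hg]⟩

instance : Max (FP E G H) :=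
  ⟨Quotient.map₂ Tm.sup fun _ _ h1 _ _ h2 K _ hK f g hf hg => by
    simp only [Tm.eval, h1 K hK f g hf hg, h2 K hK f g hf hg]⟩

theorem mul_cls (s t : Tm (G ⊕ H)) : (cls s * cls t : FP E G H) = cls (.mul s t) := rfl
theorem one_cls : (1 : FP E G H) = cls .one := rfl
theorem inv_cls (s : Tm (G ⊕ H)) : ((cls s)⁻¹ : FP E G H) = cls (.inv s) := rfl
theorem inf_cls (s t : Tm (G ⊕ H)) : (cls s ⊓ cls t : FP E G H) = cls (.inf s t) := rfl
theorem sup_cls (s t : Tm (G ⊕ H)) : (cls s ⊔ cls t : FP E G H) = cls (.sup s t) := rfl

theorem ind {p : FP E G H → Prop} (h : ∀ t, p (cls t)) (a : FP E G H) : p a := Quotient.ind h a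

instance : Group (FP E G H) where
  mul_assoc a b c := by
    induction a using ind with | _ a
    induction b using ind with | _ b
    induction c using ind with | _ c
    exact sound fun K _ hK f g hf hg => mul_assoc _ _ _
  one_mul a := by
    induction a using ind with | _ a
    exact sound fun K _ hK f g hf hg => one_mul _
  mul_one a := by
    induction a using ind with | _ a
    exact sound fun K _ hK f g hf hg => mul_one _
  inv_mul_cancel a := by
    induction a using ind with | _ a
    exact sound fun K _ hK f g hf hg => inv_mul_cancel _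

instance : Lattice (FP E G H) := Lattice.mk'
  (fun a b => by
    induction a using ind with | _ a
    induction b using ind with | _ b
    exact sound fun K _ hK f g hf hg => sup_comm _ _)
  (fun a b c => by
    induction a using ind with | _ a
    induction b using ind with | _ b
    induction c using ind with | _ c
    exact sound fun K _ hK f g hf hg => sup_assoc _ _ _)
  (fun a b => by
    induction a using ind with | _ a
    induction b using ind with | _ b
    exact sound fun K _ hK f g hf hg => inf_comm _ _)
  (fun a b c => by
    induction a using ind with | _ a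
    induction b using ind with | _ b
    induction c using ind with | _ c
    exact sound fun K _ hK f g hf hg => inf_assoc _ _ _)
  (fun a b => by
    induction a using ind with | _ a
    induction b using ind with | _ b
    exact sound fun K _ hK f g hf hg => sup_inf_self)
  (fun a b => by
    induction a using ind with | _ a
    induction b using ind with | _ b
    exact sound fun K _ hK f g hf hg => inf_sup_self)

theorem mul_sup_fp (a b c : FP E G H) : c * (a ⊔ b) = c * a ⊔ c * b := by
  induction a using ind with | _ a
  induction b using ind with | _ b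
  induction c using ind with | _ c
  exact sound fun K _ hK f g hf hg => mul_sup _ _ _

theorem sup_mul_fp (a b c : FP E G H) : (a ⊔ b) * c = a * c ⊔ b * c := by
  induction a using ind with | _ a
  induction b using ind with | _ b
  induction c using ind with | _ c
  exact sound fun K _ hK f g hf hg => sup_mul _ _ _

instance : LGrp (FP E G H) where
  mul_le_mul_l a b h c := by
    rw [← sup_eq_right] at h ⊢
    exact (mul_sup_fp a b c).symm.trans (congrArg (fun x => c * x) h)
  mul_le_mul_r a b h c := by
    rw [← sup_eq_right] at h ⊢
    exact (sup_mul_fp a b c).symm.trans (congrArg (fun x => x * c) h)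

/-- The homomorphism given by a pair of homomorphisms. -/
def desc {K : Type} [LGrp K] (hK : Models E K) {f : G → K} {g : H → K} (hf : IsLHom f)
    (hg : IsLHom g) : FP E G H → K :=
  Quotient.lift (fun t : Tm (G ⊕ H) => t.eval (Sum.elim f g)) fun _ _ h => h K hK f g hf hg

theorem desc_hom {K : Type} [LGrp K] (hK : Models E K) {f : G → K} {g : H → K} (hf : IsLHom f)
    (hg : IsLHom g) : IsLHom (desc hK hf hg : FP E G H → K) where
  map_mul a b := by
    induction a using ind with | _ a
    induction b using ind with | _ b
    rfl
  map_inf a b := by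
    induction a using ind with | _ a
    induction b using ind with | _ b
    rfl
  map_sup a b := by
    induction a using ind with | _ a
    induction b using ind with | _ b
    rfl

/-- Two classes with the same image under all homomorphisms are equal. -/
theorem ext_desc {a b : FP E G H} (h : ∀ (K : Type) [LGrp K] (hK : Models E K) (f : G → K)
    (g : H → K) (hf : IsLHom f) (hg : IsLHom g), desc hK hf hg a = desc hK hf hg b) : a = b := by
  induction a using ind with | _ a
  induction b using ind with | _ b
  exact sound fun K _ hK f g hf hg => h K hK f g hf hg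

theorem models_fp : Models E (FP E G H) := by
  intro p hp v
  apply ext_desc
  intro K _ hK f g hf hg
  rw [(desc_hom hK hf hg).eval, (desc_hom hK hf hg).eval]
  exact hK p hp _

theorem cls_eval (t : Tm (G ⊕ H)) : (cls t : FP E G H) = t.eval fun x => cls (.var x) := by
  induction t with
  | var x => rfl
  | one => rfl
  | mul s t hs ht => rw [Tm.eval, ← hs, ← ht]; rfl
  | inv s hs => rw [Tm.eval, ← hs]; rfl
  | inf s t hs ht => rw [Tm.eval, ← hs, ← ht]; rfl
  | sup s t hs ht => rw [Tm.eval, ← hs, ← ht]; rfl

theorem isFreeProd : IsFreeProd E (fun a : G => (cls (.var (Sum.inl a)) : FP E G H))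
    (fun b : H => (cls (.var (Sum.inr b)) : FP E G H)) where
  mem := models_fp
  hom_l := {
    map_mul := fun a b => sound fun K _ hK f g hf hg => hf.map_mul a b
    map_inf := fun a b => sound fun K _ hK f g hf hg => hf.map_inf a b
    map_sup := fun a b => sound fun K _ hK f g hf hg => hf.map_sup a b }
  hom_r := {
    map_mul := fun a b => sound fun K _ hK f g hf hg => hg.map_mul a b
    map_inf := fun a b => sound fun K _ hK f g hf hg => hg.map_inf a b
    map_sup := fun a b => sound fun K _ hK f g hf hg => hg.map_sup a b }
  univ := by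
    intro K _ hK f g hf hg
    refine ⟨desc hK hf hg, ⟨desc_hom hK hf hg, fun a => rfl, fun b => rfl⟩, ?_⟩
    rintro h ⟨h1, h2, h3⟩
    funext a
    induction a using ind with | _ t
    rw [cls_eval, h1.eval, (desc_hom hK hf hg).eval]
    congr 1
    funext x
    rcases x with x | x
    · exact h2 x
    · exact h3 x

end FreeP

theorem exists_freeProd (E : Set (Tm ℕ × Tm ℕ)) (G H : Type) [LGrp G] [LGrp H] :
    ∃ (P : Type) (_ : LGrp P) (i : G → P) (j : H → P), IsFreeProd E i j :=
  ⟨FreeP.FP E G H, inferInstance, _, _, FreeP.isFreeProd⟩

end LG39
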