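import Pool.Agent.LG39.Int

/-!
# The two `ℓ`-groups and the test words
-/

namespace LG39

open Nat.Partrec

/-- The program with number `n` halts on input `0` within `m` steps. -/
def HaltsIn (n m : ℕ) : Prop := (Code.evaln m (Denumerable.ofNat Code n) 0).isSome = true

/-- The index set: `(n, m, e)` with `n < m`, and `m = n + 1` or program `n` does not halt within
`m` steps. -/
def Pt : Type := {p : ℕ × ℕ × Bool // p.1 < p.2.1 ∧ (p.2.1 = p.1 + 1 ∨ ¬ HaltsIn p.1 p.2.1)}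

/-- The four generators `k`, `x`, `s`, `h`: at `(n, m, e)` they are `m`, `n m`, and `1, 0` or
`0, 1` for `s, h`. -/
def gx (i : ℕ) (p : Pt) : Zm :=
  Multiplicative.ofAdd (v4 (p.1.2.1, p.1.1 * p.1.2.1, (if p.1.2.2 then 0 else 1),
    (if p.1.2.2 then 1 else 0)) i)

/-- The `ℓ`-group `G`. -/
abbrev GG : Type := SubGen gx

/-- The generators of `G`. -/
abbrev gg : ℕ → GG := SubGen.gen gx

/-- The generators of `H`, the lexicographic product. -/
def hh : ℕ → Lex2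
  | 0 => lx 1 0
  | 1 => lx 0 1
  | _ => 1

/-- Powers. -/
def pw : ℕ → Tm ℕ → Tm ℕ
  | 0, _ => .one
  | n + 1, t => .mul (pw n t) t

/-- `(k |x k^(-n)|⁻¹) ⊔ 1`. -/
def kT (n : ℕ) : Tm ℕ :=
  .sup (.mul (.var 0) (.inv (.sup (.mul (.var 1) (.inv (pw n (.var 0))))
    (.inv (.mul (.var 1) (.inv (pw n (.var 0)))))))) .one

def sT (n : ℕ) : Tm ℕ := .inf (.var 2) (kT n)

def hT (n : ℕ) : Tm ℕ := .inf (.var 3) (kT n)

/-- The test word for normal-valued varieties: `(k a⁻¹ ⊓ b² (s h)⁻¹) ⊔ 1`. -/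
def wN (n : ℕ) : Tm ℕ :=
  .sup (.inf (.mul ((kT n).map (fun i => 2 * i)) (.inv (.var 1)))
    (.mul (.mul (.var 3) (.var 3))
      (.inv (.mul ((sT n).map (fun i => 2 * i)) ((hT n).map (fun i => 2 * i)))))) .one

/-- The test word for the other varieties: `(a ⊓ k a⁻¹ ⊓ s ⊓ a h a⁻¹) ⊔ 1`. -/
def wL (n : ℕ) : Tm ℕ :=
  .sup (.inf (.inf (.inf (.var 1) (.mul ((kT n).map (fun i => 2 * i)) (.inv (.var 1))))
    ((sT n).map (fun i => 2 * i)))
    (.mul (.mul (.var 1) ((hT n).map (fun i => 2 * i))) (.inv (.var 1)))) .one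

theorem haltsIn_mono {n m m' : ℕ} (h : m ≤ m') (hm : HaltsIn n m) : HaltsIn n m' := by
  unfold HaltsIn at hm ⊢
  obtain ⟨x, hx⟩ := Option.isSome_iff_exists.1 hm
  have h2 : x ∈ Code.evaln m' (Denumerable.ofNat Code n) 0 :=
    Code.evaln_mono h (Option.mem_def.2 hx)
  exact Option.isSome_iff_exists.2 ⟨x, Option.mem_def.1 h2⟩

theorem halts_iff (c : Code) : (Code.eval c 0).Dom ↔ ∃ m, HaltsIn (Encodable.encode c) m := by
  unfold HaltsIn
  rw [Part.dom_iff_mem]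
  constructor
  · rintro ⟨x, hx⟩
    obtain ⟨k, hk⟩ := Code.evaln_complete.1 hx
    refine ⟨k, ?_⟩
    rw [Denumerable.ofNat_encode]
    exact Option.isSome_iff_exists.2 ⟨x, Option.mem_def.1 hk⟩
  · rintro ⟨m, hm⟩
    rw [Denumerable.ofNat_encode] at hm
    obtain ⟨x, hx⟩ := Option.isSome_iff_exists.1 hm
    exact ⟨x, Code.evaln_sound (Option.mem_def.2 hx)⟩

end LG39
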