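import Pool.Agent.LG39.Conv
import Pool.Agent.LG39.Act

/-!
# A primitive nonregular action from a failure of the identity

`u = x y (y² x²)⁻¹ ⊔ 1 ≠ 1`; `P` maximal without `u` (prime), `e = y² x² (x y)⁻¹ ⊔ 1 ∈ P`.
`c = x ⊔ y ∉ P`; `Q ⊇ P` maximal without `c` (prime); `M = Q.adj c`, as a sub-`ℓ`-group of `T`.
`Δ` = right cosets of `Q` in `M`, i.e. the antisymmetrization of the total preorder
`g ≤ h :⟺ g h⁻¹ ⊔ 1 ∈ Q` on `M`, with `M` acting by right multiplication.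
Primitive: for a convex congruence `r` the set of `g ∈ M` with `r [1] [g]` is a convex
`ℓ`-subgroup containing `Q`, so it is `Q` or `M`.
Nonregular: otherwise `g Q g⁻¹ ⊆ Q` for all `1 ≤ g ∈ M`, hence (by maximality of `Q`)
`g Q g⁻¹ = Q` for all `g ∈ M`; modulo `Q` either `x ≤ f y` or `y ≤ f x`, and
`y² x² ≤ e x y` gives `x, y ∈ Q` as in the blueprint, a contradiction.
-/

namespace LG39

variable {T : Type} [LGrp T]

/-- A convex `ℓ`-subgroup as an `ℓ`-group. -/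
def Cvx.Sub (R : Cvx T) : Type := {g : T // g ∈ R.carrier}

instance Cvx.Sub.instLGrp (R : Cvx T) : LGrp R.Sub where
  mul a b := ⟨a.1 * b.1, R.mul_mem _ _ a.2 b.2⟩
  one := ⟨1, R.one_mem⟩
  inv a := ⟨a.1⁻¹, R.inv_mem _ a.2⟩
  mul_assoc a b c := Subtype.ext (mul_assoc _ _ _)
  one_mul a := Subtype.ext (one_mul _)
  mul_one a := Subtype.ext (mul_one _)
  inv_mul_cancel a := Subtype.ext (inv_mul_cancel _)
  le a b := a.1 ≤ b.1
  le_refl a := le_refl a.1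
  le_trans a b c h1 h2 := le_trans (b := b.1) h1 h2
  le_antisymm a b h1 h2 := Subtype.ext (le_antisymm h1 h2)
  inf a b := ⟨a.1 ⊓ b.1, R.inf_mem a.2 b.2⟩
  sup a b := ⟨a.1 ⊔ b.1, R.sup_mem a.2 b.2⟩
  le_sup_left a b := le_sup_left (a := a.1)
  le_sup_right a b := le_sup_right (a := a.1)
  sup_le a b c h1 h2 := sup_le (a := a.1) h1 h2
  inf_le_left a b := inf_le_left (a := a.1)
  inf_le_right a b := inf_le_right (a := a.1)
  le_inf a b c h1 h2 := by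
    show a.1 ≤ b.1 ⊓ c.1
    exact _root_.le_inf h1 h2
  mul_le_mul_l a b h c := LGrp.mul_le_mul_l a.1 b.1 h c.1
  mul_le_mul_r a b h c := LGrp.mul_le_mul_r a.1 b.1 h c.1

theorem Cvx.Sub.incl_hom (R : Cvx T) : IsLHom (fun a : R.Sub => a.1) where
  map_mul _ _ := rfl
  map_inf _ _ := rfl
  map_sup _ _ := rfl

section order
variable (Q : Cvx T)

theorem ord_refl (g : T) : g * g⁻¹ ⊔ 1 ∈ Q.carrier := by
  simpa using Q.one_mem

theorem ord_trans {g h k : T} (h1 : g * h⁻¹ ⊔ 1 ∈ Q.carrier) (h2 : h * k⁻¹ ⊔ 1 ∈ Q.carrier) :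
    g * k⁻¹ ⊔ 1 ∈ Q.carrier := by
  refine Q.conv (Q.mul_mem _ _ h1 h2) le_sup_right (sup_le ?_ ?_)
  · calc g * k⁻¹ = (g * h⁻¹) * (h * k⁻¹) := by group
      _ ≤ (g * h⁻¹ ⊔ 1) * (h * k⁻¹ ⊔ 1) := mul_le_mul' le_sup_left le_sup_left
  · exact one_le_mul le_sup_right le_sup_right

theorem ord_mono {g h : T} (h1 : g ≤ h) : g * h⁻¹ ⊔ 1 ∈ Q.carrier := by
  have : g * h⁻¹ ≤ 1 := by
    calc g * h⁻¹ ≤ h * h⁻¹ := mul_le_mul_left h1 _
      _ = 1 := mul_inv_cancel h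
  rw [sup_eq_right.2 this]
  exact Q.one_mem

theorem ord_sup {g h : T} (h1 : g * h⁻¹ ⊔ 1 ∈ Q.carrier) : (g ⊔ h) * h⁻¹ ⊔ 1 ∈ Q.carrier := by
  have : (g ⊔ h) * h⁻¹ ≤ g * h⁻¹ ⊔ 1 := by
    rw [mul_inv_le_iff_le_mul]
    refine sup_le ?_ ?_
    · calc g = g * h⁻¹ * h := by group
        _ ≤ (g * h⁻¹ ⊔ 1) * h := mul_le_mul_left le_sup_left _
    · calc h = 1 * h := (one_mul h).symm
        _ ≤ (g * h⁻¹ ⊔ 1) * h := mul_le_mul_left le_sup_right _
  exact Q.conv h1 le_sup_right (sup_le this le_sup_right)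

theorem ord_inf {g h : T} (h1 : g * h⁻¹ ⊔ 1 ∈ Q.carrier) : g * (g ⊓ h)⁻¹ ⊔ 1 ∈ Q.carrier := by
  have : g * (g ⊓ h)⁻¹ ≤ g * h⁻¹ ⊔ 1 := by
    rw [mul_inv_le_iff_le_mul]
    have h2 : (g * h⁻¹ ⊔ 1)⁻¹ * g ≤ g ⊓ h := by
      refine _root_.le_inf ?_ ?_
      · calc (g * h⁻¹ ⊔ 1)⁻¹ * g ≤ 1 * g := by
              refine mul_le_mul_left ?_ _
              exact Left.inv_le_one_iff.2 le_sup_right
          _ = g := one_mul g
      · calc (g * h⁻¹ ⊔ 1)⁻¹ * g ≤ (g * h⁻¹)⁻¹ * g := by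
              refine mul_le_mul_left ?_ _
              exact inv_le_inv_iff.2 le_sup_left
          _ = h := by group
    calc g = (g * h⁻¹ ⊔ 1) * ((g * h⁻¹ ⊔ 1)⁻¹ * g) := by group
      _ ≤ (g * h⁻¹ ⊔ 1) * (g ⊓ h) := mul_le_mul_right h2 _
  exact Q.conv h1 le_sup_right (sup_le this le_sup_right)

theorem mem_of_pos_neg {z : T} (h1 : z ⊔ 1 ∈ Q.carrier) (h2 : z⁻¹ ⊔ 1 ∈ Q.carrier) :
    z ∈ Q.carrier := by
  rw [← Q.ab_mem]
  refine Q.conv (Q.mul_mem _ _ h1 h2) (one_le_ab z) (sup_le ?_ ?_)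
  · calc z = z * 1 := (mul_one z).symm
      _ ≤ (z ⊔ 1) * (z⁻¹ ⊔ 1) := mul_le_mul' le_sup_left le_sup_right
  · calc z⁻¹ = 1 * z⁻¹ := (one_mul _).symm
      _ ≤ (z ⊔ 1) * (z⁻¹ ⊔ 1) := mul_le_mul' le_sup_right le_sup_left

end order

/-- The chain of a total preorder. -/
theorem chain_of {α : Type} (r : α → α → Prop) (h1 : ∀ a, r a a)
    (h2 : ∀ a b c, r a b → r b c → r a c) (h3 : ∀ a b, r a b ∨ r b a) :
    ∃ (Δ : Type) (_ : LinearOrder Δ) (π : α → Δ), Function.Surjective π ∧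
      ∀ a b, π a ≤ π b ↔ r a b := by
  classical
  letI pre : Preorder α :=
    { le := r
      lt := fun a b => r a b ∧ ¬ r b a
      le_refl := h1
      le_trans := h2
      lt_iff_le_not_ge := fun a b => Iff.rfl }
  letI po : PartialOrder (Antisymmetrization α (· ≤ ·)) := inferInstance
  letI lo : LinearOrder (Antisymmetrization α (· ≤ ·)) :=
    { po with
      le_total := fun a b => by
        induction a using Antisymmetrization.ind with
        | _ a =>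
          induction b using Antisymmetrization.ind with
          | _ b => exact h3 a b
      toDecidableLE := Classical.decRel _
      toDecidableEq := Classical.decEq _
      toDecidableLT := Classical.decRel _ }
  exact ⟨Antisymmetrization α (· ≤ ·), lo, toAntisymmetrization (· ≤ ·),
    Quotient.mk_surjective, fun a b => Iff.rfl⟩

/-- The chain of right cosets. -/
theorem cosets (Q R : Cvx T)
    (hp : ∀ s t : T, s ⊓ t = 1 → s ∈ Q.carrier ∨ t ∈ Q.carrier) :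
    ∃ (Δ : Type) (_ : LinearOrder Δ) (A : Act R.Sub Δ) (π : R.Sub → Δ),
      Function.Surjective π ∧ (∀ g h, A.act (π g) h = π (g * h)) ∧
      (∀ g h : R.Sub, π g ≤ π h ↔ g.1 * h.1⁻¹ ⊔ 1 ∈ Q.carrier) := by
  obtain ⟨Δ, lo, π, hs, hle⟩ := chain_of
    (fun g h : R.Sub => g.1 * h.1⁻¹ ⊔ 1 ∈ Q.carrier)
    (fun g => ord_refl Q g.1) (fun g h k h1 h2 => ord_trans Q h1 h2) (by
      intro g h
      refine hp _ _ ?_
      have := pos_neg_disj (g.1 * h.1⁻¹)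
      rwa [show (g.1 * h.1⁻¹)⁻¹ = h.1 * g.1⁻¹ by group] at this)
  choose σ hσ using hs
  have inv : ∀ g h k : R.Sub, π g ≤ π h ↔ π (g * k) ≤ π (h * k) := by
    intro g h k
    rw [hle, hle]
    have : (g * k).1 * ((h * k).1)⁻¹ = g.1 * h.1⁻¹ := by
      show g.1 * k.1 * (h.1 * k.1)⁻¹ = g.1 * h.1⁻¹
      group
    rw [this]
  have hact : ∀ g h, π (σ (π g) * h) = π (g * h) := by
    intro g h
    apply le_antisymm
    · exact (inv _ _ h).1 (hσ (π g)).le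
    · exact (inv _ _ h).1 (hσ (π g)).ge
  have mono : ∀ g h : R.Sub, g ≤ h → π g ≤ π h := fun g h h1 => (hle g h).2 (ord_mono Q h1)
  have hsup : ∀ g h : R.Sub, π (g ⊔ h) = max (π g) (π h) := by
    intro g h
    apply le_antisymm
    · rcases le_total (π g) (π h) with h1 | h1
      · rw [max_eq_right h1, hle]
        exact ord_sup Q ((hle _ _).1 h1)
      · rw [max_eq_left h1, hle, sup_comm g h]
        exact ord_sup Q ((hle _ _).1 h1)
    · exact max_le (mono _ _ le_sup_left) (mono _ _ le_sup_right)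
  have hinf : ∀ g h : R.Sub, π (g ⊓ h) = min (π g) (π h) := by
    intro g h
    apply le_antisymm
    · exact le_min (mono _ _ inf_le_left) (mono _ _ inf_le_right)
    · rcases le_total (π g) (π h) with h1 | h1
      · rw [min_eq_left h1, hle]
        exact ord_inf Q ((hle _ _).1 h1)
      · rw [min_eq_right h1, hle, inf_comm g h]
        exact ord_inf Q ((hle _ _).1 h1)
  refine ⟨Δ, lo, ⟨fun x h => π (σ x * h), ?_, ?_, ?_, ?_, ?_⟩, π, fun x => ⟨σ x, hσ x⟩, hact,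
    hle⟩
  · intro x
    simp only [mul_one, hσ]
  · intro x g h
    rw [hact, mul_assoc]
  · intro x y g hxy
    rw [← not_le] at hxy ⊢
    intro h1
    apply hxy
    have := (inv (σ y) (σ x) g).2 h1
    rwa [hσ, hσ] at this
  · intro x g h
    rw [← hsup]
    congr 1
    exact mul_sup _ _ _
  · intro x g h
    rw [← hinf]
    congr 1
    exact mul_inf _ _ _

/-- `adj` is the smallest convex `ℓ`-subgroup containing `Q` and `c`. -/
theorem adj_le (Q S : Cvx T) (c : T) (hc : 1 ≤ c) (h : Q.carrier ⊆ S.carrier)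
    (hcS : c ∈ S.carrier) : (Q.adj c hc).carrier ⊆ S.carrier := by
  rintro z ⟨r, hr, h1, K, hK⟩
  rw [← S.ab_mem]
  exact S.conv (S.pow_mem (S.mul_mem _ _ (h hr) hcS) K) (one_le_ab z) hK

theorem prim_of {Δ : Type} [LinearOrder Δ] (Q R : Cvx T) (hQR : Q.carrier ⊆ R.carrier)
    (hmax : ∀ S : Cvx T, Q.carrier ⊆ S.carrier → S.carrier ⊆ Q.carrier ∨ R.carrier ⊆ S.carrier)
    (A : Act R.Sub Δ) (π : R.Sub → Δ) (hs : Function.Surjective π)
    (hact : ∀ g h, A.act (π g) h = π (g * h))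
    (hle : ∀ g h : R.Sub, π g ≤ π h ↔ g.1 * h.1⁻¹ ⊔ 1 ∈ Q.carrier) : A.Prim := by
  intro r hr hinv hconv hne
  have hmono : ∀ g h : R.Sub, g ≤ h → π g ≤ π h := fun g h h1 => (hle g h).2 (ord_mono Q h1)
  have hinv' : ∀ g h k : R.Sub, r (π g) (π h) → r (π (g * k)) (π (h * k)) := by
    intro g h k h1
    have := hinv _ _ k h1
    rwa [hact, hact] at this
  have hinvm : ∀ g : R.Sub, r (π 1) (π g) → r (π 1) (π g⁻¹) := by
    intro g h1
    have := hinv' _ _ g⁻¹ h1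
    rw [one_mul, mul_inv_cancel] at this
    exact hr.symm this
  let K : Cvx T :=
    { carrier := {z | ∃ hz : z ∈ R.carrier, r (π 1) (π ⟨z, hz⟩)}
      one_mem := ⟨R.one_mem, hr.refl _⟩
      mul_mem := by
        rintro a b ⟨ha, h1⟩ ⟨hb, h2⟩
        refine ⟨R.mul_mem _ _ ha hb, ?_⟩
        have := hinv' _ _ (⟨b, hb⟩ : R.Sub) h1
        rw [one_mul] at this
        exact hr.trans h2 this
      inv_mem := by
        rintro a ⟨ha, h1⟩
        exact ⟨R.inv_mem _ ha, hinvm _ h1⟩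
      solid := by
        rintro a z ⟨ha, h1⟩ hz
        have hzR : z ∈ R.carrier := R.solid a z ha hz
        refine ⟨hzR, ?_⟩
        let a' : R.Sub := ⟨a, ha⟩
        let z' : R.Sub := ⟨z, hzR⟩
        have h2 : r (π 1) (π (a' ⊔ a'⁻¹)) := by
          have h3 := A.act_sup (π 1) a' a'⁻¹
          rw [hact, hact, hact, one_mul, one_mul, one_mul] at h3
          rw [h3]
          rcases max_choice (π a') (π a'⁻¹) with h4 | h4
          · rw [h4]; exact h1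
          · rw [h4]; exact hinvm _ h1
        have h3 : z' ≤ a' ⊔ a'⁻¹ := by
          show z ≤ a ⊔ a⁻¹
          exact le_trans (le_sup_left : z ≤ ab z) hz
        have h4 : (a' ⊔ a'⁻¹)⁻¹ ≤ z' := by
          show (ab a)⁻¹ ≤ z
          rw [inv_le']
          exact le_trans (le_sup_right : z⁻¹ ≤ ab z) hz
        have h5 := hinvm _ h2
        have h6 := hconv _ _ _ (hmono _ _ h4) (hmono _ _ h3) (hr.trans (hr.symm h5) h2)
        exact hr.trans h5 h6 }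
  have hQK : Q.carrier ⊆ K.carrier := by
    intro q hq
    refine ⟨hQR hq, ?_⟩
    have h1 : π 1 = π ⟨q, hQR hq⟩ := by
      apply le_antisymm
      · rw [hle]
        show 1 * q⁻¹ ⊔ 1 ∈ Q.carrier
        rw [one_mul]
        exact Q.sup_mem (Q.inv_mem _ hq) Q.one_mem
      · rw [hle]
        show q * 1⁻¹ ⊔ 1 ∈ Q.carrier
        rw [inv_one, mul_one]
        exact Q.sup_mem hq Q.one_mem
    rw [← h1]
    exact hr.refl _
  rcases hmax K hQK with h | h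
  · exfalso
    obtain ⟨x, y, hxy, h1⟩ := hne
    obtain ⟨g, rfl⟩ := hs x
    obtain ⟨k, rfl⟩ := hs y
    have h2 := hinv' _ _ g⁻¹ h1
    rw [mul_inv_cancel] at h2
    have h3 : k.1 * g.1⁻¹ ∈ Q.carrier := h ⟨(k * g⁻¹).2, h2⟩
    apply hxy
    apply le_antisymm
    · rw [hle]
      have h4 := Q.inv_mem _ h3
      rw [mul_inv_rev, inv_inv] at h4
      exact Q.sup_mem h4 Q.one_mem
    · rw [hle]
      exact Q.sup_mem h3 Q.one_mem
  · intro x y
    obtain ⟨g, rfl⟩ := hs x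
    obtain ⟨k, rfl⟩ := hs y
    obtain ⟨_, h1⟩ := h g.2
    obtain ⟨_, h2⟩ := h k.2
    exact hr.trans (hr.symm h1) h2

theorem ab_conj (g b : T) : ab (g * b * g⁻¹) = g * ab b * g⁻¹ := by
  show g * b * g⁻¹ ⊔ (g * b * g⁻¹)⁻¹ = g * (b ⊔ b⁻¹) * g⁻¹
  rw [mul_sup, sup_mul]
  congr 1
  group

theorem nonreg_of {Δ : Type} [LinearOrder Δ] (Q R : Cvx T) (hQR : Q.carrier ⊆ R.carrier)
    (hmax : ∀ S : Cvx T, Q.carrier ⊆ S.carrier → S.carrier ⊆ Q.carrier ∨ R.carrier ⊆ S.carrier)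
    (hp : ∀ s t : T, s ⊓ t = 1 → s ∈ Q.carrier ∨ t ∈ Q.carrier)
    (A : Act R.Sub Δ) (π : R.Sub → Δ)
    (hact : ∀ g h, A.act (π g) h = π (g * h))
    (hle : ∀ g h : R.Sub, π g ≤ π h ↔ g.1 * h.1⁻¹ ⊔ 1 ∈ Q.carrier)
    (x y e : T) (hx : 1 ≤ x) (hy : 1 ≤ y) (hxR : x ∈ R.carrier) (hyR : y ∈ R.carrier)
    (he : e ∈ Q.carrier) (h : y ^ 2 * x ^ 2 ≤ e * (x * y))
    (hc : ¬ (x ∈ Q.carrier ∧ y ∈ Q.carrier)) : A.Nonreg := by
  by_contra hcon
  have n1 : ∀ g ∈ R.carrier, 1 ≤ g → ∀ q ∈ Q.carrier, g * q * g⁻¹ ∈ Q.carrier := by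
    intro g hg hg1 q hq
    by_contra hgq
    apply hcon
    have hgQ : g ∉ Q.carrier := fun h1 =>
      hgq (Q.mul_mem _ _ (Q.mul_mem _ _ h1 hq) (Q.inv_mem _ h1))
    let g' : R.Sub := ⟨g, hg⟩
    let q' : R.Sub := ⟨q, hQR hq⟩
    refine ⟨π 1, π g', q', ?_, ?_, ?_⟩
    · rw [← not_le, hle]
      show ¬ (g * 1⁻¹ ⊔ 1 ∈ Q.carrier)
      rw [inv_one, mul_one, sup_eq_left.2 hg1]
      exact hgQ
    · rw [hact, one_mul]
      apply le_antisymm
      · rw [hle]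
        show q * 1⁻¹ ⊔ 1 ∈ Q.carrier
        rw [inv_one, mul_one]
        exact Q.sup_mem hq Q.one_mem
      · rw [hle]
        show 1 * q⁻¹ ⊔ 1 ∈ Q.carrier
        rw [one_mul]
        exact Q.sup_mem (Q.inv_mem _ hq) Q.one_mem
    · rw [hact]
      intro h1
      apply hgq
      apply mem_of_pos_neg Q
      · have h2 : π (g' * q') ≤ π g' := h1.le
        rw [hle] at h2
        exact h2
      · have h2 : π g' ≤ π (g' * q') := h1.ge
        rw [hle] at h2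
        have h3 : (g * q * g⁻¹)⁻¹ = g * (g * q)⁻¹ := by group
        rw [h3]
        exact h2
  have n2 : ∀ g ∈ R.carrier, 1 ≤ g → ∀ q ∈ Q.carrier, g⁻¹ * q * g ∈ Q.carrier := by
    intro g hg hg1 q hq
    let S : Cvx T :=
      { carrier := {k | g * k * g⁻¹ ∈ Q.carrier}
        one_mem := by
          show g * 1 * g⁻¹ ∈ Q.carrier
          simpa using Q.one_mem
        mul_mem := by
          intro a b ha hb
          show g * (a * b) * g⁻¹ ∈ Q.carrier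
          have : g * (a * b) * g⁻¹ = (g * a * g⁻¹) * (g * b * g⁻¹) := by group
          rw [this]
          exact Q.mul_mem _ _ ha hb
        inv_mem := by
          intro a ha
          show g * a⁻¹ * g⁻¹ ∈ Q.carrier
          have : g * a⁻¹ * g⁻¹ = (g * a * g⁻¹)⁻¹ := by group
          rw [this]
          exact Q.inv_mem _ ha
        solid := by
          intro a b ha hb
          refine Q.solid _ _ ha ?_
          rw [ab_conj, ab_conj]
          exact mul_le_mul_left (mul_le_mul_right hb g) g⁻¹ }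
    rcases hmax S (fun q hq => n1 g hg hg1 q hq) with h1 | h1
    · apply h1
      show g * (g⁻¹ * q * g) * g⁻¹ ∈ Q.carrier
      have : g * (g⁻¹ * q * g) * g⁻¹ = q := by group
      rw [this]
      exact hq
    · exfalso
      have h2 : ∀ k ∈ R.carrier, k ∈ Q.carrier := by
        intro k hk
        have h3 := h1 (R.mul_mem _ _ (R.mul_mem _ _ (R.inv_mem _ hg) hk) hg)
        have h4 : g * (g⁻¹ * k * g) * g⁻¹ = k := by group
        have h5 : g * (g⁻¹ * k * g) * g⁻¹ ∈ Q.carrier := h3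
        rwa [h4] at h5
      exact hc ⟨h2 x hxR, h2 y hyR⟩
  have sq : ∀ z : T, 1 ≤ z → z ^ 2 ∈ Q.carrier → z ∈ Q.carrier := by
    intro z hz h1
    refine Q.conv h1 hz ?_
    calc z = z * 1 := (mul_one z).symm
      _ ≤ z * z := mul_le_mul_right hz z
      _ = z ^ 2 := (sq z).symm
  apply hc
  rcases hp _ _ (pos_neg_disj (y * x⁻¹)) with hf | hf
  · set f := y * x⁻¹ ⊔ 1 with hfd
    have hyf : y ≤ f * x := by
      calc y = y * x⁻¹ * x := by group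
        _ ≤ f * x := mul_le_mul_left le_sup_left _
    have h1 : y ^ 2 * x ^ 2 ≤ e * (x * f * x⁻¹) * x ^ 2 := by
      calc y ^ 2 * x ^ 2 ≤ e * (x * y) := h
        _ ≤ e * (x * (f * x)) := mul_le_mul_right (mul_le_mul_right hyf x) e
        _ = e * (x * f * x⁻¹) * x ^ 2 := by group
    have h2 : y ^ 2 ≤ e * (x * f * x⁻¹) := le_of_mul_le_mul_right' h1
    have hyQ : y ∈ Q.carrier := by
      apply sq y hy
      exact Q.conv (Q.mul_mem _ _ he (n1 x hxR hx f hf)) (one_le_pow_of_one_le' hy 2) h2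
    refine ⟨?_, hyQ⟩
    have h3 : y ^ 2 * x * x ≤ e * (x * y * x⁻¹) * x := by
      calc y ^ 2 * x * x = y ^ 2 * x ^ 2 := by rw [pow_two x, mul_assoc]
        _ ≤ e * (x * y) := h
        _ = e * (x * y * x⁻¹) * x := by group
    have h4 : y ^ 2 * x ≤ e * (x * y * x⁻¹) := le_of_mul_le_mul_right' h3
    have h5 : x ≤ (y ^ 2)⁻¹ * (e * (x * y * x⁻¹)) := by
      calc x = (y ^ 2)⁻¹ * (y ^ 2 * x) := by group
        _ ≤ (y ^ 2)⁻¹ * (e * (x * y * x⁻¹)) := mul_le_mul_right h4 _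
    exact Q.conv (Q.mul_mem _ _ (Q.inv_mem _ (Q.pow_mem hyQ 2))
      (Q.mul_mem _ _ he (n1 x hxR hx y hyQ))) hx h5
  · have hf' : x * y⁻¹ ⊔ 1 ∈ Q.carrier := by
      rwa [show (y * x⁻¹)⁻¹ = x * y⁻¹ by group] at hf
    set f := x * y⁻¹ ⊔ 1 with hfd
    have hxf : x ≤ f * y := by
      calc x = x * y⁻¹ * y := by group
        _ ≤ f * y := mul_le_mul_left le_sup_left _
    have h1 : x ^ 2 ≤ (y ^ 2)⁻¹ * (e * f) * y ^ 2 := by
      calc x ^ 2 = (y ^ 2)⁻¹ * (y ^ 2 * x ^ 2) := by group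
        _ ≤ (y ^ 2)⁻¹ * (e * (x * y)) := mul_le_mul_right h _
        _ ≤ (y ^ 2)⁻¹ * (e * ((f * y) * y)) :=
            mul_le_mul_right (mul_le_mul_right (mul_le_mul_left hxf y) e) _
        _ = (y ^ 2)⁻¹ * (e * f) * y ^ 2 := by simp only [pow_two, mul_assoc]
    have hxQ : x ∈ Q.carrier := by
      apply sq x hx
      exact Q.conv (n2 (y ^ 2) (R.pow_mem hyR 2) (one_le_pow_of_one_le' hy 2) _
        (Q.mul_mem _ _ he hf')) (one_le_pow_of_one_le' hx 2) h1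
    refine ⟨hxQ, ?_⟩
    have h3 : y * y ≤ e * x * (y * (x ^ 2)⁻¹ * y⁻¹) * y := by
      calc y * y = y ^ 2 * x ^ 2 * (x ^ 2)⁻¹ := by rw [mul_inv_cancel_right, pow_two]
        _ ≤ e * (x * y) * (x ^ 2)⁻¹ := mul_le_mul_left h _
        _ = e * x * (y * (x ^ 2)⁻¹ * y⁻¹) * y := by group
    have h4 : y ≤ e * x * (y * (x ^ 2)⁻¹ * y⁻¹) := le_of_mul_le_mul_right' h3
    exact Q.conv (Q.mul_mem _ _ (Q.mul_mem _ _ he hxQ)
      (n1 y hyR hy _ (Q.inv_mem _ (Q.pow_mem hxQ 2)))) hy h4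

theorem exists_act {T : Type} [LGrp T] (x y : T) (hx : 1 ≤ x) (hy : 1 ≤ y)
    (hxy : ¬ x * y ≤ y ^ 2 * x ^ 2) :
    ∃ (M : Type) (_ : LGrp M) (ι : M → T) (Δ : Type) (_ : LinearOrder Δ) (A : Act M Δ),
      IsLHom ι ∧ Function.Injective ι ∧ A.Trans ∧ A.Prim ∧ A.Nonreg := by
  have hu : x * y * (y ^ 2 * x ^ 2)⁻¹ ⊔ 1 ∉ (Cvx.bot T).carrier := by
    intro h1
    have h2 : x * y * (y ^ 2 * x ^ 2)⁻¹ ⊔ 1 = 1 := h1
    apply hxy
    have h3 : x * y * (y ^ 2 * x ^ 2)⁻¹ ≤ 1 := by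
      rw [← h2]
      exact le_sup_left
    calc x * y = x * y * (y ^ 2 * x ^ 2)⁻¹ * (y ^ 2 * x ^ 2) := by group
      _ ≤ 1 * (y ^ 2 * x ^ 2) := mul_le_mul_left h3 _
      _ = y ^ 2 * x ^ 2 := one_mul _
  obtain ⟨P, _, huP, hPmax⟩ := (Cvx.bot T).exists_max _ hu
  have he : y ^ 2 * x ^ 2 * (x * y)⁻¹ ⊔ 1 ∈ P.carrier := by
    rcases P.prime_of_max _ huP hPmax _ _ (pos_neg_disj (x * y * (y ^ 2 * x ^ 2)⁻¹)) with h1 | h1
    · exact absurd h1 huP
    · rwa [show (x * y * (y ^ 2 * x ^ 2)⁻¹)⁻¹ = y ^ 2 * x ^ 2 * (x * y)⁻¹ by group] at h1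
  have hcP : x ⊔ y ∉ P.carrier := by
    intro h1
    have hxP := P.conv h1 hx le_sup_left
    have hyP := P.conv h1 hy le_sup_right
    apply huP
    exact P.sup_mem (P.mul_mem _ _ (P.mul_mem _ _ hxP hyP)
      (P.inv_mem _ (P.mul_mem _ _ (P.pow_mem hyP 2) (P.pow_mem hxP 2)))) P.one_mem
  obtain ⟨Q, hPQ, hcQ, hQmax⟩ := P.exists_max _ hcP
  have hc1 : 1 ≤ x ⊔ y := le_trans hx le_sup_left
  have hp := Q.prime_of_max _ hcQ hQmax
  have hmax : ∀ S : Cvx T, Q.carrier ⊆ S.carrier →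
      S.carrier ⊆ Q.carrier ∨ (Q.adj (x ⊔ y) hc1).carrier ⊆ S.carrier := by
    intro S hS
    by_cases h1 : x ⊔ y ∈ S.carrier
    · exact Or.inr (adj_le Q S _ hc1 hS h1)
    · exact Or.inl (hQmax S hS h1)
  have hQR := Q.le_adj (x ⊔ y) hc1
  have hcR := Q.mem_adj (x ⊔ y) hc1
  obtain ⟨Δ, lo, A, π, hs, hact, hle⟩ := cosets Q (Q.adj (x ⊔ y) hc1) hp
  refine ⟨(Q.adj (x ⊔ y) hc1).Sub, inferInstance, fun a => a.1, Δ, lo, A,
    Cvx.Sub.incl_hom _, Subtype.val_injective, ?_, prim_of Q _ hQR hmax A π hs hact hle, ?_⟩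
  · intro a b
    obtain ⟨g, rfl⟩ := hs a
    obtain ⟨k, rfl⟩ := hs b
    refine ⟨g⁻¹ * k, ?_⟩
    rw [hact, mul_inv_cancel_left]
  · refine nonreg_of Q _ hQR hmax hp A π hact hle x y _ hx hy
      (Cvx.conv _ hcR hx le_sup_left) (Cvx.conv _ hcR hy le_sup_right) (hPQ he) ?_ ?_
    · calc y ^ 2 * x ^ 2 = y ^ 2 * x ^ 2 * (x * y)⁻¹ * (x * y) := by group
        _ ≤ (y ^ 2 * x ^ 2 * (x * y)⁻¹ ⊔ 1) * (x * y) := mul_le_mul_left le_sup_left _
    · rintro ⟨h1, h2⟩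
      exact hcQ (Q.sup_mem h1 h2)

end LG39
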