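import Pool.Agent.LG39.Act

/-!
# Homogeneous sequences

Write `(a,b) ≼ (a',b')` (for `a < b`, `a' < b'`) if `a' ≤ a g` and `b g ≤ b'` for some `g`.
1. total; 2. `≼` and `≽` imply same orbit: with `a k₁ = a'`, `b k₂ = b'`, `g`, `h` one takes
`(k₂ ∨ (k₁ ∧ g)) ∧ (k₁ ∨ h)`; 3. monotone under inclusion of intervals; 4. for a fixed pair `c`
every `x < y` is joined by a finite chain `x = x₀ < x₁ < … < x_n = y` with `(x_i, x_{i+1}) ≼ c`
(primitivity applied to the relation joined by such chains).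
Let `x < y` with the stabilizer of `x` moving `y`, `O` the orbit of `y` under this stabilizer.
Claim: for every pair `c` strictly below `(x, y)` and `β < γ` in `O` we have `(β, γ) ≼ c`: take a
chain from `x` to `γ` with the minimal number `n` of steps `≼ c`; `n` is the same for all `γ` in
`O`; so the last point `z` before `γ` is not in `O`, and it is not in `[β, γ)` because `O` is
convex (all pairs `(x, δ)`, `δ ∈ [β, γ]`, are in the orbit of `(x, y)` by 2 and 3). So `z < β`.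
Hence all pairs in `O` lie in the same orbit of pairs: for pairs `p`, `q` in `O` either `p` is
equivalent to `(x,y)`, then `q ≽ p` or `q ≺ (x,y)`..., see the blueprint. Finally
`γ i = y e^i` with `e` in the stabilizer of `x`, `y e > y`.
-/

namespace LG39

namespace Act
variable {M Δ : Type} [LGrp M] [LinearOrder Δ] (A : Act M Δ)

theorem h2_le {x y : Δ} (g : M) (h : x ≤ y) : A.act x g ≤ A.act y g := by
  rcases h.lt_or_eq with h | h
  · exact (A.act_lt _ _ g h).le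
  · rw [h]

theorem h2_inv (x : Δ) (g : M) : A.act (A.act x g) g⁻¹ = x := by
  rw [← A.act_mul, mul_inv_cancel, A.act_one]

theorem h2_inv' (x : Δ) (g : M) : A.act (A.act x g⁻¹) g = x := by
  rw [← A.act_mul, inv_mul_cancel, A.act_one]

/-- The preorder of pairs. -/
def Pl (a b a' b' : Δ) : Prop := ∃ g, a' ≤ A.act a g ∧ A.act b g ≤ b'

variable {A}

theorem Pl.trans {a b a' b' a'' b'' : Δ} (h1 : A.Pl a b a' b') (h2 : A.Pl a' b' a'' b'') :
    A.Pl a b a'' b'' := by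
  obtain ⟨g, hg1, hg2⟩ := h1
  obtain ⟨h, hh1, hh2⟩ := h2
  refine ⟨g * h, ?_, ?_⟩
  · rw [A.act_mul]; exact hh1.trans (A.h2_le h hg1)
  · rw [A.act_mul]; exact (A.h2_le h hg2).trans hh2

theorem Pl.incl {a b a' b' : Δ} (h1 : a' ≤ a) (h2 : b ≤ b') : A.Pl a b a' b' :=
  ⟨1, by rw [A.act_one]; exact h1, by rw [A.act_one]; exact h2⟩

theorem Pl.total (ht : A.Trans) (a b a' b' : Δ) : A.Pl a b a' b' ∨ A.Pl a' b' a b := by
  obtain ⟨g, hg⟩ := ht a a'
  rcases le_total (A.act b g) b' with h | h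
  · exact Or.inl ⟨g, hg.ge, h⟩
  · right
    refine ⟨g⁻¹, ?_, ?_⟩
    · rw [← hg, A.h2_inv]
    · have := A.h2_le g⁻¹ h
      rwa [A.h2_inv] at this

theorem Pl.orbit (ht : A.Trans) {a b a' b' : Δ} (h1 : A.Pl a b a' b') (h2 : A.Pl a' b' a b) :
    ∃ k, A.act a k = a' ∧ A.act b k = b' := by
  obtain ⟨g, hg1, hg2⟩ := h1
  obtain ⟨h0, hh1, hh2⟩ := h2
  obtain ⟨k1, hk1⟩ := ht a a'
  obtain ⟨k2, hk2⟩ := ht b b'
  have e1 : A.act a h0⁻¹ ≤ a' := by
    have := A.h2_le h0⁻¹ hh1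
    rwa [A.h2_inv] at this
  have e2 : b' ≤ A.act b h0⁻¹ := by
    have := A.h2_le h0⁻¹ hh2
    rwa [A.h2_inv] at this
  refine ⟨(k2 ⊔ (k1 ⊓ g)) ⊓ (k1 ⊔ h0⁻¹), ?_, ?_⟩
  · rw [A.act_inf, A.act_sup, A.act_sup, A.act_inf, hk1, min_eq_left hg1, max_eq_left e1]
    exact min_eq_right (le_max_right _ _)
  · rw [A.act_inf, A.act_sup, A.act_sup, A.act_inf, hk2,
      max_eq_left ((min_le_right _ _).trans hg2)]
    exact min_eq_left (e2.trans (le_max_right _ _))

variable (A)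

/-- Chains with steps below the pair `(c1, c2)`. -/
inductive Ch (c1 c2 : Δ) : ℕ → Δ → Δ → Prop
  | nil (x : Δ) : Ch c1 c2 0 x x
  | snoc {n : ℕ} {x z y : Δ} : Ch c1 c2 n x z → z < y → A.Pl z y c1 c2 → Ch c1 c2 (n + 1) x y

variable {A}

theorem Ch.le {c1 c2 : Δ} {n : ℕ} {x y : Δ} (h : A.Ch c1 c2 n x y) : x ≤ y := by
  induction h with
  | nil x => exact le_rfl
  | snoc _ h1 _ ih => exact ih.trans h1.le

theorem Ch.append {c1 c2 : Δ} {n m : ℕ} {x y z : Δ} (h1 : A.Ch c1 c2 n x y)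
    (h2 : A.Ch c1 c2 m y z) : ∃ k, A.Ch c1 c2 k x z := by
  induction h2 with
  | nil _ => exact ⟨n, h1⟩
  | snoc _ h3 h4 ih =>
    obtain ⟨k, hk⟩ := ih h1
    exact ⟨k + 1, .snoc hk h3 h4⟩

theorem Ch.cutL {c1 c2 : Δ} {n : ℕ} {x y : Δ} (h : A.Ch c1 c2 n x y) :
    ∀ z, x ≤ z → z ≤ y → ∃ k, A.Ch c1 c2 k x z := by
  induction h with
  | nil x =>
    intro z h1 h2
    rw [le_antisymm h2 h1]
    exact ⟨0, .nil _⟩
  | @snoc n x w y h3 h4 h5 ih =>
    intro z h1 h2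
    rcases le_or_gt z w with h | h
    · exact ih z h1 h
    · exact ⟨n + 1, .snoc h3 h ((Pl.incl le_rfl h2).trans h5)⟩

theorem Ch.cutR {c1 c2 : Δ} {n : ℕ} {x y : Δ} (h : A.Ch c1 c2 n x y) :
    ∀ z, x ≤ z → z ≤ y → ∃ k, A.Ch c1 c2 k z y := by
  induction h with
  | nil x =>
    intro z h1 h2
    rw [le_antisymm h2 h1]
    exact ⟨0, .nil _⟩
  | @snoc n x w y h3 h4 h5 ih =>
    intro z h1 h2
    rcases le_or_gt z w with h | h
    · obtain ⟨k, hk⟩ := ih z h1 h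
      exact ⟨k + 1, .snoc hk h4 h5⟩
    · rcases h2.lt_or_eq with h2 | h2
      · exact ⟨1, .snoc (.nil z) h2 ((Pl.incl h.le le_rfl).trans h5)⟩
      · rw [h2]; exact ⟨0, .nil _⟩

theorem Pl.act_left {a b c1 c2 : Δ} (g : M) (h : A.Pl a b c1 c2) :
    A.Pl (A.act a g) (A.act b g) c1 c2 := by
  obtain ⟨k, h1, h2⟩ := h
  refine ⟨g⁻¹ * k, ?_, ?_⟩
  · rw [A.act_mul, A.h2_inv]; exact h1
  · rw [A.act_mul, A.h2_inv]; exact h2

theorem Ch.act {c1 c2 : Δ} {n : ℕ} {x y : Δ} (g : M) (h : A.Ch c1 c2 n x y) :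
    A.Ch c1 c2 n (A.act x g) (A.act y g) := by
  induction h with
  | nil x => exact .nil _
  | snoc _ h3 h4 ih => exact .snoc ih (A.act_lt _ _ g h3) (h4.act_left g)

theorem Ch.exists (hp : A.Prim) {c1 c2 : Δ} (hc : c1 < c2) {x y : Δ} (hxy : x < y) :
    ∃ n, A.Ch c1 c2 n x y := by
  have key := hp (fun x y => (∃ n, A.Ch c1 c2 n x y) ∨ (∃ n, A.Ch c1 c2 n y x))
    ⟨fun x => Or.inl ⟨0, .nil x⟩, fun h => h.symm, ?_⟩ ?_ ?_
    ⟨c1, c2, hc.ne, Or.inl ⟨1, .snoc (.nil c1) hc (Pl.incl le_rfl le_rfl)⟩⟩ x y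
  · rcases key with h | ⟨n, h⟩
    · exact h
    · exact absurd h.le (not_le.2 hxy)
  · rintro a b c (⟨n, h1⟩ | ⟨n, h1⟩) (⟨m, h2⟩ | ⟨m, h2⟩)
    · exact Or.inl (h1.append h2)
    · rcases le_total a c with h | h
      · exact Or.inl (h1.cutL c h h2.le)
      · exact Or.inr (h2.cutL a h h1.le)
    · rcases le_total a c with h | h
      · exact Or.inl (h2.cutR a h1.le h)
      · exact Or.inr (h1.cutR c h2.le h)
    · exact Or.inr (h2.append h1)
  · rintro a b g (⟨n, h1⟩ | ⟨n, h1⟩)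
    · exact Or.inl ⟨n, h1.act g⟩
    · exact Or.inr ⟨n, h1.act g⟩
  · rintro a b c h1 h2 (⟨n, h3⟩ | ⟨n, h3⟩)
    · exact Or.inl (h3.cutL b h1 h2)
    · have e1 : a = b := le_antisymm h1 (h2.trans h3.le)
      rw [e1]
      exact Or.inl ⟨0, .nil _⟩

end Act

open Act in
theorem homog {M Δ : Type} [LGrp M] [LinearOrder Δ] (A : Act M Δ) (h1 : A.Trans) (h2 : A.Prim)
    (h3 : A.Nonreg) : ∃ γ : ℕ → Δ, StrictMono γ ∧ A.Homog γ := by
  classical
  obtain ⟨x, y, g, hxy, hxg, hyg⟩ := h3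
  have hxg' : A.act x g⁻¹ = x := by
    have := A.h2_inv x g
    rwa [hxg] at this
  -- the element `e`
  obtain ⟨e, hxe, hye⟩ : ∃ e, A.act x e = x ∧ y < A.act y e := by
    refine ⟨g ⊔ g⁻¹, ?_, ?_⟩
    · rw [A.act_sup, hxg, hxg', max_self]
    · rw [A.act_sup]
      rcases lt_or_gt_of_ne hyg with h | h
      · have := A.act_lt _ _ g⁻¹ h
        rw [A.h2_inv] at this
        exact this.trans_le (le_max_right _ _)
      · exact h.trans_le (le_max_left _ _)
  -- the orbit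
  let O : Δ → Prop := fun z => ∃ p, A.act x p = x ∧ A.act y p = z
  have hOlt : ∀ z, O z → x < z := by
    rintro z ⟨p, hp1, hp2⟩
    have := A.act_lt _ _ p hxy
    rwa [hp1, hp2] at this
  have hO1 : ∀ z, O z → A.Pl x z x y := by
    rintro z ⟨p, hp1, hp2⟩
    refine ⟨p⁻¹, ?_, ?_⟩
    · have := A.h2_inv x p
      rw [hp1] at this
      rw [this]
    · rw [← hp2, A.h2_inv]
  have hO2 : ∀ z, O z → A.Pl x y x z := by
    rintro z ⟨p, hp1, hp2⟩
    exact ⟨p, hp1.ge, hp2.le⟩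
  have hO3 : ∀ z, A.Pl x y x z → A.Pl x z x y → O z := by
    intro z ha hb
    obtain ⟨k, hk1, hk2⟩ := Pl.orbit h1 ha hb
    exact ⟨k, hk1, hk2⟩
  have hOch : ∀ c1 c2 n z w, O z → O w → A.Ch c1 c2 n x z → A.Ch c1 c2 n x w := by
    rintro c1 c2 n z w ⟨p, hp1, hp2⟩ ⟨q, hq1, hq2⟩ h
    have e1 := h.act p⁻¹
    have e2 : A.act x p⁻¹ = x := by
      have := A.h2_inv x p
      rwa [hp1] at this
    rw [e2, ← hp2, A.h2_inv] at e1
    have e3 := e1.act q
    rwa [hq1, hq2] at e3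
  -- (f)
  have hf : ∀ c1 c2, c1 < c2 → ¬ A.Pl x y c1 c2 → ∀ u w, O u → O w → u < w →
      A.Pl u w c1 c2 := by
    intro c1 c2 hc hn u w hu hw huw
    have hex := Ch.exists h2 hc (hOlt w hw)
    have hmin : ∀ m, m < Nat.find hex → ¬ A.Ch c1 c2 m x w := fun m h => Nat.find_min hex h
    have hfind := Nat.find_spec hex
    rcases hcase : Nat.find hex with _ | m
    · rw [hcase] at hfind
      cases hfind
      exact absurd (hOlt x hw) (lt_irrefl x)
    · rw [hcase] at hfind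
      cases hfind with
      | @snoc n x' z y' hz1 hz2 hz3 =>
      have hzO : ¬ O z := fun hzO =>
        hmin m (by omega) (hOch c1 c2 m z w hzO hw hz1)
      rcases le_or_gt u z with h | h
      · exfalso
        apply hzO
        have hxz : x ≤ z := hz1.le
        apply hO3
        · exact (hO2 u hu).trans (Pl.incl le_rfl h)
        · exact (Pl.incl le_rfl hz2.le).trans (hO1 w hw)
      · exact (Pl.incl h.le le_rfl).trans hz3
  -- (g)
  have hg : ∀ u w u' w', O u → O w → O u' → O w' → u < w → u' < w' → A.Pl u w u' w' := by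
    intro u w u' w' hu hw hu' hw' h4 h5
    by_cases hc : A.Pl x y u' w'
    · exact (Pl.incl (hOlt u hu).le le_rfl).trans ((hO1 w hw).trans hc)
    · exact hf u' w' h5 hc u w hu hw h4
  -- (h)
  have hpow : ∀ i : ℕ, A.act x (e ^ i) = x := by
    intro i
    induction i with
    | zero => rw [pow_zero, A.act_one]
    | succ i ih => rw [pow_succ, A.act_mul, ih, hxe]
  have hmono : StrictMono (fun i : ℕ => A.act y (e ^ i)) := by
    apply strictMono_nat_of_lt_succ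
    intro i
    rw [pow_succ', A.act_mul]
    exact A.act_lt _ _ _ hye
  refine ⟨fun i => A.act y (e ^ i), hmono, ?_⟩
  intro i j i' j' hij hij'
  have hOi : ∀ i : ℕ, O (A.act y (e ^ i)) := fun i => ⟨e ^ i, hpow i, rfl⟩
  exact Pl.orbit h1 (hg _ _ _ _ (hOi i) (hOi j) (hOi i') (hOi j') (hmono hij) (hmono hij'))
    (hg _ _ _ _ (hOi i') (hOi j') (hOi i) (hOi j) (hmono hij') (hmono hij))

end LG39
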