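import Pool.Agent.LG39.Act

/-!
# Multiple transitivity

For `i ≠ j` in `S` let `h i j` map `γ i, γ j` to `γ (f i), γ (f j)`; the element
`⋁_i ⋀_j h i j` does it (for `S` with at most one element use `Homog` directly).
-/

namespace LG39

theorem multi {M Δ : Type} [LGrp M] [LinearOrder Δ] (A : Act M Δ) (γ : ℕ → Δ)
    (hγ : StrictMono γ) (h : A.Homog γ) : A.Multi γ := by
  classical
  have _ := hγ
  intro S f hf
  rcases S.eq_empty_or_nonempty with rfl | hS
  · exact ⟨1, by simp⟩
  have key : ∀ i j, ∃ g, i ∈ S → j ∈ S →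
      A.act (γ i) g = γ (f i) ∧ A.act (γ j) g = γ (f j) := by
    intro i j
    by_cases hi : i ∈ S
    · by_cases hj : j ∈ S
      · rcases lt_trichotomy i j with hij | hij | hij
        · obtain ⟨g, h1, h2⟩ := h i j (f i) (f j) hij (hf i hi j hj hij)
          exact ⟨g, fun _ _ => ⟨h1, h2⟩⟩
        · subst hij
          obtain ⟨g, h1, -⟩ := h i (i + 1) (f i) (f i + 1) (by omega) (by omega)
          exact ⟨g, fun _ _ => ⟨h1, h1⟩⟩
        · obtain ⟨g, h1, h2⟩ := h j i (f j) (f i) hij (hf j hj i hi hij)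
          exact ⟨g, fun _ _ => ⟨h2, h1⟩⟩
      · exact ⟨1, fun _ hj' => absurd hj' hj⟩
    · exact ⟨1, fun hi' => absurd hi' hi⟩
  choose k hk using key
  refine ⟨S.sup' hS fun i => S.inf' hS fun j => k i j, fun l hl => ?_⟩
  have e1 : A.act (γ l) (S.sup' hS fun i => S.inf' hS fun j => k i j)
      = S.sup' hS (fun i => A.act (γ l) (S.inf' hS fun j => k i j)) :=
    Finset.apply_sup'_eq_sup'_comp hS (A.act (γ l)) (A.act_sup (γ l))
  have e2 : ∀ i, A.act (γ l) (S.inf' hS fun j => k i j)
      = S.inf' hS (fun j => A.act (γ l) (k i j)) := fun i =>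
    Finset.apply_inf'_eq_inf'_comp hS (A.act (γ l)) (A.act_inf (γ l))
  rw [e1]
  apply le_antisymm
  · apply Finset.sup'_le
    intro i hi
    rw [e2]
    have h1 := Finset.inf'_le (fun j => A.act (γ l) (k i j)) hl
    exact h1.trans (le_of_eq (hk i l hi hl).2)
  · refine le_trans ?_ (Finset.le_sup' (fun i => A.act (γ l) (S.inf' hS fun j => k i j)) hl)
    rw [e2]
    apply Finset.le_inf'
    intro j hj
    exact le_of_eq (hk l j hl hj).1.symm

end LG39
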