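import Pool.Agent.LG39.Act

/-!
# Transfer of identities

If `s.eval v ≠ t.eval v` in `W` then they differ at a point `ω`; let `F` be the finite set of
points met in the evaluation (for `inv s` at `x` add the points of `s` at `x s⁻¹`), `θ` the map
`F → Δ`, `θ x = γ (number of points of F below x)`; for each variable `i` occurring take `g i`
in `M` with `θ x · g i = θ (x · v i)` whenever `x, x · v i ∈ F`.
-/

namespace LG39

namespace H3
open Classical

/-- Number of points of `F` below `x`. -/
noncomputable def rk {Ω : Type} [LinearOrder Ω] (F : Finset Ω) (x : Ω) : ℕ :=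
  (F.filter (fun y => y < x)).card

theorem rk_mono {Ω : Type} [LinearOrder Ω] (F : Finset Ω) {x y : Ω} (h : x ≤ y) :
    rk F x ≤ rk F y := by
  unfold rk
  apply Finset.card_le_card
  intro z hz
  rw [Finset.mem_filter] at hz ⊢
  exact ⟨hz.1, lt_of_lt_of_le hz.2 h⟩

theorem rk_lt {Ω : Type} [LinearOrder Ω] (F : Finset Ω) {x y : Ω} (hx : x ∈ F) (h : x < y) :
    rk F x < rk F y := by
  unfold rk
  apply Finset.card_lt_card
  rw [Finset.ssubset_iff_of_subset]
  · exact ⟨x, Finset.mem_filter.2 ⟨hx, h⟩, fun h' => lt_irrefl _ (Finset.mem_filter.1 h').2⟩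
  · intro z hz
    rw [Finset.mem_filter] at hz ⊢
    exact ⟨hz.1, lt_trans hz.2 h⟩

theorem rk_inj {Ω : Type} [LinearOrder Ω] (F : Finset Ω) {x y : Ω} (hx : x ∈ F) (hy : y ∈ F)
    (h : rk F x = rk F y) : x = y := by
  rcases lt_trichotomy x y with h1 | h1 | h1
  · exact absurd h (rk_lt F hx h1).ne
  · exact h1
  · exact absurd h (rk_lt F hy h1).ne'

/-- Points met in the evaluation of a term. -/
noncomputable def pts {W Ω : Type} [LGrp W] [LinearOrder Ω] (B : Act W Ω) (v : ℕ → W) :
    Tm ℕ → Ω → Finset Ω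
  | .var i, x => {x, B.act x (v i)}
  | .one, x => {x}
  | .mul s t, x => pts B v s x ∪ pts B v t (B.act x (s.eval v))
  | .inv s, x => pts B v s (B.act x (s.eval v)⁻¹)
  | .inf s t, x => pts B v s x ∪ pts B v t x
  | .sup s t, x => pts B v s x ∪ pts B v t x

variable {M Δ W Ω : Type} [LGrp M] [LinearOrder Δ] [LGrp W] [LinearOrder Ω]

theorem mem_pts (B : Act W Ω) (v : ℕ → W) (u : Tm ℕ) :
    ∀ x, x ∈ pts B v u x ∧ B.act x (u.eval v) ∈ pts B v u x := by
  induction u with
  | var i => intro x; simp [pts, Tm.eval]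
  | one => intro x; simp [pts, Tm.eval, B.act_one]
  | mul s t hs ht =>
    intro x
    refine ⟨Finset.mem_union_left _ (hs x).1, ?_⟩
    rw [Tm.eval, B.act_mul]
    exact Finset.mem_union_right _ (ht _).2
  | inv s hs =>
    intro x
    have h := hs (B.act x (s.eval v)⁻¹)
    rw [← B.act_mul, inv_mul_cancel, B.act_one] at h
    exact ⟨h.2, h.1⟩
  | inf s t hs ht =>
    intro x
    refine ⟨Finset.mem_union_left _ (hs x).1, ?_⟩
    rw [Tm.eval, B.act_inf]
    rcases min_choice (B.act x (s.eval v)) (B.act x (t.eval v)) with h | h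
    · rw [h]; exact Finset.mem_union_left _ (hs x).2
    · rw [h]; exact Finset.mem_union_right _ (ht x).2
  | sup s t hs ht =>
    intro x
    refine ⟨Finset.mem_union_left _ (hs x).1, ?_⟩
    rw [Tm.eval, B.act_sup]
    rcases max_choice (B.act x (s.eval v)) (B.act x (t.eval v)) with h | h
    · rw [h]; exact Finset.mem_union_left _ (hs x).2
    · rw [h]; exact Finset.mem_union_right _ (ht x).2

theorem act_lt' (B : Act W Ω) {x y : Ω} (g : W) (h : x < y) : B.act x g < B.act y g :=
  B.act_lt x y g h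

theorem choose_g (A : Act M Δ) (γ : ℕ → Δ) (hA : A.Multi γ) (B : Act W Ω) (F : Finset Ω)
    (w : W) : ∃ g : M, ∀ x ∈ F, B.act x w ∈ F →
      A.act (γ (rk F x)) g = γ (rk F (B.act x w)) := by
  set f : ℕ → ℕ := fun n => if h : ∃ x ∈ F, rk F x = n then rk F (B.act h.choose w) else 0
    with hf
  have hfx : ∀ x ∈ F, f (rk F x) = rk F (B.act x w) := by
    intro x hx
    have h : ∃ y ∈ F, rk F y = rk F x := ⟨x, hx, rfl⟩
    have h2 : h.choose = x := rk_inj F h.choose_spec.1 hx h.choose_spec.2
    simp only [hf, dif_pos h, h2]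
  obtain ⟨g, hg⟩ := hA ((F.filter (fun x => B.act x w ∈ F)).image (rk F)) f (by
    intro i hi j hj hij
    obtain ⟨x, hx, rfl⟩ := Finset.mem_image.1 hi
    obtain ⟨y, hy, rfl⟩ := Finset.mem_image.1 hj
    rw [Finset.mem_filter] at hx hy
    rw [hfx x hx.1, hfx y hy.1]
    have hxy : x < y := by
      by_contra hcon
      exact absurd (rk_mono F (not_lt.1 hcon)) (not_le.2 hij)
    exact rk_lt F hx.2 (B.act_lt x y w hxy))
  refine ⟨g, fun x hx hxw => ?_⟩
  rw [hg (rk F x) (Finset.mem_image.2 ⟨x, Finset.mem_filter.2 ⟨hx, hxw⟩, rfl⟩), hfx x hx]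

theorem eval_transfer (A : Act M Δ) (γ : ℕ → Δ) (hγ : StrictMono γ) (B : Act W Ω)
    (F : Finset Ω) (v : ℕ → W) (g : ℕ → M)
    (hg : ∀ i, ∀ x ∈ F, B.act x (v i) ∈ F → A.act (γ (rk F x)) (g i) = γ (rk F (B.act x (v i))))
    (u : Tm ℕ) : ∀ x, pts B v u x ⊆ F →
      A.act (γ (rk F x)) (u.eval g) = γ (rk F (B.act x (u.eval v))) := by
  have hmono : Monotone (fun x => γ (rk F x)) := fun x y h => hγ.monotone (rk_mono F h)
  induction u with
  | var i =>
    intro x hx
    have h := mem_pts B v (.var i) x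
    exact hg i x (hx h.1) (hx h.2)
  | one => intro x _; simp [Tm.eval, A.act_one, B.act_one]
  | mul s t hs ht =>
    intro x hx
    have h1 : pts B v s x ⊆ F := Finset.union_subset_left (by simpa only [pts] using hx)
    have h2 : pts B v t (B.act x (s.eval v)) ⊆ F :=
      Finset.union_subset_right (by simpa only [pts] using hx)
    rw [Tm.eval, Tm.eval, A.act_mul, hs x h1, ht _ h2, B.act_mul]
  | inv s hs =>
    intro x hx
    have h1 : pts B v s (B.act x (s.eval v)⁻¹) ⊆ F := by simpa only [pts] using hx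
    have h2 := hs _ h1
    rw [← B.act_mul, inv_mul_cancel, B.act_one] at h2
    rw [Tm.eval, Tm.eval, ← h2, ← A.act_mul, mul_inv_cancel, A.act_one]
  | inf s t hs ht =>
    intro x hx
    have h1 : pts B v s x ⊆ F := Finset.union_subset_left (by simpa only [pts] using hx)
    have h2 : pts B v t x ⊆ F := Finset.union_subset_right (by simpa only [pts] using hx)
    rw [Tm.eval, Tm.eval, A.act_inf, hs x h1, ht _ h2, B.act_inf]
    exact (hmono.map_min (a := B.act x (s.eval v)) (b := B.act x (t.eval v))).symm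
  | sup s t hs ht =>
    intro x hx
    have h1 : pts B v s x ⊆ F := Finset.union_subset_left (by simpa only [pts] using hx)
    have h2 : pts B v t x ⊆ F := Finset.union_subset_right (by simpa only [pts] using hx)
    rw [Tm.eval, Tm.eval, A.act_sup, hs x h1, ht _ h2, B.act_sup]
    exact (hmono.map_max (a := B.act x (s.eval v)) (b := B.act x (t.eval v))).symm

end H3

open H3 in
theorem transfer {M Δ W Ω : Type} [LGrp M] [LinearOrder Δ] [LGrp W] [LinearOrder Ω]
    (A : Act M Δ) (γ : ℕ → Δ) (hγ : StrictMono γ) (hA : A.Multi γ)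
    (B : Act W Ω) (hB : ∀ g h : W, (∀ x, B.act x g = B.act x h) → g = h)
    (s t : Tm ℕ) (h : ∀ v : ℕ → M, s.eval v = t.eval v) (v : ℕ → W) : s.eval v = t.eval v := by
  classical
  apply hB
  intro ω
  set F : Finset Ω := pts B v s ω ∪ pts B v t ω with hF
  choose g hg using fun i => choose_g A γ hA B F (v i)
  have h1 := eval_transfer A γ hγ B F v g hg s ω Finset.subset_union_left
  have h2 := eval_transfer A γ hγ B F v g hg t ω Finset.subset_union_right
  rw [h g] at h1
  exact rk_inj F (Finset.mem_union_left _ (mem_pts B v s ω).2)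
    (Finset.mem_union_right _ (mem_pts B v t ω).2) (hγ.injective (h1.symm.trans h2))

end LG39
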