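import Pool.Agent.LG39.WrA
import Pool.Agent.LG39.H1
import Pool.Agent.LG39.H2a
import Pool.Agent.LG39.H2b
import Pool.Agent.LG39.H3

/-!
# A variety which is not normal valued contains the wreath product
-/

namespace LG39

theorem lexlt_iff (a b : ℤ ×ₗ ℤ) :
    a < b ↔ (ofLex a).1 < (ofLex b).1 ∨ (ofLex a).1 = (ofLex b).1 ∧ (ofLex a).2 < (ofLex b).2 :=
  Prod.Lex.lt_iff

/-- The action of the wreath product on pairs. -/
theorem wr_act : ∃ B : Act Wr (ℤ ×ₗ ℤ),
    ∀ g h : Wr, (∀ x, B.act x g = B.act x h) → g = h := by
  refine ⟨{ act := fun x g => toLex ((ofLex x).1 + g.c, (ofLex x).2 + g.f (ofLex x).1)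
            act_one := fun x => ?_
            act_mul := fun x g h => ?_
            act_lt := fun x y g h => ?_
            act_sup := fun x g h => ?_
            act_inf := fun x g h => ?_ }, fun g h hgh => ?_⟩
  · show toLex ((ofLex x).1 + 0, (ofLex x).2 + 0) = x
    rw [add_zero, add_zero]; rfl
  · show toLex ((ofLex x).1 + (g.c + h.c), (ofLex x).2 + (g.f (ofLex x).1 + h.f ((ofLex x).1 + g.c)))
      = toLex ((ofLex x).1 + g.c + h.c, (ofLex x).2 + g.f (ofLex x).1 + h.f ((ofLex x).1 + g.c))
    rw [add_assoc, add_assoc]
  · rw [lexlt_iff] at h ⊢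
    simp only [ofLex_toLex]
    rcases h with h | ⟨h1, h2⟩
    · left; omega
    · right; rw [h1]; exact ⟨rfl, by omega⟩
  · have hs : g ⊔ h = if g.c < h.c then h else if h.c < g.c then g else
        ⟨fun p => max (g.f p) (h.f p), g.c⟩ := rfl
    rw [hs]
    rcases lt_trichotomy g.c h.c with hc | hc | hc
    · rw [if_pos hc, max_eq_right]
      apply le_of_lt
      rw [lexlt_iff]
      left
      simp only [ofLex_toLex]
      omega
    · rw [if_neg hc.not_lt, if_neg hc.symm.not_lt]
      rcases le_total (g.f (ofLex x).1) (h.f (ofLex x).1) with hf | hf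
      · simp only [max_eq_right hf, hc]
        rw [max_eq_right]
        rcases hf.lt_or_eq with hf | hf
        · apply le_of_lt
          rw [lexlt_iff]
          right
          simp only [ofLex_toLex]
          exact ⟨trivial, by omega⟩
        · rw [hf]
      · simp only [max_eq_left hf, hc]
        rw [max_eq_left]
        rcases hf.lt_or_eq with hf | hf
        · apply le_of_lt
          rw [lexlt_iff]
          right
          simp only [ofLex_toLex]
          exact ⟨trivial, by omega⟩
        · rw [hf]
    · rw [if_neg hc.not_gt, if_pos hc, max_eq_left]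
      apply le_of_lt
      rw [lexlt_iff]
      left
      simp only [ofLex_toLex]
      omega
  · have hs : g ⊓ h = if g.c < h.c then g else if h.c < g.c then h else
        ⟨fun p => min (g.f p) (h.f p), g.c⟩ := rfl
    rw [hs]
    rcases lt_trichotomy g.c h.c with hc | hc | hc
    · rw [if_pos hc, min_eq_left]
      apply le_of_lt
      rw [lexlt_iff]
      left
      simp only [ofLex_toLex]
      omega
    · rw [if_neg hc.not_lt, if_neg hc.symm.not_lt]
      rcases le_total (g.f (ofLex x).1) (h.f (ofLex x).1) with hf | hf
      · simp only [min_eq_left hf, hc]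
        rw [min_eq_left]
        rcases hf.lt_or_eq with hf | hf
        · apply le_of_lt
          rw [lexlt_iff]
          right
          simp only [ofLex_toLex]
          exact ⟨trivial, by omega⟩
        · rw [hf]
      · simp only [min_eq_right hf, hc]
        rw [min_eq_right]
        rcases hf.lt_or_eq with hf | hf
        · apply le_of_lt
          rw [lexlt_iff]
          right
          simp only [ofLex_toLex]
          exact ⟨trivial, by omega⟩
        · rw [hf]
    · rw [if_neg hc.not_gt, if_pos hc, min_eq_right]
      apply le_of_lt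
      rw [lexlt_iff]
      left
      simp only [ofLex_toLex]
      omega
  · have h0 := hgh (toLex (0, 0))
    have hc : g.c = h.c := by
      have := congrArg (fun z => (ofLex z).1) h0
      simpa using this
    ext p
    · have := congrArg (fun z => (ofLex z).2) (hgh (toLex (p, 0)))
      simpa using this
    · exact hc

theorem models_Wr {E : Set (Tm ℕ × Tm ℕ)} {T : Type} [LGrp T] (hT : Models E T) (x y : T)
    (hx : 1 ≤ x) (hy : 1 ≤ y) (hxy : ¬ x * y ≤ y ^ 2 * x ^ 2) : Models E Wr := by
  obtain ⟨M, iM, ι, Δ, iΔ, A, hι, hinj, h1, h2, h3⟩ := exists_act x y hx hy hxy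
  obtain ⟨γ, hγ, hom⟩ := homog A h1 h2 h3
  have hm := multi A γ hγ hom
  obtain ⟨B, hB⟩ := wr_act
  have hM : Models E M := hT.of_inj hι hinj
  intro p hp v
  exact transfer A γ hγ hm B hB p.1 p.2 (hM p hp) v

end LG39
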