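import Pool.Agent.LG39.Basic

/-!
# Terms at integer points, the lexicographic product, the wreath product
-/

namespace LG39

/-- The value of a term in the additive `ℓ`-group of the integers. -/
def Tm.evalZ (v : ℕ → ℤ) : Tm ℕ → ℤ
  | .var x => v x
  | .one => 0
  | .mul s t => s.evalZ v + t.evalZ v
  | .inv s => -s.evalZ v
  | .inf s t => min (s.evalZ v) (t.evalZ v)
  | .sup s t => max (s.evalZ v) (t.evalZ v)

theorem eval_Zm (v : ℕ → ℤ) (t : Tm ℕ) :
    t.eval (fun i => (Multiplicative.ofAdd (v i) : Zm)) = Multiplicative.ofAdd (t.evalZ v) := by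
  induction t with
  | var x => rfl
  | one => rfl
  | mul s t hs ht => simp only [Tm.eval, Tm.evalZ, hs, ht]; rfl
  | inv s hs => simp only [Tm.eval, Tm.evalZ, hs]; rfl
  | inf s t hs ht => simp only [Tm.eval, Tm.evalZ, hs, ht]; rfl
  | sup s t hs ht => simp only [Tm.eval, Tm.evalZ, hs, ht]; rfl

/-- The valuation with values `p.1, p.2.1, p.2.2.1, p.2.2.2, 0, 0, …`. -/
def v4 (p : ℕ × ℕ × ℕ × ℕ) : ℕ → ℤ
  | 0 => p.1
  | 1 => p.2.1
  | 2 => p.2.2.1
  | 3 => p.2.2.2
  | _ => 0

/-- The number of symbols. -/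
def Tm.size : Tm ℕ → ℕ
  | .var _ => 1
  | .one => 1
  | .mul s t => s.size + t.size
  | .inv s => s.size
  | .inf s t => s.size + t.size
  | .sup s t => s.size + t.size

/-- An element of the lexicographic product (the first coordinate dominates). -/
def lx (a b : ℤ) : Lex2 := Multiplicative.ofAdd (toLex (a, b))

/-- The (unrestricted) wreath product of two infinite cyclic groups, acting on the chain of pairs
`(p, i)`, ordered lexicographically, by `(p, i) (f, c) = (p + c, i + f p)`. -/
@[ext] structure Wr : Type where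
  f : ℤ → ℤ
  c : ℤ

end LG39
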