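import Pool.Agent.LG39.Conv

/-!
# The relation valid in all `ℓ`-groups

`u` = the left side; if `u ≠ 1` take `P` maximal without `u` (prime).  `u ≤ s`, so `s ∉ P`,
`h ∈ P`; `u ≤ t h t⁻¹`, so `t h t⁻¹ ∉ P`, `t s t⁻¹ ∈ P`; `t ⊔ 1 ∉ P`, so `e = t⁻¹ ⊔ 1 ∈ P`;
`k ≤ (s h)^M = h^M s^M ≤ h^M e (t s^M t⁻¹) t`, so `k t⁻¹ ⊔ 1 ∈ P`, contradiction with
`u ≤ k t⁻¹ ⊔ 1`.
-/

namespace LG39

theorem l_key {T : Type} [LGrp T] (s h k t : T) (hs : 1 ≤ s) (hh : 1 ≤ h) (hd : s ⊓ h = 1)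
    (M : ℕ) (hk : k ≤ (s * h) ^ M) :
    t ⊓ (k * t⁻¹) ⊓ s ⊓ (t * h * t⁻¹) ⊔ 1 = 1 := by
  by_contra hne
  set u : T := t ⊓ (k * t⁻¹) ⊓ s ⊓ (t * h * t⁻¹) ⊔ 1 with hu
  have hu1 : 1 ≤ u := le_sup_right
  obtain ⟨P, -, huP, hmax⟩ := (Cvx.bot T).exists_max u (by
    intro hmem
    exact hne hmem)
  have prime := P.prime_of_max u huP hmax
  have hcj : ∀ a : T, 1 ≤ a → 1 ≤ t * a * t⁻¹ := by
    intro a ha
    have h1 : t * 1 * t⁻¹ ≤ t * a * t⁻¹ :=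
      LGrp.mul_le_mul_r _ _ (LGrp.mul_le_mul_l _ _ ha t) t⁻¹
    simpa using h1
  have hin : ∀ a b : T, a ⊓ b = 1 → (t * a * t⁻¹) ⊓ (t * b * t⁻¹) = 1 := by
    intro a b hab
    apply le_antisymm
    · have h1 : t⁻¹ * ((t * a * t⁻¹) ⊓ (t * b * t⁻¹)) * t ≤ a := by
        have := LGrp.mul_le_mul_r _ _ (LGrp.mul_le_mul_l _ _
          (inf_le_left : (t * a * t⁻¹) ⊓ (t * b * t⁻¹) ≤ t * a * t⁻¹) t⁻¹) t
        have e1 : t⁻¹ * (t * a * t⁻¹) * t = a := by group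
        rwa [e1] at this
      have h2 : t⁻¹ * ((t * a * t⁻¹) ⊓ (t * b * t⁻¹)) * t ≤ b := by
        have := LGrp.mul_le_mul_r _ _ (LGrp.mul_le_mul_l _ _
          (inf_le_right : (t * a * t⁻¹) ⊓ (t * b * t⁻¹) ≤ t * b * t⁻¹) t⁻¹) t
        have e1 : t⁻¹ * (t * b * t⁻¹) * t = b := by group
        rwa [e1] at this
      have h3 : t⁻¹ * ((t * a * t⁻¹) ⊓ (t * b * t⁻¹)) * t ≤ 1 := by
        rw [← hab]; exact le_inf h1 h2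
      have h4 := LGrp.mul_le_mul_r _ _ (LGrp.mul_le_mul_l _ _ h3 t) t⁻¹
      have e2 : t * (t⁻¹ * ((t * a * t⁻¹) ⊓ (t * b * t⁻¹)) * t) * t⁻¹
          = (t * a * t⁻¹) ⊓ (t * b * t⁻¹) := by group
      rw [e2] at h4
      simpa using h4
    · have ha : 1 ≤ a := hab ▸ inf_le_left
      have hb : 1 ≤ b := hab ▸ inf_le_right
      exact le_inf (hcj a ha) (hcj b hb)
  -- step 1
  have us : u ≤ s := sup_le (inf_le_left.trans inf_le_right) hs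
  have hsP : s ∉ P.carrier := fun h' => huP (P.conv h' hu1 us)
  have hhP : h ∈ P.carrier := (prime s h hd).resolve_left hsP
  -- step 2
  have uth : u ≤ t * h * t⁻¹ := sup_le inf_le_right (hcj h hh)
  have hthP : t * h * t⁻¹ ∉ P.carrier := fun h' => huP (P.conv h' hu1 uth)
  have htsP : t * s * t⁻¹ ∈ P.carrier := (prime _ _ (hin s h hd)).resolve_right hthP
  -- step 3
  have ut : u ≤ t ⊔ 1 :=
    sup_le_sup_right (inf_le_left.trans (inf_le_left.trans inf_le_left)) 1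
  have htP : t ⊔ 1 ∉ P.carrier := fun h' => huP (P.conv h' hu1 ut)
  have heP : t⁻¹ ⊔ 1 ∈ P.carrier := (prime _ _ (pos_neg_disj t)).resolve_left htP
  -- step 4
  have uk : u ≤ k * t⁻¹ ⊔ 1 :=
    sup_le_sup_right (inf_le_left.trans (inf_le_left.trans inf_le_right)) 1
  have hcomm : s * h = h * s := disj_comm hd
  have hpow : (s * h) ^ M = h ^ M * s ^ M := by
    rw [hcomm]
    exact (Commute.mul_pow (show Commute h s from hcomm.symm) M)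
  have het : 1 ≤ (t⁻¹ ⊔ 1) * t := by
    have := LGrp.mul_le_mul_r _ _ (le_sup_left : t⁻¹ ≤ t⁻¹ ⊔ 1) t
    simpa using this
  have hw : k * t⁻¹ ≤ h ^ M * ((t⁻¹ ⊔ 1) * (t * s * t⁻¹) ^ M) := by
    have h1 : s ^ M ≤ (t⁻¹ ⊔ 1) * t * s ^ M := by
      have := LGrp.mul_le_mul_r _ _ het (s ^ M)
      simpa using this
    have h2 : k ≤ h ^ M * ((t⁻¹ ⊔ 1) * t * s ^ M) := by
      refine hk.trans ?_
      rw [hpow]
      exact LGrp.mul_le_mul_l _ _ h1 _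
    have h3 := LGrp.mul_le_mul_r _ _ h2 t⁻¹
    have e3 : (t * s * t⁻¹) ^ M = t * s ^ M * t⁻¹ := conj_pow
    rw [e3]
    calc k * t⁻¹ ≤ h ^ M * ((t⁻¹ ⊔ 1) * t * s ^ M) * t⁻¹ := h3
      _ = h ^ M * ((t⁻¹ ⊔ 1) * (t * s ^ M * t⁻¹)) := by simp only [mul_assoc]
  have hwP : h ^ M * ((t⁻¹ ⊔ 1) * (t * s * t⁻¹) ^ M) ∈ P.carrier :=
    P.mul_mem _ _ (P.pow_mem hhP M) (P.mul_mem _ _ heP (P.pow_mem htsP M))
  have hw1 : k * t⁻¹ ⊔ 1 ≤ h ^ M * ((t⁻¹ ⊔ 1) * (t * s * t⁻¹) ^ M) ⊔ 1 :=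
    sup_le_sup_right hw 1
  exact huP (P.conv (P.sup_mem hwP P.one_mem) hu1 (uk.trans hw1))

end LG39
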