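import Pool.Agent.LG39.Int

/-!
# The lexicographic product lies in every nontrivial variety
-/

namespace LG39

theorem lx_mul (a b c d : ℤ) : lx a b * lx c d = lx (a + c) (b + d) := by rfl

theorem lx_inv (a b : ℤ) : (lx a b)⁻¹ = lx (-a) (-b) := by rfl

theorem lx_one : lx 0 0 = 1 := by rfl

theorem lx_inj (a b c d : ℤ) : lx a b = lx c d ↔ a = c ∧ b = d := by
  constructor
  · intro h
    have h1 : toLex (a, b) = toLex (c, d) := Multiplicative.ofAdd.injective h
    have h2 : (a, b) = (c, d) := toLex.injective h1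
    exact ⟨congrArg Prod.fst h2, congrArg Prod.snd h2⟩
  · rintro ⟨rfl, rfl⟩
    rfl

theorem lx_le (a b c d : ℤ) : lx a b ≤ lx c d ↔ a < c ∨ a = c ∧ b ≤ d := by
  have h : lx a b ≤ lx c d ↔ toLex (a, b) ≤ toLex (c, d) := Iff.rfl
  rw [h, Prod.Lex.toLex_le_toLex]

theorem LexA.lx_le_large {a b c d : ℤ} (h : lx a b ≤ lx c d) :
    ∃ M : ℕ, ∀ m : ℕ, M ≤ m → a * m + b ≤ c * m + d := by
  rcases (lx_le a b c d).1 h with h1 | ⟨rfl, h2⟩
  · refine ⟨(b - d).toNat, fun m hm => ?_⟩
    have h3 : b - d ≤ (m : ℤ) := Int.toNat_le.1 hm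
    have h4 : (m : ℤ) * 1 ≤ (m : ℤ) * (c - a) :=
      mul_le_mul_of_nonneg_left (by linarith) (Int.natCast_nonneg m)
    nlinarith
  · exact ⟨0, fun m _ => by linarith⟩

/-- Induction on `t`: for large `m` the integer `A m + B` has the sign of `(A, B)`. -/
theorem lex_approx (v : ℕ → ℤ × ℤ) (t : Tm ℕ) :
    ∃ A B : ℤ, t.eval (fun i => lx (v i).1 (v i).2) = lx A B ∧
      ∃ M : ℕ, ∀ m : ℕ, M ≤ m → t.evalZ (fun i => (v i).1 * m + (v i).2) = A * m + B := by
  induction t with
  | var x => exact ⟨(v x).1, (v x).2, rfl, 0, fun m _ => rfl⟩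
  | one => exact ⟨0, 0, lx_one.symm, 0, fun m _ => by simp [Tm.evalZ]⟩
  | mul s t hs ht =>
    obtain ⟨A, B, h1, M, h2⟩ := hs
    obtain ⟨C, D, h3, N, h4⟩ := ht
    refine ⟨A + C, B + D, ?_, max M N, fun m hm => ?_⟩
    · simp only [Tm.eval, h1, h3, lx_mul]
    · simp only [Tm.evalZ]
      rw [h2 m (le_trans (le_max_left _ _) hm), h4 m (le_trans (le_max_right _ _) hm)]
      ring
  | inv s hs =>
    obtain ⟨A, B, h1, M, h2⟩ := hs
    refine ⟨-A, -B, ?_, M, fun m hm => ?_⟩
    · simp only [Tm.eval, h1, lx_inv]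
    · simp only [Tm.evalZ]
      rw [h2 m hm]
      ring
  | inf s t hs ht =>
    obtain ⟨A, B, h1, M, h2⟩ := hs
    obtain ⟨C, D, h3, N, h4⟩ := ht
    rcases le_total (lx A B) (lx C D) with h | h
    · obtain ⟨L, hL⟩ := LexA.lx_le_large h
      refine ⟨A, B, ?_, max L (max M N), fun m hm => ?_⟩
      · simp only [Tm.eval, h1, h3]
        exact inf_eq_left.2 h
      · simp only [Tm.evalZ]
        rw [h2 m (by omega), h4 m (by omega)]
        exact min_eq_left (hL m (by omega))
    · obtain ⟨L, hL⟩ := LexA.lx_le_large h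
      refine ⟨C, D, ?_, max L (max M N), fun m hm => ?_⟩
      · simp only [Tm.eval, h1, h3]
        exact inf_eq_right.2 h
      · simp only [Tm.evalZ]
        rw [h2 m (by omega), h4 m (by omega)]
        exact min_eq_right (hL m (by omega))
  | sup s t hs ht =>
    obtain ⟨A, B, h1, M, h2⟩ := hs
    obtain ⟨C, D, h3, N, h4⟩ := ht
    rcases le_total (lx A B) (lx C D) with h | h
    · obtain ⟨L, hL⟩ := LexA.lx_le_large h
      refine ⟨C, D, ?_, max L (max M N), fun m hm => ?_⟩
      · simp only [Tm.eval, h1, h3]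
        exact sup_eq_right.2 h
      · simp only [Tm.evalZ]
        rw [h2 m (by omega), h4 m (by omega)]
        exact max_eq_right (hL m (by omega))
    · obtain ⟨L, hL⟩ := LexA.lx_le_large h
      refine ⟨A, B, ?_, max L (max M N), fun m hm => ?_⟩
      · simp only [Tm.eval, h1, h3]
        exact sup_eq_left.2 h
      · simp only [Tm.evalZ]
        rw [h2 m (by omega), h4 m (by omega)]
        exact max_eq_left (hL m (by omega))

theorem LexA.exists_one_lt {K : Type} [LGrp K] (hK : ¬ Subsingleton K) : ∃ g : K, 1 < g := by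
  by_contra hno
  push Not at hno
  apply hK
  have h1 : ∀ g : K, g ≤ 1 := fun g => by
    by_contra hg
    apply hno (g ⊔ 1)
    refine lt_of_le_of_ne le_sup_right ?_
    intro he
    apply hg
    rw [he]
    exact le_sup_left
  refine ⟨fun a b => ?_⟩
  have h2 : a * b⁻¹ ≤ 1 := h1 _
  have h3 : b * a⁻¹ ≤ 1 := h1 _
  have h4 : a ≤ b := by
    have := LGrp.mul_le_mul_r _ _ h2 b
    simpa using this
  have h5 : b ≤ a := by
    have := LGrp.mul_le_mul_r _ _ h3 a
    simpa using this
  exact le_antisymm h4 h5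

theorem LexA.zpow_mono_of_one_le {K : Type} [LGrp K] {g : K} (hg : 1 ≤ g) {m n : ℤ} (h : m ≤ n) :
    g ^ m ≤ g ^ n := by
  obtain ⟨k, rfl⟩ := Int.le.dest h
  rw [zpow_add, zpow_natCast]
  have h1 : (1 : K) ≤ g ^ k := one_le_pow_of_one_le' hg k
  have h2 := LGrp.mul_le_mul_l _ _ h1 (g ^ m)
  rwa [mul_one] at h2

/-- Take `1 < g` in `K`; `n ↦ g ^ n` is an injective `ℓ`-homomorphism of `Zm` into `K`. -/
theorem models_Zm {E : Set (Tm ℕ × Tm ℕ)} {K : Type} [LGrp K] (h : Models E K)
    (hK : ¬ Subsingleton K) : Models E Zm := by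
  obtain ⟨g, hg⟩ := LexA.exists_one_lt hK
  let f : Zm → K := fun n => g ^ (Multiplicative.toAdd n)
  have hmono : ∀ {a b : Zm}, a ≤ b → f a ≤ f b := fun {a b} hab =>
    LexA.zpow_mono_of_one_le hg.le (m := Multiplicative.toAdd a) (n := Multiplicative.toAdd b) hab
  have hf : IsLHom f := by
    refine ⟨fun a b => ?_, fun a b => ?_, fun a b => ?_⟩
    · exact zpow_add g _ _
    · rcases le_total a b with hab | hab
      · rw [inf_eq_left.2 hab, inf_eq_left.2 (hmono hab)]
      · rw [inf_eq_right.2 hab, inf_eq_right.2 (hmono hab)]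
    · rcases le_total a b with hab | hab
      · rw [sup_eq_right.2 hab, sup_eq_right.2 (hmono hab)]
      · rw [sup_eq_left.2 hab, sup_eq_left.2 (hmono hab)]
  refine h.of_inj hf ?_
  have hlt : ∀ a b : Zm, a < b → f a ≠ f b := by
    intro a b hab he
    have h1 : Multiplicative.toAdd a + 1 ≤ Multiplicative.toAdd b := hab
    have h2 : g ^ (Multiplicative.toAdd a + 1) ≤ g ^ (Multiplicative.toAdd b) :=
      LexA.zpow_mono_of_one_le hg.le h1
    have h3 : g ^ (Multiplicative.toAdd a) = g ^ (Multiplicative.toAdd b) := he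
    rw [← h3, zpow_add_one] at h2
    have h4 := LGrp.mul_le_mul_l _ _ h2 (g ^ (Multiplicative.toAdd a))⁻¹
    rw [inv_mul_cancel_left, inv_mul_cancel] at h4
    exact absurd hg (not_lt_of_ge h4)
  intro a b hab
  rcases lt_trichotomy a b with h1 | h1 | h1
  · exact absurd hab (hlt a b h1)
  · exact h1
  · exact absurd hab.symm (hlt b a h1)

/-- From `lex_approx` and `eval_Zm`. -/
theorem models_Lex2 {E : Set (Tm ℕ × Tm ℕ)} (h : Models E Zm) : Models E Lex2 := by
  intro p hp v
  let w : ℕ → ℤ × ℤ := fun i => ofLex (Multiplicative.toAdd (v i))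
  have hv : v = fun i => lx (w i).1 (w i).2 := by
    funext i
    rfl
  rw [hv]
  obtain ⟨A, B, h1, M, h2⟩ := lex_approx w p.1
  obtain ⟨C, D, h3, N, h4⟩ := lex_approx w p.2
  rw [h1, h3, lx_inj]
  have key : ∀ m : ℕ, max M N ≤ m → A * m + B = C * m + D := by
    intro m hm
    rw [← h2 m (le_trans (le_max_left _ _) hm), ← h4 m (le_trans (le_max_right _ _) hm)]
    have h5 := h p hp (fun i => (Multiplicative.ofAdd ((w i).1 * m + (w i).2) : Zm))
    rw [eval_Zm, eval_Zm] at h5
    exact Multiplicative.ofAdd.injective h5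
  have h6 := key (max M N) le_rfl
  have h7 := key (max M N + 1) (Nat.le_succ _)
  push_cast at h6 h7
  have h8 : A = C := by linarith
  subst h8
  exact ⟨rfl, by linarith⟩

end LG39
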