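import Pool.Agent.LG39.Conv

/-!
# The inequality for normal-valued `ℓ`-groups

`u = (a c⁻¹ ⊓ d b⁻¹) ⊔ 1`; if `u ≠ 1` take `P` maximal without `u` (prime).  Then
`e₁ = c a⁻¹ ⊔ 1 ∈ P`, `c ≤ e₁ a`, and `e₂ = b d⁻¹ ⊔ 1 ∈ P`, `b ≤ e₂ d`.  Let `z = a b c d`, not in
`P`, and `Q ⊇ P` maximal without `z`.  Claim: `y e y⁻¹ ∈ Q` for `1 ≤ e ∈ Q` and `1 ≤ y ≤ z`.
Otherwise `g = y e y⁻¹` has `y ≤ z ≤ (r g)^K ≤ f g^N` with `1 ≤ f ∈ Q` (by `hN`: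
`g^n r ≤ r² g^(2n)`), and then
`g^N f⁻¹ y² ≤ g^N (y e^N y⁻¹) y = y e^(2N) ≤ e^(4N) y²`, so `g^N ≤ e^(4N) f ∈ Q`.
Hence `(e y)^n ≤ e' y^n` with `e' ∈ Q`, and
`a^m ≤ b^q ≤ e' d^q ≤ e' c^m' ≤ e'' a^m'`, so `a ∈ Q`, then `c, d, b ∈ Q`.
-/

namespace LG39

section aux
variable {T : Type} [LGrp T]

theorem nk_mul_right {a b : T} (h : a ≤ b) (c : T) : a * c ≤ b * c :=
  LGrp.mul_le_mul_r a b h c

theorem nk_mul_left {a b : T} (h : a ≤ b) (c : T) : c * a ≤ c * b :=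
  LGrp.mul_le_mul_l a b h c

theorem nk_mul_le {a b c d : T} (h1 : a ≤ b) (h2 : c ≤ d) : a * c ≤ b * d :=
  (nk_mul_right h1 c).trans (nk_mul_left h2 b)

theorem nk_one_mul {a b : T} (h1 : 1 ≤ a) (h2 : 1 ≤ b) : 1 ≤ a * b := by
  simpa using nk_mul_le h1 h2

theorem nk_one_pow {a : T} (h1 : 1 ≤ a) (n : ℕ) : 1 ≤ a ^ n := by
  induction n with
  | zero => simp
  | succ n ih => rw [pow_succ]; exact nk_one_mul ih h1

theorem nk_pow_mono {a b : T} (h : a ≤ b) (n : ℕ) : a ^ n ≤ b ^ n := by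
  induction n with
  | zero => simp
  | succ n ih => rw [pow_succ, pow_succ]; exact nk_mul_le ih h

theorem nk_le_mul_right {a b : T} (h : 1 ≤ b) : a ≤ a * b := by
  simpa using nk_mul_left h a

theorem nk_le_mul_left {a b : T} (h : 1 ≤ b) : a ≤ b * a := by
  simpa using nk_mul_right h a

theorem nk_le_pow {a : T} (h1 : 1 ≤ a) {n : ℕ} (hn : 0 < n) : a ≤ a ^ n := by
  obtain ⟨k, rfl⟩ : ∃ k, n = k + 1 := ⟨n - 1, by omega⟩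
  rw [pow_succ]
  exact nk_le_mul_left (nk_one_pow h1 k)

theorem nk_cancel_right {a b c : T} (h : a * c ≤ b * c) : a ≤ b := by
  have := nk_mul_right h c⁻¹
  simpa [mul_assoc] using this

theorem nk_one_conj {e y : T} (he : 1 ≤ e) : 1 ≤ y * e * y⁻¹ := by
  have h := nk_mul_right (nk_mul_left he y) y⁻¹
  simpa using h

theorem nk_conj_pow (y e : T) (n : ℕ) : (y * e * y⁻¹) ^ n = y * e ^ n * y⁻¹ := by
  induction n with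
  | zero => simp
  | succ n ih => rw [pow_succ, ih, pow_succ]; group

/-- `(r g)^K ≤ f g^N`. -/
theorem nk_push (hN : ∀ x y : T, 1 ≤ x → 1 ≤ y → x * y ≤ y ^ 2 * x ^ 2) (Q : Cvx T) {r g : T}
    (hr : 1 ≤ r) (hrQ : r ∈ Q.carrier) (hg : 1 ≤ g) (K : ℕ) :
    ∃ f ∈ Q.carrier, 1 ≤ f ∧ ∃ N : ℕ, (r * g) ^ K ≤ f * g ^ N := by
  induction K with
  | zero => exact ⟨1, Q.one_mem, le_refl _, 0, by simp⟩
  | succ K ih =>
    obtain ⟨f, hf, hf1, N, hK⟩ := ih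
    refine ⟨f * r ^ 2, Q.mul_mem _ _ hf (Q.pow_mem hrQ 2), nk_one_mul hf1 (nk_one_pow hr 2),
      2 * N + 1, ?_⟩
    have h1 : g ^ N * r ≤ r ^ 2 * (g ^ N) ^ 2 := hN _ _ (nk_one_pow hg N) hr
    calc (r * g) ^ (K + 1) = (r * g) ^ K * (r * g) := pow_succ _ _
      _ ≤ f * g ^ N * (r * g) := nk_mul_right hK _
      _ = f * (g ^ N * r) * g := by group
      _ ≤ f * (r ^ 2 * (g ^ N) ^ 2) * g := nk_mul_right (nk_mul_left h1 f) g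
      _ = f * r ^ 2 * g ^ (2 * N + 1) := by
        rw [← pow_mul, Nat.mul_comm N 2, pow_succ g (2 * N)]; simp only [mul_assoc]

/-- Values are normal enough: conjugation by `1 ≤ y ≤ z`. -/
theorem nk_conj (hN : ∀ x y : T, 1 ≤ x → 1 ≤ y → x * y ≤ y ^ 2 * x ^ 2) (Q : Cvx T) {z : T}
    (hz1 : 1 ≤ z) (hz : z ∉ Q.carrier)
    (hmax : ∀ S : Cvx T, Q.carrier ⊆ S.carrier → z ∉ S.carrier → S.carrier ⊆ Q.carrier)
    {e y : T} (he : 1 ≤ e) (heQ : e ∈ Q.carrier) (hy1 : 1 ≤ y) (hy : y ≤ z) :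
    y * e * y⁻¹ ∈ Q.carrier := by
  by_contra hg
  have hg1 : 1 ≤ y * e * y⁻¹ := nk_one_conj he
  have hzadj : z ∈ (Q.adj (y * e * y⁻¹) hg1).carrier := by
    by_contra hcon
    exact hg (hmax _ (Q.le_adj _ hg1) hcon (Q.mem_adj _ hg1))
  obtain ⟨r, hr, hr1, K, hK⟩ := hzadj
  obtain ⟨f, hf, hf1, N, hfN⟩ := nk_push hN Q hr1 hr hg1 K
  have hzf : z ≤ f * (y * e * y⁻¹) ^ N := by
    rw [ab_of_one_le hz1] at hK
    exact hK.trans hfN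
  have hyf : f⁻¹ * y ≤ (y * e * y⁻¹) ^ N := by
    have := nk_mul_left (hy.trans hzf) f⁻¹
    simpa using this
  have h2 : (y * e * y⁻¹) ^ N * f⁻¹ * (y * y) ≤ (e ^ (2 * N)) ^ 2 * (y * y) := by
    calc (y * e * y⁻¹) ^ N * f⁻¹ * (y * y) = (y * e * y⁻¹) ^ N * (f⁻¹ * y) * y := by group
      _ ≤ (y * e * y⁻¹) ^ N * (y * e * y⁻¹) ^ N * y :=
        nk_mul_right (nk_mul_left hyf _) y
      _ = y * e ^ (2 * N) := by
        rw [← pow_add, nk_conj_pow, ← two_mul]; group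
      _ ≤ (e ^ (2 * N)) ^ 2 * (y * y) := by
        have h3 := hN y (e ^ (2 * N)) hy1 (nk_one_pow he _)
        rw [pow_two y] at h3
        exact h3
  have h4 : (y * e * y⁻¹) ^ N * f⁻¹ ≤ (e ^ (2 * N)) ^ 2 := nk_cancel_right h2
  have h5 : (y * e * y⁻¹) ^ N ≤ (e ^ (2 * N)) ^ 2 * f := by
    have := nk_mul_right h4 f
    simpa using this
  have h6 : (e ^ (2 * N)) ^ 2 * f ∈ Q.carrier :=
    Q.mul_mem _ _ (Q.pow_mem (Q.pow_mem heQ _) _) hf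
  rcases Nat.eq_zero_or_pos N with hN0 | hNpos
  · subst hN0
    simp only [pow_zero, mul_one] at hzf
    exact hz (Q.conv hf hz1 hzf)
  · exact hg (Q.conv h6 hg1 ((nk_le_pow hg1 hNpos).trans h5))

/-- Iterated conjugation. -/
theorem nk_conj_iter (hN : ∀ x y : T, 1 ≤ x → 1 ≤ y → x * y ≤ y ^ 2 * x ^ 2) (Q : Cvx T) {z : T}
    (hz1 : 1 ≤ z) (hz : z ∉ Q.carrier)
    (hmax : ∀ S : Cvx T, Q.carrier ⊆ S.carrier → z ∉ S.carrier → S.carrier ⊆ Q.carrier)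
    {e y : T} (he : 1 ≤ e) (heQ : e ∈ Q.carrier) (hy1 : 1 ≤ y) (hy : y ≤ z) (n : ℕ) :
    1 ≤ y ^ n * e * (y ^ n)⁻¹ ∧ y ^ n * e * (y ^ n)⁻¹ ∈ Q.carrier := by
  induction n with
  | zero => simpa using ⟨he, heQ⟩
  | succ n ih =>
    have h : y ^ (n + 1) * e * (y ^ (n + 1))⁻¹ = y * (y ^ n * e * (y ^ n)⁻¹) * y⁻¹ := by
      rw [pow_succ' y n]; group
    rw [h]
    exact ⟨nk_one_conj ih.1, nk_conj hN Q hz1 hz hmax ih.1 ih.2 hy1 hy⟩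

/-- `(e y)^n ≤ e' y^n`. -/
theorem nk_pow_mul (hN : ∀ x y : T, 1 ≤ x → 1 ≤ y → x * y ≤ y ^ 2 * x ^ 2) (Q : Cvx T) {z : T}
    (hz1 : 1 ≤ z) (hz : z ∉ Q.carrier)
    (hmax : ∀ S : Cvx T, Q.carrier ⊆ S.carrier → z ∉ S.carrier → S.carrier ⊆ Q.carrier)
    {e y : T} (he : 1 ≤ e) (heQ : e ∈ Q.carrier) (hy1 : 1 ≤ y) (hy : y ≤ z) (n : ℕ) :
    ∃ e' ∈ Q.carrier, 1 ≤ e' ∧ (e * y) ^ n = e' * y ^ n := by
  induction n with
  | zero => exact ⟨1, Q.one_mem, le_refl _, by simp⟩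
  | succ n ih =>
    obtain ⟨e', he', he1, h⟩ := ih
    obtain ⟨h3, h4⟩ := nk_conj_iter hN Q hz1 hz hmax he heQ hy1 hy n
    refine ⟨e' * (y ^ n * e * (y ^ n)⁻¹), Q.mul_mem _ _ he' h4, nk_one_mul he1 h3, ?_⟩
    rw [pow_succ, h, pow_succ]
    group

end aux

theorem normal_key {T : Type} [LGrp T]
    (hN : ∀ x y : T, 1 ≤ x → 1 ≤ y → x * y ≤ y ^ 2 * x ^ 2) (a b c d : T)
    (ha : 1 ≤ a) (hb : 1 ≤ b) (hc : 1 ≤ c) (hd : 1 ≤ d) (m q m' : ℕ) (hm : m' < m) (hq : 0 < q)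
    (h1 : a ^ m ≤ b ^ q) (h2 : d ^ q ≤ c ^ m') :
    (a * c⁻¹) ⊓ (d * b⁻¹) ⊔ 1 = 1 := by
  by_contra hu
  have hubot : (a * c⁻¹) ⊓ (d * b⁻¹) ⊔ 1 ∉ (Cvx.bot T).carrier := hu
  obtain ⟨P, -, huP, hPmax⟩ := (Cvx.bot T).exists_max _ hubot
  have hu1 : 1 ≤ (a * c⁻¹) ⊓ (d * b⁻¹) ⊔ 1 := le_sup_right
  -- `s₁ = a c⁻¹ ⊔ 1 ∉ P`
  have hs1 : a * c⁻¹ ⊔ 1 ∉ P.carrier := fun h =>
    huP (P.conv h hu1 (sup_le_sup_right inf_le_left _))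
  have hs2 : d * b⁻¹ ⊔ 1 ∉ P.carrier := fun h =>
    huP (P.conv h hu1 (sup_le_sup_right inf_le_right _))
  have he1 : c * a⁻¹ ⊔ 1 ∈ P.carrier := by
    have h := P.prime_of_max _ huP hPmax _ _ (pos_neg_disj (a * c⁻¹))
    rw [mul_inv_rev, inv_inv] at h
    exact h.resolve_left hs1
  have he2 : b * d⁻¹ ⊔ 1 ∈ P.carrier := by
    have h := P.prime_of_max _ huP hPmax _ _ (pos_neg_disj (d * b⁻¹))
    rw [mul_inv_rev, inv_inv] at h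
    exact h.resolve_left hs2
  have he11 : (1 : T) ≤ c * a⁻¹ ⊔ 1 := le_sup_right
  have he21 : (1 : T) ≤ b * d⁻¹ ⊔ 1 := le_sup_right
  have hca : c ≤ (c * a⁻¹ ⊔ 1) * a := by
    have h : c * a⁻¹ * a ≤ (c * a⁻¹ ⊔ 1) * a := nk_mul_right le_sup_left a
    simpa using h
  have hbd : b ≤ (b * d⁻¹ ⊔ 1) * d := by
    have h : b * d⁻¹ * d ≤ (b * d⁻¹ ⊔ 1) * d := nk_mul_right le_sup_left d
    simpa using h
  -- `z = a b c d`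
  have hab : 1 ≤ a * b := nk_one_mul ha hb
  have hcd : 1 ≤ c * d := nk_one_mul hc hd
  have hz1 : 1 ≤ (a * b) * (c * d) := nk_one_mul hab hcd
  have haz : a ≤ (a * b) * (c * d) := (nk_le_mul_right hb).trans (nk_le_mul_right hcd)
  have hcz : c ≤ (a * b) * (c * d) := (nk_le_mul_right hd).trans (nk_le_mul_left hab)
  have hdz : d ≤ (a * b) * (c * d) := (nk_le_mul_left hc).trans (nk_le_mul_left hab)
  have hzP : (a * b) * (c * d) ∉ P.carrier := by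
    intro h
    have haP : a ∈ P.carrier := P.conv h ha haz
    have hcP : c ∈ P.carrier := P.conv h hc hcz
    exact hs1 (P.sup_mem (P.mul_mem _ _ haP (P.inv_mem _ hcP)) P.one_mem)
  obtain ⟨Q, hPQ, hzQ, hQmax⟩ := P.exists_max _ hzP
  have hq1 : c * a⁻¹ ⊔ 1 ∈ Q.carrier := hPQ he1
  have hq2 : b * d⁻¹ ⊔ 1 ∈ Q.carrier := hPQ he2
  obtain ⟨f, hf, hf1, hfe⟩ := nk_pow_mul hN Q hz1 hzQ hQmax he21 hq2 hd hdz q
  obtain ⟨g, hg, hg1, hge⟩ := nk_pow_mul hN Q hz1 hzQ hQmax he11 hq1 ha haz m'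
  have h3 : a ^ m ≤ f * g * a ^ m' := by
    calc a ^ m ≤ b ^ q := h1
      _ ≤ ((b * d⁻¹ ⊔ 1) * d) ^ q := nk_pow_mono hbd q
      _ = f * d ^ q := hfe
      _ ≤ f * c ^ m' := nk_mul_left h2 f
      _ ≤ f * ((c * a⁻¹ ⊔ 1) * a) ^ m' := nk_mul_left (nk_pow_mono hca m') f
      _ = f * g * a ^ m' := by rw [hge, mul_assoc]
  have h4 : a ^ (m - m') ≤ f * g := by
    have h5 : a ^ (m - m') * a ^ m' ≤ f * g * a ^ m' := by
      rw [← pow_add, Nat.sub_add_cancel hm.le]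
      exact h3
    exact nk_cancel_right h5
  have haQ : a ∈ Q.carrier :=
    Q.conv (Q.mul_mem _ _ hf hg) ha ((nk_le_pow ha (by omega)).trans h4)
  have hcQ : c ∈ Q.carrier := Q.conv (Q.mul_mem _ _ hq1 haQ) hc hca
  have hdQ : d ∈ Q.carrier := Q.conv (Q.pow_mem hcQ m') hd ((nk_le_pow hd hq).trans h2)
  have hbQ : b ∈ Q.carrier := Q.conv (Q.mul_mem _ _ hq2 hdQ) hb hbd
  exact hzQ (Q.mul_mem _ _ (Q.mul_mem _ _ haQ hbQ) (Q.mul_mem _ _ hcQ hdQ))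

end LG39
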