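import Pool.Agent.LG39.Int

/-!
# The wreath product
-/

namespace LG39

/-- `(f, c) ≤ (g, d)` iff `c < d`, or `c = d` and `f ≤ g`. -/
noncomputable instance Wr.instLGrp : LGrp Wr where
  mul a b := ⟨fun p => a.f p + b.f (p + a.c), a.c + b.c⟩
  one := ⟨fun _ => 0, 0⟩
  inv a := ⟨fun p => -a.f (p - a.c), -a.c⟩
  mul_assoc a b c := by
    apply Wr.ext
    · funext p
      show a.f p + b.f (p + a.c) + c.f (p + (a.c + b.c)) =
        a.f p + (b.f (p + a.c) + c.f (p + a.c + b.c))
      rw [add_assoc, ← add_assoc p]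
    · exact add_assoc _ _ _
  one_mul a := by
    apply Wr.ext
    · funext p
      show 0 + a.f (p + 0) = a.f p
      rw [zero_add, add_zero]
    · exact zero_add _
  mul_one a := by
    apply Wr.ext
    · funext p
      show a.f p + 0 = a.f p
      rw [add_zero]
    · exact add_zero _
  inv_mul_cancel a := by
    apply Wr.ext
    · funext p
      show -a.f (p - a.c) + a.f (p + -a.c) = 0
      rw [← sub_eq_add_neg]
      exact neg_add_cancel _
    · exact neg_add_cancel _
  le a b := a.c < b.c ∨ a.c = b.c ∧ ∀ p, a.f p ≤ b.f p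
  le_refl a := Or.inr ⟨rfl, fun p => le_refl _⟩
  le_trans a b c h1 h2 := by
    rcases h1 with h1 | ⟨h1, h1'⟩ <;> rcases h2 with h2 | ⟨h2, h2'⟩
    · exact Or.inl (lt_trans h1 h2)
    · exact Or.inl (h2 ▸ h1)
    · exact Or.inl (h1 ▸ h2)
    · exact Or.inr ⟨h1.trans h2, fun p => (h1' p).trans (h2' p)⟩
  le_antisymm a b h1 h2 := by
    rcases h1 with h1 | ⟨h1, h1'⟩ <;> rcases h2 with h2 | ⟨h2, h2'⟩
    · exact absurd (lt_trans h1 h2) (lt_irrefl _)
    · exact absurd h2 h1.ne'
    · exact absurd h1 h2.ne'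
    · exact Wr.ext (funext fun p => le_antisymm (h1' p) (h2' p)) h1
  inf a b := if a.c < b.c then a else if b.c < a.c then b else ⟨fun p => min (a.f p) (b.f p), a.c⟩
  sup a b := if a.c < b.c then b else if b.c < a.c then a else ⟨fun p => max (a.f p) (b.f p), a.c⟩
  le_sup_left a b := by
    show a.c < Wr.c (if a.c < b.c then b else if b.c < a.c then a else _) ∨ _
    split_ifs with h1 h2
    · exact Or.inl h1
    · exact Or.inr ⟨rfl, fun p => le_refl _⟩
    · exact Or.inr ⟨rfl, fun p => le_max_left _ _⟩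
  le_sup_right a b := by
    show b.c < Wr.c (if a.c < b.c then b else if b.c < a.c then a else _) ∨ _
    split_ifs with h1 h2
    · exact Or.inr ⟨rfl, fun p => le_refl _⟩
    · exact Or.inl h2
    · exact Or.inr ⟨by show b.c = a.c; omega, fun p => le_max_right _ _⟩
  sup_le a b c h1 h2 := by
    show Wr.c (if a.c < b.c then b else if b.c < a.c then a else _) < c.c ∨ _
    split_ifs with h3 h4
    · exact h2
    · exact h1
    · rcases h1 with h1 | ⟨h1, h1'⟩ <;> rcases h2 with h2 | ⟨h2, h2'⟩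
      · exact Or.inl h1
      · exact Or.inl h1
      · exact Or.inl (by show a.c < c.c; omega)
      · exact Or.inr ⟨h1, fun p => max_le (h1' p) (h2' p)⟩
  inf_le_left a b := by
    show Wr.c (if a.c < b.c then a else if b.c < a.c then b else _) < a.c ∨ _
    split_ifs with h1 h2
    · exact Or.inr ⟨rfl, fun p => le_refl _⟩
    · exact Or.inl h2
    · exact Or.inr ⟨rfl, fun p => min_le_left _ _⟩
  inf_le_right a b := by
    show Wr.c (if a.c < b.c then a else if b.c < a.c then b else _) < b.c ∨ _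
    split_ifs with h1 h2
    · exact Or.inl h1
    · exact Or.inr ⟨rfl, fun p => le_refl _⟩
    · exact Or.inr ⟨by show a.c = b.c; omega, fun p => min_le_right _ _⟩
  le_inf a b c h1 h2 := by
    show a.c < Wr.c (if b.c < c.c then b else if c.c < b.c then c else _) ∨ _
    split_ifs with h3 h4
    · exact h1
    · exact h2
    · rcases h1 with h1 | ⟨h1, h1'⟩ <;> rcases h2 with h2 | ⟨h2, h2'⟩
      · exact Or.inl h1
      · exact Or.inl h1
      · exact Or.inl (by show a.c < b.c; omega)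
      · exact Or.inr ⟨h1, fun p => le_min (h1' p) (h2' p)⟩
  mul_le_mul_l a b h c := by
    rcases h with h | ⟨h, h'⟩
    · exact Or.inl (by show c.c + a.c < c.c + b.c; omega)
    · refine Or.inr ⟨by show c.c + a.c = c.c + b.c; omega, fun p => ?_⟩
      show c.f p + a.f (p + c.c) ≤ c.f p + b.f (p + c.c)
      exact add_le_add_right (h' _) _
  mul_le_mul_r a b h c := by
    rcases h with h | ⟨h, h'⟩
    · exact Or.inl (by show a.c + c.c < b.c + c.c; omega)
    · refine Or.inr ⟨by show a.c + c.c = b.c + c.c; omega, fun p => ?_⟩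
      show a.f p + c.f (p + a.c) ≤ b.f p + c.f (p + b.c)
      rw [h]
      exact add_le_add_left (h' _) _

/-- `j` on the even blocks, `l` on the odd blocks, and a shift by `2 * c` blocks. -/
def wr (c j l : ℤ) : Wr := ⟨fun p => if p % 2 = 0 then j else l, 2 * c⟩

theorem wr_inj (c j l c' j' l' : ℤ) : wr c j l = wr c' j' l' ↔ c = c' ∧ j = j' ∧ l = l' := by
  constructor
  · intro h
    have h1 : 2 * c = 2 * c' := congrArg Wr.c h
    have h2 := congrFun (congrArg Wr.f h) 0
    have h3 := congrFun (congrArg Wr.f h) 1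
    simp [wr] at h2 h3
    exact ⟨by omega, h2, h3⟩
  · rintro ⟨rfl, rfl, rfl⟩
    rfl

theorem wr_mul (c j l c' j' l' : ℤ) :
    wr c j l * wr c' j' l' = wr (c + c') (j + j') (l + l') := by
  apply Wr.ext
  · funext p
    show (if p % 2 = 0 then j else l) + (if (p + 2 * c) % 2 = 0 then j' else l') =
      if p % 2 = 0 then j + j' else l + l'
    have : (p + 2 * c) % 2 = p % 2 := by omega
    rw [this]
    split_ifs <;> rfl
  · show 2 * c + 2 * c' = 2 * (c + c')
    ring

theorem wr_one : (1 : Wr) = wr 0 0 0 := by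
  apply Wr.ext
  · funext p
    show (0 : ℤ) = if p % 2 = 0 then 0 else 0
    split_ifs <;> rfl
  · rfl

theorem wr_inv (c j l : ℤ) : (wr c j l)⁻¹ = wr (-c) (-j) (-l) := by
  rw [inv_eq_iff_mul_eq_one, wr_mul, wr_one]
  simp

theorem wr_sup (c j l c' j' l' : ℤ) : wr c j l ⊔ wr c' j' l' =
    if c < c' then wr c' j' l' else if c' < c then wr c j l else
      wr c (max j j') (max l l') := by
  show (if 2 * c < 2 * c' then wr c' j' l' else if 2 * c' < 2 * c then wr c j l else
    ⟨fun p => max (if p % 2 = 0 then j else l) (if p % 2 = 0 then j' else l'), 2 * c⟩) = _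
  by_cases h1 : c < c'
  · rw [if_pos h1, if_pos (by omega)]
  · rw [if_neg h1, if_neg (by omega)]
    by_cases h2 : c' < c
    · rw [if_pos h2, if_pos (by omega)]
    · rw [if_neg h2, if_neg (by omega)]
      apply Wr.ext
      · funext p
        show max (if p % 2 = 0 then j else l) (if p % 2 = 0 then j' else l') =
          if p % 2 = 0 then max j j' else max l l'
        split_ifs <;> rfl
      · rfl

theorem wr_inf (c j l c' j' l' : ℤ) : wr c j l ⊓ wr c' j' l' =
    if c < c' then wr c j l else if c' < c then wr c' j' l' else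
      wr c (min j j') (min l l') := by
  show (if 2 * c < 2 * c' then wr c j l else if 2 * c' < 2 * c then wr c' j' l' else
    ⟨fun p => min (if p % 2 = 0 then j else l) (if p % 2 = 0 then j' else l'), 2 * c⟩) = _
  by_cases h1 : c < c'
  · rw [if_pos h1, if_pos (by omega)]
  · rw [if_neg h1, if_neg (by omega)]
    by_cases h2 : c' < c
    · rw [if_pos h2, if_pos (by omega)]
    · rw [if_neg h2, if_neg (by omega)]
      apply Wr.ext
      · funext p
        show min (if p % 2 = 0 then j else l) (if p % 2 = 0 then j' else l') =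
          if p % 2 = 0 then min j j' else min l l'
        split_ifs <;> rfl
      · rfl

/-- A linear inequality for large arguments. -/
theorem ev_lt (C C' J J' : ℤ) (h : C < C') :
    ∃ M : ℕ, ∀ m : ℕ, M ≤ m → C * m + J < C' * m + J' := by
  refine ⟨(J - J').toNat + 1, fun m hm => ?_⟩
  have h1 : J - J' < m := by omega
  have h2 : (1 : ℤ) * m ≤ (C' - C) * m :=
    mul_le_mul_of_nonneg_right (by omega) (by omega)
  nlinarith

/-- Induction on `t`, as in `lex_approx`. -/
theorem wr_approx (v : ℕ → ℤ × ℤ × ℤ) (t : Tm ℕ) :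
    ∃ C J L : ℤ, t.eval (fun i => wr (v i).1 (v i).2.1 (v i).2.2) = wr C J L ∧
      ∃ M : ℕ, ∀ m : ℕ, M ≤ m →
        t.evalZ (fun i => (v i).1 * m + (v i).2.1) = C * m + J ∧
        t.evalZ (fun i => (v i).1 * m + (v i).2.2) = C * m + L := by
  induction t with
  | var x => exact ⟨(v x).1, (v x).2.1, (v x).2.2, rfl, 0, fun m _ => ⟨rfl, rfl⟩⟩
  | one => exact ⟨0, 0, 0, wr_one, 0, fun m _ => by simp [Tm.evalZ]⟩
  | mul s t hs ht =>
    obtain ⟨C, J, L, h1, M, hM⟩ := hs
    obtain ⟨C', J', L', h1', M', hM'⟩ := ht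
    refine ⟨C + C', J + J', L + L', ?_, max M M', fun m hm => ?_⟩
    · simp only [Tm.eval, h1, h1', wr_mul]
    · obtain ⟨h2, h3⟩ := hM m (le_trans (le_max_left _ _) hm)
      obtain ⟨h2', h3'⟩ := hM' m (le_trans (le_max_right _ _) hm)
      simp only [Tm.evalZ, h2, h3, h2', h3']
      constructor <;> ring
  | inv s hs =>
    obtain ⟨C, J, L, h1, M, hM⟩ := hs
    refine ⟨-C, -J, -L, ?_, M, fun m hm => ?_⟩
    · simp only [Tm.eval, h1, wr_inv]
    · obtain ⟨h2, h3⟩ := hM m hm
      simp only [Tm.evalZ, h2, h3]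
      constructor <;> ring
  | inf s t hs ht =>
    obtain ⟨C, J, L, h1, M, hM⟩ := hs
    obtain ⟨C', J', L', h1', M', hM'⟩ := ht
    rcases lt_trichotomy C C' with h | h | h
    · obtain ⟨A, hA⟩ := ev_lt C C' J J' h
      obtain ⟨B, hB⟩ := ev_lt C C' L L' h
      refine ⟨C, J, L, ?_, M + M' + A + B, fun m hm => ?_⟩
      · simp only [Tm.eval, h1, h1', wr_inf, if_pos h]
      · obtain ⟨h2, h3⟩ := hM m (by omega)
        obtain ⟨h2', h3'⟩ := hM' m (by omega)
        simp only [Tm.evalZ, h2, h3, h2', h3']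
        exact ⟨min_eq_left (hA m (by omega)).le, min_eq_left (hB m (by omega)).le⟩
    · subst h
      refine ⟨C, min J J', min L L', ?_, M + M', fun m hm => ?_⟩
      · simp only [Tm.eval, h1, h1', wr_inf, lt_irrefl, if_false]
      · obtain ⟨h2, h3⟩ := hM m (by omega)
        obtain ⟨h2', h3'⟩ := hM' m (by omega)
        simp only [Tm.evalZ, h2, h3, h2', h3']
        exact ⟨min_add_add_left _ _ _, min_add_add_left _ _ _⟩
    · obtain ⟨A, hA⟩ := ev_lt C' C J' J h
      obtain ⟨B, hB⟩ := ev_lt C' C L' L h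
      refine ⟨C', J', L', ?_, M + M' + A + B, fun m hm => ?_⟩
      · simp only [Tm.eval, h1, h1', wr_inf, if_neg (not_lt.2 h.le), if_pos h]
      · obtain ⟨h2, h3⟩ := hM m (by omega)
        obtain ⟨h2', h3'⟩ := hM' m (by omega)
        simp only [Tm.evalZ, h2, h3, h2', h3']
        exact ⟨min_eq_right (hA m (by omega)).le, min_eq_right (hB m (by omega)).le⟩
  | sup s t hs ht =>
    obtain ⟨C, J, L, h1, M, hM⟩ := hs
    obtain ⟨C', J', L', h1', M', hM'⟩ := ht
    rcases lt_trichotomy C C' with h | h | h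
    · obtain ⟨A, hA⟩ := ev_lt C C' J J' h
      obtain ⟨B, hB⟩ := ev_lt C C' L L' h
      refine ⟨C', J', L', ?_, M + M' + A + B, fun m hm => ?_⟩
      · simp only [Tm.eval, h1, h1', wr_sup, if_pos h]
      · obtain ⟨h2, h3⟩ := hM m (by omega)
        obtain ⟨h2', h3'⟩ := hM' m (by omega)
        simp only [Tm.evalZ, h2, h3, h2', h3']
        exact ⟨max_eq_right (hA m (by omega)).le, max_eq_right (hB m (by omega)).le⟩
    · subst h
      refine ⟨C, max J J', max L L', ?_, M + M', fun m hm => ?_⟩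
      · simp only [Tm.eval, h1, h1', wr_sup, lt_irrefl, if_false]
      · obtain ⟨h2, h3⟩ := hM m (by omega)
        obtain ⟨h2', h3'⟩ := hM' m (by omega)
        simp only [Tm.evalZ, h2, h3, h2', h3']
        exact ⟨max_add_add_left _ _ _, max_add_add_left _ _ _⟩
    · obtain ⟨A, hA⟩ := ev_lt C' C J' J h
      obtain ⟨B, hB⟩ := ev_lt C' C L' L h
      refine ⟨C, J, L, ?_, M + M' + A + B, fun m hm => ?_⟩
      · simp only [Tm.eval, h1, h1', wr_sup, if_neg (not_lt.2 h.le), if_pos h]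
      · obtain ⟨h2, h3⟩ := hM m (by omega)
        obtain ⟨h2', h3'⟩ := hM' m (by omega)
        simp only [Tm.evalZ, h2, h3, h2', h3']
        exact ⟨max_eq_left (hA m (by omega)).le, max_eq_left (hB m (by omega)).le⟩

/-- The homomorphism of the lexicographic product onto the shifts. -/
theorem lex_to_wr : ∃ f : Lex2 → Wr, IsLHom f ∧ ∀ a b, f (lx a b) = ⟨fun _ => 0, a⟩ := by
  have mono : ∀ a b : Lex2, a ≤ b →
      (⟨fun _ => 0, (ofLex (Multiplicative.toAdd a)).1⟩ : Wr) ≤
        ⟨fun _ => 0, (ofLex (Multiplicative.toAdd b)).1⟩ := by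
    intro a b h
    have h' : Multiplicative.toAdd a ≤ Multiplicative.toAdd b := h
    rw [Prod.Lex.le_iff] at h'
    rcases h' with h' | h'
    · exact Or.inl h'
    · exact Or.inr ⟨h'.1, fun p => le_refl _⟩
  refine ⟨fun g => ⟨fun _ => 0, (ofLex (Multiplicative.toAdd g)).1⟩, ⟨fun a b => ?_, fun a b => ?_,
    fun a b => ?_⟩, fun a b => rfl⟩
  · exact Wr.ext (funext fun p => (add_zero (0 : ℤ)).symm) rfl
  · rcases le_total a b with h | h
    · rw [inf_eq_left.2 h, inf_eq_left.2 (mono a b h)]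
    · rw [inf_eq_right.2 h, inf_eq_right.2 (mono b a h)]
  · rcases le_total a b with h | h
    · rw [sup_eq_right.2 h, sup_eq_right.2 (mono a b h)]
    · rw [sup_eq_left.2 h, sup_eq_left.2 (mono b a h)]

/-- The value of the test word in the wreath product. -/
theorem wr_test (t : Wr) (ht : t = ⟨fun _ => 0, 1⟩) :
    t ⊓ (wr 1 0 0 * t⁻¹) ⊓ wr 0 1 0 ⊓ (t * wr 0 0 1 * t⁻¹) ⊔ 1 ≠ 1 := by
  subst ht
  intro h
  have h1 : wr 0 1 0 ≤ (⟨fun _ => 0, 1⟩ : Wr) := Or.inl (by show (2 * 0 : ℤ) < 1; norm_num)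
  have h2 : wr 0 1 0 ≤ wr 1 0 0 * (⟨fun _ => 0, 1⟩ : Wr)⁻¹ :=
    Or.inl (by show (2 * 0 : ℤ) < 2 * 1 + -1; norm_num)
  have h3 : wr 0 1 0 ≤ (⟨fun _ => 0, 1⟩ : Wr) * wr 0 0 1 * (⟨fun _ => 0, 1⟩ : Wr)⁻¹ := by
    refine Or.inr ⟨by show (2 * 0 : ℤ) = 1 + 2 * 0 + -1; norm_num, fun p => ?_⟩
    show (if p % 2 = 0 then (1 : ℤ) else 0) ≤ 0 + (if (p + 1) % 2 = 0 then 0 else 1) + -0
    split_ifs <;> omega
  have h4 := le_inf (le_inf (le_inf h1 h2) (le_refl (wr 0 1 0))) h3
  have h5 : wr 0 1 0 ≤ 1 := by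
    rw [← h]
    exact h4.trans le_sup_left
  rcases h5 with h5 | ⟨_, h5⟩
  · have h6 : (2 * 0 : ℤ) < 0 := h5
    omega
  · have h6 : (if (0 : ℤ) % 2 = 0 then (1 : ℤ) else 0) ≤ 0 := h5 0
    simp at h6

end LG39
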