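import Pool.Agent.LG39.Grp
import Pool.Agent.LG39.LexA
import Pool.Agent.LG39.WrA

/-!
# Relations in `G`
-/

namespace LG39

/-! ### values at the points -/

/-- The valuation at the point `p`. -/
def vp (p : Pt) : ℕ → ℤ :=
  v4 (p.1.2.1, p.1.1 * p.1.2.1, (if p.1.2.2 then 0 else 1), (if p.1.2.2 then 1 else 0))

theorem val_eq (t : Tm ℕ) (p : Pt) :
    (t.eval gg).1 p = Multiplicative.ofAdd (t.evalZ (vp p)) := by
  rw [SubGen.eval_gen]
  have h1 := (proj_hom (K := Zm) p).eval gx t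
  rw [h1]
  exact eval_Zm (vp p) t

theorem le_of_vals (s t : Tm ℕ) (h : ∀ p, s.evalZ (vp p) ≤ t.evalZ (vp p)) :
    s.eval gg ≤ t.eval gg := by
  show (s.eval gg).1 ≤ (t.eval gg).1
  intro p
  rw [val_eq, val_eq]
  exact h p

theorem eq_of_vals (s t : Tm ℕ) (h : ∀ p, s.evalZ (vp p) = t.evalZ (vp p)) :
    s.eval gg = t.eval gg := by
  apply Subtype.ext
  funext p
  rw [val_eq, val_eq, h p]

theorem pw_evalZ (n : ℕ) (t : Tm ℕ) (v : ℕ → ℤ) : (pw n t).evalZ v = n * t.evalZ v := by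
  induction n with
  | zero => simp [pw, Tm.evalZ]
  | succ n ih => simp only [pw, Tm.evalZ, ih]; push_cast; ring

theorem kT_evalZ (n : ℕ) (p : Pt) :
    (kT n).evalZ (vp p) = if p.1.1 = n then (p.1.2.1 : ℤ) else 0 := by
  obtain ⟨⟨a, m, e⟩, hp⟩ := p
  have hm : (0 : ℤ) < m := by have := hp.1; simp only at this; omega
  simp only [kT, Tm.evalZ, pw_evalZ, vp, v4]
  split_ifs with h
  · subst h
    push_cast
    simp
  · push_cast
    rcases lt_or_gt_of_ne h with h' | h'
    · have h2 : (a : ℤ) + 1 ≤ n := by exact_mod_cast h'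
      apply max_eq_right
      have h3 : (a : ℤ) * m + -((n : ℤ) * m) ≤ -m := by nlinarith
      have h4 : -((a : ℤ) * m + -((n : ℤ) * m)) ≤
        max ((a : ℤ) * m + -((n : ℤ) * m)) (-((a : ℤ) * m + -((n : ℤ) * m))) := le_max_right _ _
      linarith
    · have h2 : (n : ℤ) + 1 ≤ a := by exact_mod_cast h'
      apply max_eq_right
      have h3 : (m : ℤ) ≤ (a : ℤ) * m + -((n : ℤ) * m) := by nlinarith
      have h4 : ((a : ℤ) * m + -((n : ℤ) * m)) ≤
        max ((a : ℤ) * m + -((n : ℤ) * m)) (-((a : ℤ) * m + -((n : ℤ) * m))) := le_max_left _ _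
      linarith

theorem sT_evalZ (n : ℕ) (p : Pt) :
    (sT n).evalZ (vp p) = if p.1.1 = n then (if p.1.2.2 then 0 else 1) else 0 := by
  have hk := kT_evalZ n p
  have hm : (1 : ℤ) ≤ p.1.2.1 := by have := p.2.1; omega
  have h2 : (vp p) 2 = if p.1.2.2 then 0 else 1 := by
    simp only [vp, v4]; split_ifs <;> simp
  simp only [sT, Tm.evalZ, hk, h2]
  split_ifs <;> simp [hm]

theorem hT_evalZ (n : ℕ) (p : Pt) :
    (hT n).evalZ (vp p) = if p.1.1 = n then (if p.1.2.2 then 1 else 0) else 0 := by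
  have hk := kT_evalZ n p
  have hm : (1 : ℤ) ≤ p.1.2.1 := by have := p.2.1; omega
  have h2 : (vp p) 3 = if p.1.2.2 then 1 else 0 := by
    simp only [vp, v4]; split_ifs <;> simp
  simp only [hT, Tm.evalZ, hk, h2]
  split_ifs <;> simp [hm]

/-- At the point `(n', m, e)` the elements `k_n, s_n, h_n` are `m, 1 - e, e` if `n' = n` and `0`
otherwise. -/
theorem rel_basic (n : ℕ) : 1 ≤ (kT n).eval gg ∧ 1 ≤ (sT n).eval gg ∧ 1 ≤ (hT n).eval gg ∧
    (sT n).eval gg ⊓ (hT n).eval gg = 1 := by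
  refine ⟨le_of_vals .one _ fun p => ?_, le_of_vals .one _ fun p => ?_,
    le_of_vals .one _ fun p => ?_, eq_of_vals (.inf (sT n) (hT n)) .one fun p => ?_⟩
  · rw [kT_evalZ]; simp only [Tm.evalZ]; split_ifs <;> simp
  · rw [sT_evalZ]; simp only [Tm.evalZ]; split_ifs <;> simp
  · rw [hT_evalZ]; simp only [Tm.evalZ]; split_ifs <;> simp
  · simp only [Tm.evalZ]
    rw [sT_evalZ, hT_evalZ]
    split_ifs <;> simp

theorem pw_eval {G : Type} [LGrp G] (n : ℕ) (t : Tm ℕ) (v : ℕ → G) :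
    (pw n t).eval v = t.eval v ^ n := by
  induction n with
  | zero => simp [pw, Tm.eval]
  | succ n ih => simp only [pw, Tm.eval, ih, pow_succ]

/-- If program `n` halts then `m` is bounded on the points `(n, m, e)`. -/
theorem rel_halt (n : ℕ) (h : ∃ m, HaltsIn n m) :
    ∃ M : ℕ, 0 < M ∧ (kT n).eval gg ≤ ((sT n).eval gg * (hT n).eval gg) ^ M := by
  obtain ⟨m0, hm0⟩ := h
  refine ⟨n + 1 + m0, by omega, ?_⟩
  have e1 : ((sT n).eval gg * (hT n).eval gg) ^ (n + 1 + m0)
      = (pw (n + 1 + m0) (.mul (sT n) (hT n))).eval gg := by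
    rw [pw_eval]; rfl
  rw [e1]
  apply le_of_vals
  intro p
  rw [kT_evalZ, pw_evalZ]
  simp only [Tm.evalZ]
  rw [sT_evalZ, hT_evalZ]
  obtain ⟨⟨a, m, e⟩, hp⟩ := p
  simp only at hp ⊢
  split_ifs with h1 h2
  · subst h1
    have : m ≤ a + 1 + m0 := by
      rcases hp.2 with h3 | h3
      · omega
      · by_contra h4
        exact h3 (haltsIn_mono (by omega) hm0)
    have : (m : ℤ) ≤ a + 1 + m0 := by exact_mod_cast this
    push_cast
    linarith
  · subst h1
    have : m ≤ a + 1 + m0 := by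
      rcases hp.2 with h3 | h3
      · omega
      · by_contra h4
        exact h3 (haltsIn_mono (by omega) hm0)
    have : (m : ℤ) ≤ a + 1 + m0 := by exact_mod_cast this
    push_cast
    linarith
  · simp

theorem kT_eval {G : Type} [LGrp G] (n : ℕ) (v : ℕ → G) (h : v 1 = v 0 ^ n) :
    (kT n).eval v = v 0 ⊔ 1 := by
  simp only [kT, Tm.eval, pw_eval, h, mul_inv_cancel, inv_one, sup_idem, mul_one]

theorem hom_of_gens {L : Type} [LGrp L] (w : ℕ → L)
    (h : ∀ s t : Tm ℕ, s.eval gx = t.eval gx → s.eval w = t.eval w) :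
    ∃ f : GG → L, IsLHom f ∧ ∀ t : Tm ℕ, f (t.eval gg) = t.eval w := by
  obtain ⟨f, hf, hw⟩ := SubGen.lift gx w h
  refine ⟨f, hf, fun t => ?_⟩
  rw [hf.eval]
  congr 1
  funext x
  exact hw x

theorem evalZ_of_eval_gx {s t : Tm ℕ} (h : s.eval gx = t.eval gx) (p : Pt) :
    s.evalZ (vp p) = t.evalZ (vp p) := by
  have h1 := val_eq s p
  have h2 := val_eq t p
  rw [SubGen.eval_gen] at h1 h2
  rw [h, h2] at h1
  exact (Multiplicative.ofAdd.injective h1).symm

/-- If program `n` does not halt: `k, x, s, h ↦ (2,0), (2n,0), (0,1), 1` (`lex_approx`, the points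
`(n, 2 m, false)`). -/
theorem hom_lex (n : ℕ) (h : ∀ m, ¬ HaltsIn n m) : ∃ f : GG → Lex2, IsLHom f ∧
    f ((kT n).eval gg) = lx 2 0 ∧ f ((sT n).eval gg) = lx 0 1 ∧ f ((hT n).eval gg) = 1 := by
  let v : ℕ → ℤ × ℤ := fun i => match i with
    | 0 => (2, 0)
    | 1 => (2 * n, 0)
    | 2 => (0, 1)
    | _ => (0, 0)
  let w : ℕ → Lex2 := fun i => lx (v i).1 (v i).2
  have key : ∀ s t : Tm ℕ, s.eval gx = t.eval gx → s.eval w = t.eval w := by
    intro s t hst
    obtain ⟨A, B, h1, M, hM⟩ := lex_approx v s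
    obtain ⟨A', B', h1', M', hM'⟩ := lex_approx v t
    have hp : ∀ m : ℕ, n < 2 * m → M ≤ m → M' ≤ m → A * m + B = A' * m + B' := by
      intro m hm h2 h3
      have hpt := evalZ_of_eval_gx hst
        (⟨(n, 2 * m, false), hm, Or.inr (h _)⟩ : Pt)
      have e : vp (⟨(n, 2 * m, false), hm, Or.inr (h _)⟩ : Pt)
          = fun i => (v i).1 * (m : ℤ) + (v i).2 := by
        funext i
        match i with
        | 0 => simp [vp, v4, v]
        | 1 => simp [vp, v4, v]; ring
        | 2 => simp [vp, v4, v]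
        | 3 => simp [vp, v4, v]
        | (j + 4) => simp [vp, v4, v]
      rw [e, hM m h2, hM' m h3] at hpt
      exact hpt
    have h5 := hp (n + 1 + M + M') (by omega) (by omega) (by omega)
    have h6 := hp (n + 1 + M + M' + 1) (by omega) (by omega) (by omega)
    push_cast at h5 h6
    have hA : A = A' := by linarith
    have hB : B = B' := by rw [hA] at h5; linarith
    rw [h1, h1', hA, hB]
  obtain ⟨f, hf, hft⟩ := hom_of_gens w key
  have hw0 : w 0 = lx 2 0 := rfl
  have hw1 : w 1 = w 0 ^ n := by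
    have : ∀ j : ℕ, (lx 2 0) ^ j = lx (2 * j) 0 := by
      intro j
      induction j with
      | zero => simp [← lx_one]
      | succ j ih => rw [pow_succ, ih, lx_mul]; push_cast; congr 1
    rw [hw0, this]
    rfl
  have hk := kT_eval n w hw1
  have h10 : (1 : Lex2) ≤ lx 2 0 := by
    rw [← lx_one, lx_le]; left; norm_num
  rw [hw0, sup_eq_left.2 h10] at hk
  refine ⟨f, hf, ?_, ?_, ?_⟩
  · rw [hft, hk]
  · rw [hft]
    simp only [sT, Tm.eval, hk]
    apply inf_eq_left.2
    show lx 0 1 ≤ lx 2 0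
    rw [lx_le]; left; norm_num
  · rw [hft]
    simp only [hT, Tm.eval, hk]
    have e3 : w 3 = 1 := lx_one
    rw [e3]
    exact inf_eq_left.2 h10

/-- If program `n` does not halt: `k, x, s, h ↦ wr 1 0 0, wr n 0 0, wr 0 1 0, wr 0 0 1`
(`wr_approx`). -/
theorem hom_wr (n : ℕ) (h : ∀ m, ¬ HaltsIn n m) : ∃ f : GG → Wr, IsLHom f ∧
    f ((kT n).eval gg) = wr 1 0 0 ∧ f ((sT n).eval gg) = wr 0 1 0 ∧
    f ((hT n).eval gg) = wr 0 0 1 := by
  let v : ℕ → ℤ × ℤ × ℤ := fun i => match i with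
    | 0 => (1, 0, 0)
    | 1 => (n, 0, 0)
    | 2 => (0, 1, 0)
    | 3 => (0, 0, 1)
    | _ => (0, 0, 0)
  let w : ℕ → Wr := fun i => wr (v i).1 (v i).2.1 (v i).2.2
  have key : ∀ s t : Tm ℕ, s.eval gx = t.eval gx → s.eval w = t.eval w := by
    intro s t hst
    obtain ⟨A, B, D, h1, M, hM⟩ := wr_approx v s
    obtain ⟨A', B', D', h1', M', hM'⟩ := wr_approx v t
    have hp : ∀ m : ℕ, n < m → M ≤ m → M' ≤ m →
        A * m + B = A' * m + B' ∧ A * m + D = A' * m + D' := by
      intro m hm h2 h3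
      have hpt := evalZ_of_eval_gx hst (⟨(n, m, false), hm, Or.inr (h _)⟩ : Pt)
      have hpt' := evalZ_of_eval_gx hst (⟨(n, m, true), hm, Or.inr (h _)⟩ : Pt)
      have e : vp (⟨(n, m, false), hm, Or.inr (h _)⟩ : Pt)
          = fun i => (v i).1 * (m : ℤ) + (v i).2.1 := by
        funext i
        match i with
        | 0 => simp [vp, v4, v]
        | 1 => simp [vp, v4, v]
        | 2 => simp [vp, v4, v]
        | 3 => simp [vp, v4, v]
        | (j + 4) => simp [vp, v4, v]
      have e' : vp (⟨(n, m, true), hm, Or.inr (h _)⟩ : Pt)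
          = fun i => (v i).1 * (m : ℤ) + (v i).2.2 := by
        funext i
        match i with
        | 0 => simp [vp, v4, v]
        | 1 => simp [vp, v4, v]
        | 2 => simp [vp, v4, v]
        | 3 => simp [vp, v4, v]
        | (j + 4) => simp [vp, v4, v]
      rw [e, (hM m h2).1, (hM' m h3).1] at hpt
      rw [e', (hM m h2).2, (hM' m h3).2] at hpt'
      exact ⟨hpt, hpt'⟩
    have h5 := hp (n + 1 + M + M') (by omega) (by omega) (by omega)
    have h6 := hp (n + 1 + M + M' + 1) (by omega) (by omega) (by omega)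
    push_cast at h5 h6
    have hA : A = A' := by linarith [h5.1, h6.1]
    have hB : B = B' := by have := h5.1; rw [hA] at this; linarith
    have hD : D = D' := by have := h5.2; rw [hA] at this; linarith
    rw [h1, h1', hA, hB, hD]
  obtain ⟨f, hf, hft⟩ := hom_of_gens w key
  have hw0 : w 0 = wr 1 0 0 := rfl
  have hw1 : w 1 = w 0 ^ n := by
    have : ∀ j : ℕ, (wr 1 0 0) ^ j = wr j 0 0 := by
      intro j
      induction j with
      | zero =>
        rw [pow_zero]
        show (⟨fun _ => 0, 0⟩ : Wr) = _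
        simp [wr]
      | succ j ih =>
        rw [pow_succ, ih]
        show (⟨_, _⟩ : Wr) = _
        simp only [wr, Wr.mk.injEq]
        constructor
        · funext p; simp
        · push_cast; ring
    rw [hw0, this]
    rfl
  have hk := kT_eval n w hw1
  have h10 : (1 : Wr) ≤ wr 1 0 0 := by
    left
    show (0 : ℤ) < 2 * 1
    norm_num
  rw [hw0, sup_eq_left.2 h10] at hk
  refine ⟨f, hf, ?_, ?_, ?_⟩
  · rw [hft, hk]
  · rw [hft]
    simp only [sT, Tm.eval, hk]
    apply inf_eq_left.2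
    left
    show (2 * 0 : ℤ) < 2 * 1
    norm_num
  · rw [hft]
    simp only [hT, Tm.eval, hk]
    apply inf_eq_left.2
    left
    show (2 * 0 : ℤ) < 2 * 1
    norm_num

end LG39
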