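import Pool.Agent.LG39.Int

/-!
# Uniformity of the integer evaluations

If `v`, `v'` are valuations (vanishing from `4` on) such that every linear form with coefficients
at most `2 c` in absolute value has the same sign at `v` and `v'`, then by induction every term of
size at most `c` is given at `v` and at `v'` by the same linear form, with coefficients at most
the size.
-/

namespace LG39

theorem size_le_code (t : Tm ℕ) : t.size ≤ t.code + 1 := by
  induction t with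
  | var x => simp [Tm.size]
  | one => simp [Tm.size]
  | mul s t hs ht =>
    have h1 := Nat.left_le_pair s.code t.code
    have h2 := Nat.right_le_pair s.code t.code
    simp only [Tm.size, Tm.code]
    omega
  | inv s hs =>
    simp only [Tm.size, Tm.code]
    omega
  | inf s t hs ht =>
    have h1 := Nat.left_le_pair s.code t.code
    have h2 := Nat.right_le_pair s.code t.code
    simp only [Tm.size, Tm.code]
    omega
  | sup s t hs ht =>
    have h1 := Nat.left_le_pair s.code t.code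
    have h2 := Nat.right_le_pair s.code t.code
    simp only [Tm.size, Tm.code]
    omega

/-- The value of a linear form. -/
def lf (a : ℤ × ℤ × ℤ × ℤ) (v : ℕ → ℤ) : ℤ :=
  a.1 * v 0 + a.2.1 * v 1 + a.2.2.1 * v 2 + a.2.2.2 * v 3

/-- The coefficients are bounded by `c`. -/
def bd (a : ℤ × ℤ × ℤ × ℤ) (c : ℕ) : Prop :=
  |a.1| ≤ c ∧ |a.2.1| ≤ c ∧ |a.2.2.1| ≤ c ∧ |a.2.2.2| ≤ c

theorem bd_mono {a : ℤ × ℤ × ℤ × ℤ} {c d : ℕ} (h : bd a c) (hcd : c ≤ d) : bd a d := by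
  have : (c : ℤ) ≤ d := by exact_mod_cast hcd
  exact ⟨h.1.trans this, h.2.1.trans this, h.2.2.1.trans this, h.2.2.2.trans this⟩

theorem bd_add {a b : ℤ × ℤ × ℤ × ℤ} {c d : ℕ} (h : bd a c) (h' : bd b d) :
    bd (a + b) (c + d) := by
  obtain ⟨h1, h2, h3, h4⟩ := h
  obtain ⟨g1, g2, g3, g4⟩ := h'
  simp only [abs_le] at h1 h2 h3 h4 g1 g2 g3 g4
  refine ⟨?_, ?_, ?_, ?_⟩ <;> rw [abs_le] <;>
    simp only [Prod.fst_add, Prod.snd_add, Nat.cast_add] <;> constructor <;> linarith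

theorem bd_neg {a : ℤ × ℤ × ℤ × ℤ} {c : ℕ} (h : bd a c) : bd (-a) c := by
  obtain ⟨h1, h2, h3, h4⟩ := h
  refine ⟨?_, ?_, ?_, ?_⟩ <;> simpa using (by assumption)

theorem lf_add (a b : ℤ × ℤ × ℤ × ℤ) (v : ℕ → ℤ) : lf (a + b) v = lf a v + lf b v := by
  simp only [lf, Prod.fst_add, Prod.snd_add]
  ring

theorem lf_neg (a : ℤ × ℤ × ℤ × ℤ) (v : ℕ → ℤ) : lf (-a) v = -lf a v := by
  simp only [lf, Prod.fst_neg, Prod.snd_neg]
  ring

/-- The valuations `v`, `v'` give the same sign to all linear forms with coefficients bounded by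
`c`. -/
def SameSign (c : ℕ) (v v' : ℕ → ℤ) : Prop :=
  ∀ a, bd a c → (0 ≤ lf a v ↔ 0 ≤ lf a v')

theorem SameSign.zero {c : ℕ} {v v' : ℕ → ℤ} (h : SameSign c v v') (a : ℤ × ℤ × ℤ × ℤ)
    (ha : bd a c) : lf a v = 0 ↔ lf a v' = 0 := by
  have h1 := h a ha
  have h2 := h (-a) (bd_neg ha)
  rw [lf_neg, lf_neg] at h2
  constructor
  · intro h0
    have h3 := h1.1 (by rw [h0])
    have h4 := h2.1 (by rw [h0]; simp)
    linarith
  · intro h0
    have h3 := h1.2 (by rw [h0])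
    have h4 := h2.2 (by rw [h0]; simp)
    linarith

theorem repr_of_sameSign {c : ℕ} {v v' : ℕ → ℤ} (h : SameSign (2 * c) v v')
    (hv : ∀ i, 4 ≤ i → v i = 0) (hv' : ∀ i, 4 ≤ i → v' i = 0) (t : Tm ℕ) (ht : t.size ≤ c) :
    ∃ a, bd a t.size ∧ t.evalZ v = lf a v ∧ t.evalZ v' = lf a v' := by
  induction t with
  | var x =>
    match x with
    | 0 => exact ⟨(1, 0, 0, 0), by simp [bd, Tm.size], by simp [lf, Tm.evalZ],
        by simp [lf, Tm.evalZ]⟩
    | 1 => exact ⟨(0, 1, 0, 0), by simp [bd, Tm.size], by simp [lf, Tm.evalZ],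
        by simp [lf, Tm.evalZ]⟩
    | 2 => exact ⟨(0, 0, 1, 0), by simp [bd, Tm.size], by simp [lf, Tm.evalZ],
        by simp [lf, Tm.evalZ]⟩
    | 3 => exact ⟨(0, 0, 0, 1), by simp [bd, Tm.size], by simp [lf, Tm.evalZ],
        by simp [lf, Tm.evalZ]⟩
    | i + 4 => exact ⟨(0, 0, 0, 0), by simp [bd, Tm.size],
        by simp [lf, Tm.evalZ, hv (i + 4) (by omega)],
        by simp [lf, Tm.evalZ, hv' (i + 4) (by omega)]⟩
  | one => exact ⟨(0, 0, 0, 0), by simp [bd, Tm.size], by simp [lf, Tm.evalZ],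
      by simp [lf, Tm.evalZ]⟩
  | inv s hs =>
    obtain ⟨a, ha, h1, h2⟩ := hs ht
    exact ⟨-a, bd_neg ha, by rw [lf_neg]; simp [Tm.evalZ, h1], by rw [lf_neg]; simp [Tm.evalZ, h2]⟩
  | mul s t hs ht' =>
    simp only [Tm.size] at ht
    obtain ⟨a, ha, h1, h2⟩ := hs (by omega)
    obtain ⟨b, hb, h3, h4⟩ := ht' (by omega)
    exact ⟨a + b, bd_add ha hb, by rw [lf_add]; simp [Tm.evalZ, h1, h3],
      by rw [lf_add]; simp [Tm.evalZ, h2, h4]⟩
  | inf s t hs ht' =>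
    simp only [Tm.size] at ht
    obtain ⟨a, ha, h1, h2⟩ := hs (by omega)
    obtain ⟨b, hb, h3, h4⟩ := ht' (by omega)
    have hbd : bd (b + -a) (2 * c) :=
      bd_mono (bd_add hb (bd_neg ha)) (by omega)
    have hs := h _ hbd
    simp only [lf_add, lf_neg] at hs
    by_cases h0 : 0 ≤ lf b v + -lf a v
    · have h0' := hs.1 h0
      refine ⟨a, bd_mono ha (by simp [Tm.size]), ?_, ?_⟩
      · simp only [Tm.evalZ, h1, h3]
        exact min_eq_left (by linarith)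
      · simp only [Tm.evalZ, h2, h4]
        exact min_eq_left (by linarith)
    · have h0' : ¬ 0 ≤ lf b v' + -lf a v' := fun h => h0 (hs.2 h)
      refine ⟨b, bd_mono hb (by simp [Tm.size]), ?_, ?_⟩
      · simp only [Tm.evalZ, h1, h3]
        exact min_eq_right (by linarith)
      · simp only [Tm.evalZ, h2, h4]
        exact min_eq_right (by linarith)
  | sup s t hs ht' =>
    simp only [Tm.size] at ht
    obtain ⟨a, ha, h1, h2⟩ := hs (by omega)
    obtain ⟨b, hb, h3, h4⟩ := ht' (by omega)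
    have hbd : bd (b + -a) (2 * c) :=
      bd_mono (bd_add hb (bd_neg ha)) (by omega)
    have hs := h _ hbd
    simp only [lf_add, lf_neg] at hs
    by_cases h0 : 0 ≤ lf b v + -lf a v
    · have h0' := hs.1 h0
      refine ⟨b, bd_mono hb (by simp [Tm.size]), ?_, ?_⟩
      · simp only [Tm.evalZ, h1, h3]
        exact max_eq_right (by linarith)
      · simp only [Tm.evalZ, h2, h4]
        exact max_eq_right (by linarith)
    · have h0' : ¬ 0 ≤ lf b v' + -lf a v' := fun h => h0 (hs.2 h)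
      refine ⟨a, bd_mono ha (by simp [Tm.size]), ?_, ?_⟩
      · simp only [Tm.evalZ, h1, h3]
        exact max_eq_left (by linarith)
      · simp only [Tm.evalZ, h2, h4]
        exact max_eq_left (by linarith)

theorem evalZ_zero_iff {c : ℕ} {v v' : ℕ → ℤ} (h : SameSign (2 * c) v v')
    (hv : ∀ i, 4 ≤ i → v i = 0) (hv' : ∀ i, 4 ≤ i → v' i = 0) (t : Tm ℕ) (ht : t.size ≤ c) :
    t.evalZ v = 0 ↔ t.evalZ v' = 0 := by
  obtain ⟨a, ha, h1, h2⟩ := repr_of_sameSign h hv hv' t ht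
  rw [h1, h2]
  exact h.zero a (bd_mono ha (by omega))

theorem v4_zero (p : ℕ × ℕ × ℕ × ℕ) (i : ℕ) (hi : 4 ≤ i) : v4 p i = 0 := by
  obtain ⟨j, rfl⟩ := Nat.exists_eq_add_of_le' hi
  rfl

theorem lf_v4 (a : ℤ × ℤ × ℤ × ℤ) (p : ℕ × ℕ × ℕ × ℕ) :
    lf a (v4 p) = a.1 * p.1 + a.2.1 * p.2.1 + a.2.2.1 * p.2.2.1 + a.2.2.2 * p.2.2.2 := rfl

/-- Lexicographic sign. -/
theorem lex_nonneg {k r M : ℤ} (h : |r| < M) : 0 ≤ M * k + r ↔ 0 < k ∨ (k = 0 ∧ 0 ≤ r) := by
  rw [abs_lt] at h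
  rcases lt_trichotomy k 0 with hk | hk | hk
  · have : M * k + r < 0 := by nlinarith
    constructor
    · intro h'; linarith
    · rintro (h' | ⟨h', _⟩) <;> omega
  · subst hk
    simp
  · have : 0 ≤ M * k + r := by nlinarith
    exact ⟨fun _ => Or.inl hk, fun _ => this⟩

theorem lex_pos {k r M : ℤ} (h : |r| < M) : 0 < M * k + r ↔ 0 < k ∨ (k = 0 ∧ 0 < r) := by
  rw [abs_lt] at h
  rcases lt_trichotomy k 0 with hk | hk | hk
  · have : M * k + r < 0 := by nlinarith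
    constructor
    · intro h'; linarith
    · rintro (h' | ⟨h', _⟩) <;> omega
  · subst hk
    simp
  · have : 0 < M * k + r := by nlinarith
    exact ⟨fun _ => Or.inl hk, fun _ => this⟩

theorem lex_zero {k r M : ℤ} (h : |r| < M) : M * k + r = 0 ↔ k = 0 ∧ r = 0 := by
  rw [abs_lt] at h
  rcases lt_trichotomy k 0 with hk | hk | hk
  · have : M * k + r < 0 := by nlinarith
    constructor
    · intro h'; linarith
    · rintro ⟨h', _⟩; omega
  · subst hk
    simp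
  · have : 0 < M * k + r := by nlinarith
    constructor
    · intro h'; linarith
    · rintro ⟨h', _⟩; omega

theorem ef_bound {a : ℤ × ℤ × ℤ × ℤ} {c e f : ℕ} (ha : bd a c) (hef : e + f = 1) :
    |a.2.2.1 * (e : ℤ) + a.2.2.2 * (f : ℤ)| ≤ c := by
  obtain ⟨_, _, h3, h4⟩ := ha
  have : (e = 0 ∧ f = 1) ∨ (e = 1 ∧ f = 0) := by omega
  rcases this with ⟨rfl, rfl⟩ | ⟨rfl, rfl⟩
  · simpa using h4
  · simpa using h3

theorem lf_rw (a : ℤ × ℤ × ℤ × ℤ) (n m e f : ℕ) :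
    lf a (v4 (m, n * m, e, f)) =
      (m : ℤ) * ((n : ℤ) * a.2.1 + a.1) + (a.2.2.1 * (e : ℤ) + a.2.2.2 * (f : ℤ)) := by
  rw [lf_v4]
  push_cast
  ring

/-- `n` fixed, `m` and `m'` large. -/
theorem sign_m (t : Tm ℕ) (c n m m' e f : ℕ) (ht : t.size ≤ c) (he : e ≤ 1) (hf : f ≤ 1)
    (hef : e + f = 1) (hm : 2 * c < m) (hm' : 2 * c < m') :
    t.evalZ (v4 (m, n * m, e, f)) = 0 ↔ t.evalZ (v4 (m', n * m', e, f)) = 0 := by
  refine evalZ_zero_iff (c := c) ?_ (v4_zero _) (v4_zero _) t ht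
  intro a ha
  have h1 := ef_bound ha hef
  rw [lf_rw, lf_rw, lex_nonneg (lt_of_le_of_lt h1 (by exact_mod_cast hm)),
    lex_nonneg (lt_of_le_of_lt h1 (by exact_mod_cast hm'))]

/-- `n`, `n'` large and `m`, `m'` still larger. -/
theorem sign_n (t : Tm ℕ) (c n m n' m' e f : ℕ) (ht : t.size ≤ c) (he : e ≤ 1) (hf : f ≤ 1)
    (hef : e + f = 1) (hn : 2 * c < n) (hm : n < m) (hn' : 2 * c < n') (hm' : n' < m') :
    t.evalZ (v4 (m, n * m, e, f)) = 0 ↔ t.evalZ (v4 (m', n' * m', e, f)) = 0 := by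
  refine evalZ_zero_iff (c := c) ?_ (v4_zero _) (v4_zero _) t ht
  intro a ha
  have h1 := ef_bound ha hef
  have h2 : |a.1| < (n : ℤ) := lt_of_le_of_lt ha.1 (by exact_mod_cast hn)
  have h3 : |a.1| < (n' : ℤ) := lt_of_le_of_lt ha.1 (by exact_mod_cast hn')
  rw [lf_rw, lf_rw, lex_nonneg (lt_of_le_of_lt h1 (by exact_mod_cast hn.trans hm)),
    lex_nonneg (lt_of_le_of_lt h1 (by exact_mod_cast hn'.trans hm')),
    lex_pos h2, lex_pos h3, lex_zero h2, lex_zero h3]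

/-- The same for the lexicographic product. -/
theorem sign_h (t : Tm ℕ) (c m m' : ℕ) (ht : t.size ≤ c) (hm : 2 * c < m) (hm' : 2 * c < m') :
    t.evalZ (v4 (m, 1, 0, 0)) = 0 ↔ t.evalZ (v4 (m', 1, 0, 0)) = 0 := by
  refine evalZ_zero_iff (c := c) ?_ (v4_zero _) (v4_zero _) t ht
  intro a ha
  have h1 : |a.2.1| < (m : ℤ) := lt_of_le_of_lt ha.2.1 (by exact_mod_cast hm)
  have h2 : |a.2.1| < (m' : ℤ) := lt_of_le_of_lt ha.2.1 (by exact_mod_cast hm')
  have e1 : ∀ M : ℕ, lf a (v4 (M, 1, 0, 0)) = (M : ℤ) * a.1 + a.2.1 := by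
    intro M
    rw [lf_v4]
    push_cast
    ring
  rw [e1, e1, lex_nonneg h1, lex_nonneg h2]

end LG39
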