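import Pool.Agent.LG39.Grp
import Pool.Agent.LG39.Sign
import Pool.Agent.LG39.Comp
import Pool.Agent.LG39.LexA

/-!
# The word problems of the two `ℓ`-groups are soluble
-/

namespace LG39

open Nat.Partrec

/-- Value of a term at a point of `Pt`. -/
theorem eval_gx (t : Tm ℕ) (p : Pt) : t.eval gx p = Multiplicative.ofAdd
    (t.evalZ (v4 (p.1.2.1, p.1.1 * p.1.2.1, (if p.1.2.2 then 0 else 1),
      (if p.1.2.2 then 1 else 0)))) := by
  rw [← eval_Zm]
  exact (proj_hom (K := Zm) p).eval gx t

theorem eval_gg_one (t : Tm ℕ) : t.eval gg = 1 ↔ ∀ p : Pt, 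
    t.evalZ (v4 (p.1.2.1, p.1.1 * p.1.2.1, (if p.1.2.2 then 0 else 1),
      (if p.1.2.2 then 1 else 0))) = 0 := by
  have h1 : t.eval gg = 1 ↔ (t.eval gg).1 = (1 : GG).1 :=
    ⟨fun h => by rw [h], fun h => Subtype.ext h⟩
  rw [h1, SubGen.eval_gen]
  have h2 : (1 : GG).1 = (1 : Pt → Zm) := rfl
  rw [h2]
  constructor
  · intro h p
    have := congrFun h p
    rw [eval_gx] at this
    exact this
  · intro h
    funext p
    rw [eval_gx, h p]
    rfl

/-- The finite test. -/
theorem eval_gg_fin (t : Tm ℕ) : t.eval gg = 1 ↔ ∀ n < 2 * (t.code + 1) + 2,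
    ∀ m < 2 * (t.code + 1) + 3, (n < m → (m = n + 1 ∨ ¬ HaltsIn n m) →
      t.evalZ (v4 (m, n * m, 1, 0)) = 0 ∧ t.evalZ (v4 (m, n * m, 0, 1)) = 0) := by
  rw [eval_gg_one]
  constructor
  · intro h n _ m _ hnm hH
    exact ⟨h ⟨(n, m, false), hnm, hH⟩, h ⟨(n, m, true), hnm, hH⟩⟩
  · intro h p
    obtain ⟨⟨n, m, e⟩, hnm, hH⟩ := p
    simp only at hnm hH ⊢
    have hs := size_le_code t
    set c := t.code + 1 with hc
    have key : t.evalZ (v4 (m, n * m, 1, 0)) = 0 ∧ t.evalZ (v4 (m, n * m, 0, 1)) = 0 := by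
      by_cases hn : n < 2 * c + 2
      · by_cases hm : m < 2 * c + 3
        · exact h n hn m hm hnm hH
        · have hm2 : ¬ HaltsIn n m := by
            rcases hH with hH | hH
            · omega
            · exact hH
          have h3 : ¬ HaltsIn n (2 * c + 2) := fun hh => hm2 (haltsIn_mono (by omega) hh)
          have h4 := h n hn (2 * c + 2) (by omega) (by omega) (Or.inr h3)
          constructor
          · exact (sign_m t c n m (2 * c + 2) 1 0 hs (by omega) (by omega) (by omega)
              (by omega) (by omega)).2 h4.1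
          · exact (sign_m t c n m (2 * c + 2) 0 1 hs (by omega) (by omega) (by omega)
              (by omega) (by omega)).2 h4.2
      · have h4 := h (2 * c + 1) (by omega) (2 * c + 2) (by omega) (by omega) (Or.inl rfl)
        constructor
        · exact (sign_n t c n m (2 * c + 1) (2 * c + 2) 1 0 hs (by omega) (by omega) (by omega)
              (by omega) hnm (by omega) (by omega)).2 h4.1
        · exact (sign_n t c n m (2 * c + 1) (2 * c + 2) 0 1 hs (by omega) (by omega) (by omega)
              (by omega) hnm (by omega) (by omega)).2 h4.2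
    cases e
    · exact key.1
    · exact key.2

/-- `t = 1` in `G` iff `t` vanishes at all points `(n, m, e)` of `Pt` with `n ≤ 2 c + 1`,
`m ≤ 2 c + 2`, `c = code t + 1` (`size_le_code`, `sign_m`, `sign_n`, `haltsIn_mono`); this is a
bounded search (`eval_computable`, `Nat.Partrec.Code.primrec_evaln`). -/
theorem soluble_G : Soluble gg := by
  classical
  obtain ⟨z, hz, hzt⟩ := eval_computable
  have hH : PrimrecRel HaltsIn := by
    unfold HaltsIn
    refine Primrec.eq.comp ?_ (Primrec.const true)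
    refine Primrec.option_isSome.comp ?_
    exact Code.primrec_evaln.comp ((Primrec.snd.pair ((Primrec.ofNat Code).comp
      Primrec.fst)).pair (Primrec.const 0))
  -- the relation
  let R : ℕ → ℕ × ℕ → Prop := fun m q =>
    (¬ q.2 < m ∨ ¬ (m = q.2 + 1 ∨ ¬ HaltsIn q.2 m)) ∨
      (z (m, q.2 * m, 1, 0) q.1 = true ∧ z (m, q.2 * m, 0, 1) q.1 = true)
  have hn : Primrec (fun x : ℕ × (ℕ × ℕ) => x.2.2) := Primrec.snd.comp Primrec.snd
  have hc : Primrec (fun x : ℕ × (ℕ × ℕ) => x.2.1) := Primrec.fst.comp Primrec.snd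
  have hm : Primrec (fun x : ℕ × (ℕ × ℕ) => x.1) := Primrec.fst
  have hR : PrimrecRel R := by
    refine PrimrecPred.or (PrimrecPred.or (PrimrecPred.not (Primrec.nat_lt.comp hn hm))
      (PrimrecPred.not (PrimrecPred.or (Primrec.eq.comp hm (Primrec.succ.comp hn))
        (PrimrecPred.not (hH.comp hn hm))))) (PrimrecPred.and ?_ ?_)
    · exact Primrec.eq.comp (hz.comp (hm.pair ((Primrec.nat_mul.comp hn hm).pair
        (Primrec.const (1, 0)))) hc) (Primrec.const true)
    · exact Primrec.eq.comp (hz.comp (hm.pair ((Primrec.nat_mul.comp hn hm).pair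
        (Primrec.const (0, 1)))) hc) (Primrec.const true)
  have h1 : Primrec (fun c : ℕ => List.range (2 * (c + 1) + 3)) :=
    Primrec.list_range.comp (Primrec.nat_add.comp (Primrec.nat_mul.comp (Primrec.const 2)
      Primrec.succ) (Primrec.const 3))
  have h2 : Primrec (fun c : ℕ => List.range (2 * (c + 1) + 2)) :=
    Primrec.list_range.comp (Primrec.nat_add.comp (Primrec.nat_mul.comp (Primrec.const 2)
      Primrec.succ) (Primrec.const 2))
  have hR1 : PrimrecRel (fun (n c : ℕ) => ∀ m ∈ List.range (2 * (c + 1) + 3), R m (c, n)) :=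
    hR.forall_mem_list.comp (h1.comp Primrec.snd) (Primrec.snd.pair Primrec.fst)
  have hR2 : PrimrecPred (fun (c : ℕ) => ∀ n ∈ List.range (2 * (c + 1) + 2),
      ∀ m ∈ List.range (2 * (c + 1) + 3), R m (c, n)) :=
    hR1.forall_mem_list.comp h2 Primrec.id
  obtain ⟨hD, hP⟩ := hR2
  refine ⟨fun c => decide (∀ n ∈ List.range (2 * (c + 1) + 2),
      ∀ m ∈ List.range (2 * (c + 1) + 3), R m (c, n)), ?_, ?_⟩
  · apply Primrec.to_comp
    exact hP.of_eq (fun c => decide_eq_decide.2 Iff.rfl)
  · intro t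
    rw [decide_eq_true_iff, eval_gg_fin]
    simp only [List.mem_range, R, hzt]
    refine forall_congr' fun n => forall_congr' fun _ => forall_congr' fun m =>
      forall_congr' fun _ => ?_
    constructor
    · rintro ((h | h) | h) h1 h2
      · exact absurd h1 h
      · exact absurd h2 h
      · exact h
    · intro h
      by_cases h1 : n < m
      · by_cases h2 : m = n + 1 ∨ ¬ HaltsIn n m
        · exact Or.inr (h h1 h2)
        · exact Or.inl (Or.inr h2)
      · exact Or.inl (Or.inl h1)

/-- `t = 1` in `H` iff `t` vanishes at `(2 c + 1, 1, 0, 0)` (`lex_approx`, `sign_h`). -/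
theorem soluble_H : Soluble hh := by
  obtain ⟨z, hz, hzt⟩ := eval_computable
  refine ⟨fun c => z (2 * (c + 1) + 1, 1, 0, 0) c, ?_, ?_⟩
  · apply Primrec.to_comp
    apply hz.comp _ Primrec.id
    have h1 : Primrec (fun c : ℕ => 2 * (c + 1) + 1) :=
      Primrec.succ.comp (Primrec.nat_mul.comp (Primrec.const 2) Primrec.succ)
    exact h1.pair (Primrec.const _)
  · intro t
    rw [hzt]
    have hs := size_le_code t
    obtain ⟨A, B, hAB, M, hM⟩ := lex_approx (fun i => match i with
      | 0 => (1, 0)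
      | 1 => (0, 1)
      | _ => (0, 0)) t
    have e1 : (fun i => lx ((fun i : ℕ => (match i with
      | 0 => (1, 0)
      | 1 => (0, 1)
      | _ => (0, 0) : ℤ × ℤ)) i).1 ((fun i : ℕ => (match i with
      | 0 => (1, 0)
      | 1 => (0, 1)
      | _ => (0, 0) : ℤ × ℤ)) i).2) = hh := by
      funext i
      rcases i with _ | _ | i
      · rfl
      · rfl
      · simp only [hh]
        exact lx_one
    have e2 : ∀ m : ℕ, M ≤ m → t.evalZ (v4 (m, 1, 0, 0)) = A * m + B := by
      intro m hm
      rw [← hM m hm]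
      congr 1
      funext i
      rcases i with _ | _ | _ | _ | i <;> simp [v4]
    rw [e1] at hAB
    rw [hAB, ← lx_one, lx_inj]
    have h3 : ∀ m : ℕ, 2 * (t.code + 1) < m → (t.evalZ (v4 (m, 1, 0, 0)) = 0 ↔
        t.evalZ (v4 ((2 * (t.code + 1) + 1 : ℕ), 1, 0, 0)) = 0) :=
      fun m hm => sign_h t (t.code + 1) m (2 * (t.code + 1) + 1) hs hm (by omega)
    constructor
    · intro h
      have h4 := (h3 (2 * (t.code + 1) + 1 + M) (by omega)).2 h
      have h5 := (h3 (2 * (t.code + 1) + 2 + M) (by omega)).2 h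
      rw [e2 _ (by omega)] at h4 h5
      push_cast at h4 h5
      have hA : A = 0 := by linarith
      subst hA
      simpa using h4
    · rintro ⟨rfl, rfl⟩
      have h4 := e2 (2 * (t.code + 1) + 1 + M) (by omega)
      refine (h3 (2 * (t.code + 1) + 1 + M) (by omega)).1 ?_
      rw [h4]
      simp

theorem eval_pw {G : Type} [LGrp G] (v : ℕ → G) (t : Tm ℕ) (n : ℕ) :
    (pw n t).eval v = t.eval v ^ n := by
  induction n with
  | zero => simp [pw, Tm.eval]
  | succ n ih => rw [pw, Tm.eval, ih, pow_succ]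

/-- Integer powers. -/
theorem exists_zpw {G : Type} [LGrp G] (v : ℕ → G) (t : Tm ℕ) (a : ℤ) :
    ∃ s : Tm ℕ, s.eval v = t.eval v ^ a := by
  rcases a with n | n
  · exact ⟨pw n t, by rw [eval_pw]; simp⟩
  · exact ⟨.inv (pw (n + 1) t), by rw [Tm.eval, eval_pw, zpow_negSucc]⟩

theorem gens_H : Gens hh := by
  intro g
  obtain ⟨s, hs⟩ := exists_zpw hh (.var 0) (ofLex (Multiplicative.toAdd g)).1
  obtain ⟨t, ht⟩ := exists_zpw hh (.var 1) (ofLex (Multiplicative.toAdd g)).2
  refine ⟨.mul s t, ?_⟩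
  rw [Tm.eval, hs, ht]
  have h1 : ∀ a : ℤ, (Tm.eval hh (.var 0)) ^ a = lx a 0 := by
    intro a
    have e : Tm.eval hh (.var 0) = lx 1 0 := rfl
    rw [e]
    induction a using Int.induction_on with
    | zero => rw [zpow_zero, lx_one]
    | succ i ih => rw [zpow_add_one, ih, lx_mul]; simp
    | pred i ih => rw [zpow_sub_one, ih, lx_inv, lx_mul]; simp [sub_eq_add_neg]
  have h2 : ∀ a : ℤ, (Tm.eval hh (.var 1)) ^ a = lx 0 a := by
    intro a
    have e : Tm.eval hh (.var 1) = lx 0 1 := rfl
    rw [e]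
    induction a using Int.induction_on with
    | zero => rw [zpow_zero, lx_one]
    | succ i ih => rw [zpow_add_one, ih, lx_mul]; simp
    | pred i ih => rw [zpow_sub_one, ih, lx_inv, lx_mul]; simp [sub_eq_add_neg]
  rw [h1, h2, lx_mul]
  simp only [add_zero, zero_add]
  rfl

end LG39
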