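import Pool.Agent.LG39.Grp

/-!
# The test words are computable
-/

namespace LG39

namespace WordsAux

/-- The code of the term depends on `n` primitively recursively. -/
def PT (t : ℕ → Tm ℕ) : Prop := Primrec fun n => (t n).code

theorem pt_const (t : Tm ℕ) : PT fun _ => t := Primrec.const _

theorem five {f : ℕ → ℕ} (hf : Primrec f) (c : ℕ) : Primrec fun n => 5 * f n + c :=
  Primrec.nat_add.comp (Primrec.nat_mul.comp (Primrec.const 5) hf) (Primrec.const c)

theorem pt_inv {t : ℕ → Tm ℕ} (h : PT t) : PT fun n => .inv (t n) := five h 2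

theorem pr {f g : ℕ → ℕ} (hf : Primrec f) (hg : Primrec g) :
    Primrec fun n => Nat.pair (f n) (g n) := Primrec₂.natPair.comp hf hg

theorem pt_mul {s t : ℕ → Tm ℕ} (hs : PT s) (ht : PT t) : PT fun n => .mul (s n) (t n) :=
  five (pr hs ht) 3

theorem pt_inf {s t : ℕ → Tm ℕ} (hs : PT s) (ht : PT t) : PT fun n => .inf (s n) (t n) :=
  five (pr hs ht) 4

theorem pt_sup {s t : ℕ → Tm ℕ} (hs : PT s) (ht : PT t) : PT fun n => .sup (s n) (t n) :=
  five (pr hs ht) 5

theorem pt_pw (t : Tm ℕ) : PT fun n => pw n t := by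
  have h : Primrec (Nat.rec (motive := fun _ => ℕ) 0
      (fun _ r => 5 * Nat.pair r t.code + 3) : ℕ → ℕ) := by
    refine Primrec.nat_rec₁ 0 ?_
    exact Primrec.nat_add.comp (Primrec.nat_mul.comp (Primrec.const 5)
      (Primrec₂.natPair.comp Primrec.snd (Primrec.const _))) (Primrec.const 3)
  refine h.of_eq fun n => ?_
  induction n with
  | zero => rfl
  | succ n ih => show 5 * Nat.pair _ _ + 3 = 5 * Nat.pair _ _ + 3; rw [ih]

theorem map_pw (r : ℕ → ℕ) (t : Tm ℕ) (n : ℕ) : (pw n t).map r = pw n (t.map r) := by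
  induction n with
  | zero => rfl
  | succ n ih => simp only [pw, Tm.map, ih]

/-- `kT n` with the variables doubled. -/
def kD (n : ℕ) : Tm ℕ :=
  .sup (.mul (.var 0) (.inv (.sup (.mul (.var 2) (.inv (pw n (.var 0))))
    (.inv (.mul (.var 2) (.inv (pw n (.var 0)))))))) .one

theorem kD_eq (n : ℕ) : (kT n).map (fun i => 2 * i) = kD n := by
  simp only [kT, kD, Tm.map, map_pw, Nat.mul_zero, Nat.mul_one]

theorem sD_eq (n : ℕ) : (sT n).map (fun i => 2 * i) = .inf (.var 4) (kD n) := by
  simp only [sT, Tm.map, kD_eq, Nat.reduceMul]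

theorem hD_eq (n : ℕ) : (hT n).map (fun i => 2 * i) = .inf (.var 6) (kD n) := by
  simp only [hT, Tm.map, kD_eq, Nat.reduceMul]

theorem pt_kD : PT kD := by
  have h : PT fun n => pw n (.var 0) := pt_pw _
  have h3 : PT fun n => Tm.mul (.var 2) (.inv (pw n (.var 0))) :=
    pt_mul (pt_const _) (pt_inv h)
  have h4 := pt_sup (pt_mul (pt_const (.var 0)) (pt_inv (pt_sup h3 (pt_inv h3)))) (pt_const .one)
  exact h4

end WordsAux

open WordsAux in
theorem code_wN : Computable fun n : ℕ => (wN n).code := by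
  have hs : PT fun n => Tm.inf (.var 4) (kD n) := pt_inf (pt_const _) pt_kD
  have hh : PT fun n => Tm.inf (.var 6) (kD n) := pt_inf (pt_const _) pt_kD
  have h1 := pt_mul pt_kD (pt_const (.inv (.var 1)))
  have h2 := pt_mul (pt_const (.mul (.var 3) (.var 3))) (pt_inv (pt_mul hs hh))
  have h3 := pt_sup (pt_inf h1 h2) (pt_const .one)
  refine Primrec.to_comp (Primrec.of_eq h3 fun n => ?_)
  simp only [wN, kD_eq, sD_eq, hD_eq]

open WordsAux in
theorem code_wL : Computable fun n : ℕ => (wL n).code := by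
  have hs : PT fun n => Tm.inf (.var 4) (kD n) := pt_inf (pt_const _) pt_kD
  have hh : PT fun n => Tm.inf (.var 6) (kD n) := pt_inf (pt_const _) pt_kD
  have h1 := pt_mul pt_kD (pt_const (.inv (.var 1)))
  have h2 := pt_inf (pt_inf (pt_const (.var 1)) h1) hs
  have h3 := pt_mul (pt_mul (pt_const (.var 1)) hh) (pt_const (.inv (.var 1)))
  have h4 := pt_sup (pt_inf h2 h3) (pt_const .one)
  refine Primrec.to_comp (Primrec.of_eq h4 fun n => ?_)
  simp only [wL, kD_eq, sD_eq, hD_eq]

end LG39
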