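import Pool.Agent.LG39.FreeP
import Pool.Agent.LG39.NKey
import Pool.Agent.LG39.LKey
import Pool.Agent.LG39.Holl
import Pool.Agent.LG39.WPG
import Pool.Agent.LG39.Words
import Pool.Agent.LG39.Rel

/-!
# Main theorem
-/

namespace LG39

open Nat.Partrec

/-- The test word cannot decide the halting problem. -/
theorem no_decider (w : ℕ → Tm ℕ) (hw : Computable fun n => (w n).code) {P : Type} [LGrp P]
    (z : ℕ → P) (h : ∀ n, (w n).eval z = 1 ↔ ∃ m, HaltsIn n m) : ¬ Soluble z := by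
  rintro ⟨f, hf, hft⟩
  apply ComputablePred.halting_problem 0
  rw [ComputablePred.computable_iff]
  refine ⟨fun c => f (w (Encodable.encode c)).code, hf.comp (hw.comp Computable.encode), ?_⟩
  funext c
  apply propext
  rw [halts_iff, ← h, ← hft]

/-- Evaluation of a term of `G` in the free product. -/
theorem eval_left {P : Type} [LGrp P] {G H : Type} [LGrp G] (i : G → P) (hi : IsLHom i)
    (j : H → P) (x : ℕ → G) (y : ℕ → H) (t : Tm ℕ) :
    (t.map (fun k => 2 * k)).eval (merge (i ∘ x) (j ∘ y)) = i (t.eval x) := by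
  rw [Tm.eval_map, hi.eval]
  congr 1
  funext k
  simp [merge]

theorem merge_odd {P : Type} (x y : ℕ → P) (k : ℕ) : merge x y (2 * k + 1) = y k := by
  have h1 : (2 * k + 1) % 2 = 1 := by omega
  have h2 : (2 * k + 1) / 2 = k := by omega
  simp [merge, h1, h2]

theorem eval_wN {P : Type} [LGrp P] (i : GG → P) (hi : IsLHom i) (j : Lex2 → P) (n : ℕ) :
    (wN n).eval (merge (i ∘ gg) (j ∘ hh)) =
      (i ((kT n).eval gg) * (j (lx 1 0))⁻¹) ⊓
        (j (lx 0 1) * j (lx 0 1) * (i ((sT n).eval gg) * i ((hT n).eval gg))⁻¹) ⊔ 1 := by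
  have h1 : merge (i ∘ gg) (j ∘ hh) 1 = j (lx 1 0) := merge_odd _ _ 0
  have h3 : merge (i ∘ gg) (j ∘ hh) 3 = j (lx 0 1) := merge_odd _ _ 1
  simp only [wN, Tm.eval, eval_left i hi, h1, h3]

theorem eval_wL {P : Type} [LGrp P] (i : GG → P) (hi : IsLHom i) (j : Lex2 → P) (n : ℕ) :
    (wL n).eval (merge (i ∘ gg) (j ∘ hh)) =
      j (lx 1 0) ⊓ (i ((kT n).eval gg) * (j (lx 1 0))⁻¹) ⊓ i ((sT n).eval gg) ⊓
        (j (lx 1 0) * i ((hT n).eval gg) * (j (lx 1 0))⁻¹) ⊔ 1 := by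
  have h1 : merge (i ∘ gg) (j ∘ hh) 1 = j (lx 1 0) := merge_odd _ _ 0
  simp only [wL, Tm.eval, eval_left i hi, h1]

theorem lx_pow (a b : ℤ) (n : ℕ) : lx a b ^ n = lx (n * a) (n * b) := by
  induction n with
  | zero => simp [lx_one]
  | succ n ih =>
    rw [pow_succ, ih, lx_mul, lx_inj]
    push_cast
    constructor <;> ring

/-- The integers lie in every nontrivial variety. -/
theorem models_Z {E : Set (Tm ℕ × Tm ℕ)} (hE : ¬ TrivialVar E) : Models E Zm := by
  unfold TrivialVar at hE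
  push Not at hE
  obtain ⟨K, _, hK, hK2⟩ := hE
  exact models_Zm hK (not_subsingleton_iff_nontrivial.2 hK2)

/-- The first case. -/
theorem case_N (E : Set (Tm ℕ × Tm ℕ)) {P : Type} [LGrp P]
    (i : GG → P) (j : Lex2 → P) (hP : IsFreeProd E i j) (hZ : Models E Zm)
    (hN : ∀ (K : Type) [LGrp K], Models E K → ∀ x y : K, 1 ≤ x → 1 ≤ y → x * y ≤ y ^ 2 * x ^ 2) :
    ¬ Soluble (merge (i ∘ gg) (j ∘ hh)) := by
  have hi := hP.hom_l
  have hj := hP.hom_r
  apply no_decider wN code_wN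
  intro n
  rw [eval_wN i hi j n]
  constructor
  · intro h1
    by_contra h2
    push Not at h2
    obtain ⟨f, hf, hk, hs, hh'⟩ := hom_lex n h2
    obtain ⟨F, ⟨hF, hFi, hFj⟩, _⟩ := hP.univ Lex2 (models_Lex2 hZ) f (fun a => a) hf IsLHom.id
    have h3 := congrArg F h1
    rw [hF.map_sup, hF.map_inf, hF.map_mul, hF.map_mul, hF.map_mul, hF.map_inv, hF.map_inv,
      hF.map_mul, hF.map_one, hFi, hFi, hFi, hFj, hFj, hk, hs, hh'] at h3
    rw [mul_one, lx_inv, lx_inv, lx_mul, lx_mul, lx_mul] at h3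
    have h4 : lx (2 + -1) (0 + -0) ⊓ lx (0 + 0 + -0) (1 + 1 + -1) = lx 0 1 := by
      rw [inf_eq_right.2]
      · norm_num
      · rw [lx_le]; left; norm_num
    rw [h4] at h3
    have h5 : lx 0 1 ≤ 1 := by
      rw [← h3]; exact le_sup_left
    rw [← lx_one, lx_le] at h5
    omega
  · intro h1
    obtain ⟨hk1, hs1, hh1, hd⟩ := rel_basic n
    obtain ⟨M, hM, hkM⟩ := rel_halt n h1
    have hid : ∀ {a : GG}, 1 ≤ a → 1 ≤ i a := fun {a} h => by
      rw [← hi.map_one]; exact hi.mono h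
    have hjd : ∀ {a : Lex2}, 1 ≤ a → 1 ≤ j a := fun {a} h => by
      rw [← hj.map_one]; exact hj.mono h
    have ha1 : (1 : Lex2) ≤ lx 1 0 := by rw [← lx_one, lx_le]; left; norm_num
    have hb1 : (1 : Lex2) ≤ lx 0 1 := by rw [← lx_one, lx_le]; right; norm_num
    refine normal_key (hN P hP.mem) _ _ _ _ (hid hk1)
      (one_le_mul (hid hs1) (hid hh1)) (hjd ha1) (one_le_mul (hjd hb1) (hjd hb1))
      2 (2 * M) 1 one_lt_two (by omega) ?_ ?_
    · rw [← hi.map_mul, ← hi.map_pow, ← hi.map_pow]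
      apply hi.mono
      rw [mul_comm 2 M, pow_mul]
      exact pow_le_pow_left' hkM 2
    · rw [← hj.map_mul, ← hj.map_pow, ← hj.map_pow]
      apply hj.mono
      rw [pow_one, lx_mul, lx_pow, lx_le]
      left
      norm_num

/-- The second case. -/
theorem case_L (E : Set (Tm ℕ × Tm ℕ)) {P : Type} [LGrp P]
    (i : GG → P) (j : Lex2 → P) (hP : IsFreeProd E i j) (hW : Models E Wr) :
    ¬ Soluble (merge (i ∘ gg) (j ∘ hh)) := by
  have hi := hP.hom_l
  apply no_decider wL code_wL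
  intro n
  rw [eval_wL i hi j n]
  constructor
  · intro h1
    by_contra h2
    push Not at h2
    obtain ⟨f, hf, hk, hs, hh'⟩ := hom_wr n h2
    obtain ⟨g, hg, hgl⟩ := lex_to_wr
    obtain ⟨F, ⟨hF, hFi, hFj⟩, _⟩ := hP.univ Wr hW f g hf hg
    have h3 := congrArg F h1
    rw [hF.map_sup, hF.map_inf, hF.map_inf, hF.map_inf, hF.map_mul, hF.map_mul, hF.map_mul,
      hF.map_inv, hF.map_one, hFi, hFi, hFi, hFj, hk, hs, hh', hgl] at h3
    exact wr_test _ rfl h3
  · intro h1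
    obtain ⟨hk1, hs1, hh1, hd⟩ := rel_basic n
    obtain ⟨M, hM, hkM⟩ := rel_halt n h1
    have hid : ∀ {a : GG}, 1 ≤ a → 1 ≤ i a := fun {a} h => by
      rw [← hi.map_one]; exact hi.mono h
    refine l_key _ _ _ _ (hid hs1) (hid hh1) ?_ M ?_
    · rw [← hi.map_inf, hd, hi.map_one]
    · rw [← hi.map_mul, ← hi.map_pow]
      exact hi.mono hkM

theorem not_soluble (E : Set (Tm ℕ × Tm ℕ)) (hE : ¬ TrivialVar E) {P : Type} [LGrp P]
    (i : GG → P) (j : Lex2 → P) (hP : IsFreeProd E i j) :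
    ¬ Soluble (merge (i ∘ gg) (j ∘ hh)) := by
  by_cases hN : ∀ (K : Type) [LGrp K], Models E K → ∀ x y : K, 1 ≤ x → 1 ≤ y →
      x * y ≤ y ^ 2 * x ^ 2
  · exact case_N E i j hP (models_Z hE) hN
  · push Not at hN
    obtain ⟨K, _, hK, x, y, hx, hy, hxy⟩ := hN
    exact case_L E i j hP (models_Wr hK x y hx hy hxy)

theorem gg_tail (k : ℕ) (hk : 4 ≤ k) : gg k = 1 := by
  apply Subtype.ext
  funext p
  show gx k p = 1
  match k, hk with
  | k + 4, _ => rfl

theorem hh_tail (k : ℕ) (hk : 2 ≤ k) : hh k = 1 := by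
  match k, hk with
  | k + 2, _ => rfl

theorem gg_comm (a b : GG) : a * b = b * a := by
  apply Subtype.ext
  funext p
  exact mul_comm (a.1 p) (b.1 p)

theorem main :
    (∃ (G H : Type) (_ : LGrp G) (_ : LGrp H) (x : ℕ → G) (y : ℕ → H),
      (∀ a b : G, a * b = b * a) ∧ (∀ a b : H, a * b = b * a) ∧
      Gens x ∧ Gens y ∧ (∀ k, 4 ≤ k → x k = 1) ∧ (∀ k, 2 ≤ k → y k = 1) ∧
      Soluble x ∧ Soluble y ∧
      ∀ E : Set (Tm ℕ × Tm ℕ), ¬ TrivialVar E →
        Models E G ∧ Models E H ∧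
        (∃ (P : Type) (_ : LGrp P) (i : G → P) (j : H → P), IsFreeProd E i j) ∧
        ∀ (P : Type) [LGrp P] (i : G → P) (j : H → P), IsFreeProd E i j →
          ¬ Soluble (merge (i ∘ x) (j ∘ y))) ∧
    (∀ E : Set (Tm ℕ × Tm ℕ), Preserves E ↔ TrivialVar E) ∧
    (∀ E : Set (Tm ℕ × Tm ℕ), PreservesFG E ↔ TrivialVar E) := by
  have hneg : ∀ E : Set (Tm ℕ × Tm ℕ), PreservesFG E → TrivialVar E := by
    intro E h1
    by_contra hE
    have hZ := models_Z hE
    obtain ⟨P, _, i, j, hP⟩ := exists_freeProd E GG Lex2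
    exact not_soluble E hE i j hP (h1 GG Lex2 P i j gg hh (SubGen.models _ (models_pi hZ))
      (models_Lex2 hZ) hP (SubGen.gens _) gens_H ⟨4, gg_tail⟩ ⟨2, hh_tail⟩ soluble_G soluble_H)
  have hpos : ∀ E : Set (Tm ℕ × Tm ℕ), TrivialVar E → Preserves E := by
    intro E h1 G H P _ _ _ i j x y _ _ hP _ _ _ _
    have := h1 P hP.mem
    exact ⟨fun _ => true, Computable.const true, fun t => by simp [Subsingleton.elim _ (1 : P)]⟩
  have himp : ∀ E : Set (Tm ℕ × Tm ℕ), Preserves E → PreservesFG E := by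
    intro E h1 G H P _ _ _ i j x y h2 h3 hP h4 h5 _ _ h6 h7
    exact h1 G H P i j x y h2 h3 hP h4 h5 h6 h7
  refine ⟨⟨GG, Lex2, inferInstance, inferInstance, gg, hh, gg_comm, fun a b => mul_comm a b,
    SubGen.gens _, gens_H, gg_tail, hh_tail, soluble_G, soluble_H, ?_⟩,
    fun E => ⟨fun h => hneg E (himp E h), hpos E⟩,
    fun E => ⟨hneg E, fun h => himp E (hpos E h)⟩⟩
  intro E hE
  have hZ := models_Z hE
  exact ⟨SubGen.models _ (models_pi hZ), models_Lex2 hZ, exists_freeProd E GG Lex2,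
    fun P _ i j hP => not_soluble E hE i j hP⟩

end LG39
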